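import Pool.Agent.H24.NA3.Ev

/-!
# The fields `fu`, `f1`, `f2`, `j2`, `al` on one event

From the numbers `LiE` of the lists of jets and the few-bits relations `FwF`.
-/

set_option autoImplicit false

namespace Pool.NA24

open Finset Real MvPolynomial
open Pool.Agent.H49.Ent Pool.Agent.H32.Dense Pool.STK Pool.KA Pool.KSAT Pool.K2S Pool.PB Pool.S6C
  Pool.GEN Pool.RCD Pool.LA91 Pool.RJ28
open Pool.NDC42 (hgC pcC x0 jtC LbV cJ cJ_nonneg cD cD_nonneg jt_of_pc pc_of_jt jtC_zero rec_det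
  rec_mono)
open Pool.NA36 (vpC f1C f2C opl tcd tct jaC fbC jbC X0 rX rG na_pu)
open Pool.PB.Trl (rt rt_mem t_rt)
open Pool.V0F (cR mx_cR)

variable {m J : ℕ}

theorem mN_self (s w : ℝ) : mN s s w = uN s w := by
  funext i
  unfold mN
  rw [ite_self]

section

variable {F : Fam m J} {A : F.Ω → Prop} {c : ℕ → Fin m} {D : ℕ} {w : ℝ} {n : ℕ → ℝ}
  {H : LnT F → ℕ → MvPolynomial (Option (Fin m)) ℝ} {K n' : ℕ} {oB : Fin n' → ℕ}
  {q : F.Ω → ℝ} {g : ℝ}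

/-! ### Functions of the line -/

theorem pc_slam {l j₀ : ℕ} {s : ℝ} {ω ω' : F.Ω} (h : slam F ⌊w * J⌋₊ ω = slam F ⌊w * J⌋₊ ω') :
    pcC F c D w H l j₀ s ω = pcC F c D w H l j₀ s ω' := by
  funext a
  unfold pcC Pool.AVG71.cod
  rw [h]

theorem vp_slam {ω ω' : F.Ω} (h : slam F ⌊w * J⌋₊ ω = slam F ⌊w * J⌋₊ ω') :
    vpC F c D w n H ω = vpC F c D w n H ω' := by
  funext l
  exact pc_slam h

theorem fb_slam {τ nτ : ℝ} {ω ω' : F.Ω} (h : slam F ⌊w * J⌋₊ ω = slam F ⌊w * J⌋₊ ω') :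
    fbC F c w H τ nτ ω = fbC F c w H τ nτ ω' := by
  unfold fbC opl
  rw [h]

theorem jb_slam {τ nτ s₀ : ℝ} {ω ω' : F.Ω} (h : slam F ⌊w * J⌋₊ ω = slam F ⌊w * J⌋₊ ω')
    (h2 : tcd F w s₀ ω = tcd F w s₀ ω') :
    jbC F c D w H (tct F w s₀) τ nτ ω = jbC F c D w H (tct F w s₀) τ nτ ω' := by
  funext a
  unfold jbC jaC opl tct
  rw [h, h2]

theorem cR_slam {ω ω' : F.Ω} (hω : A ω) (hω' : A ω')
    (h : slam F ⌊w * J⌋₊ ω = slam F ⌊w * J⌋₊ ω') : cR F A w ω = cR F A w ω' := by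
  funext D
  obtain ⟨φ, hφ⟩ := D.2.2
  show D.1 ω = D.1 ω'
  rw [hφ ω hω, hφ ω' hω']
  show φ (slam F ⌊w * J⌋₊ ω) = φ (slam F ⌊w * J⌋₊ ω')
  rw [h]

theorem T1_cR {ω ω' : F.Ω} (h : cR F A w ω = cR F A w ω') :
    F.T1 ⌊w * J⌋₊ ω = F.T1 ⌊w * J⌋₊ ω' := by
  have hc : Cl2 (ptr F J) (vg w J F) A (F.T1 ⌊w * J⌋₊) :=
    ⟨⟨fun x => x.2.1 / 2 ^ (J - ⌊w * J⌋₊), fun ω _ => rfl⟩, ⟨fun x => x.2.2, fun ω _ => rfl⟩⟩
  exact rec_det hc h

theorem Z_cR {ω ω' : F.Ω} (h : cR F A w ω = cR F A w ω') : F.Z ω = F.Z ω' :=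
  rec_det (Pool.NA36.cl2_Z A w) h

/-! ### The far height -/

/-- **The far height is full** given the record of `τ` and all near data. -/
theorem fu_E (hA : 0 < Pe F.p A) (hw0 : 0 ≤ w) (hw1 : w ≤ 1)
    (hdeg : ∀ l ≤ 3, ∀ x, (H x l).totalDegree ≤ D) {τ nτ l : ℝ} (hwτ : w ≤ τ) (hτ1 : τ ≤ 1)
    (hn : nτ ≤ n 2)
    (hpv : CH (Pool.Agent.H49.Ent.cond F.p A True) (paC F c 2 w n H)
      (fun ω => (vpC F c D w n H ω, F.W ω)) ≤ g)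
    (hc : CH (Pool.Agent.H49.Ent.cond F.p A True) (hgC F c w H 2 nτ)
      (fun ω => (paC F c 2 w n H ω, (cR F A τ ω, F.W ω))) ≤ g)
    (hl : l ≤ CH (Pool.Agent.H49.Ent.cond F.p A True) (hgC F c w H 2 (n 2))
      (fun ω => (f1C F c D w n H ω, (vpC F c D w n H ω, (cR F A τ ω, F.W ω))))) :
    l - (2 * g + ((∑ j ∈ range (D + 2), cJ D j) + cD D)) ≤
      CH (Pool.Agent.H49.Ent.cond F.p A True) (hgC F c w H 2 (n 2))
        (fun ω => ((cR F A τ ω, F.W ω), x0 F A c D w n nτ H ω)) := by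
  have hq := isLaw_cond F.isLaw hA
  have h0 := hq.nonneg
  obtain ⟨C, hC⟩ : ∃ C, C = fun ω => (f1C F c D w n H ω, (vpC F c D w n H ω, (cR F A τ ω, F.W ω))) :=
    ⟨_, rfl⟩
  rw [← hC] at hl
  have e0 : ∀ ω ω', C ω = C ω' → f1C F c D w n H ω = f1C F c D w n H ω' ∧
      vpC F c D w n H ω = vpC F c D w n H ω' ∧ cR F A τ ω = cR F A τ ω' ∧ F.W ω = F.W ω' :=
    fun ω ω' e => by
      rw [hC] at e
      simp only [Prod.mk.injEq] at e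
      exact e
  have s1 := CH_le_add h0 (hgC F c w H 2 (n 2)) (pcC F c D w H 2 0 nτ) C
  have s2 : CH (Pool.Agent.H49.Ent.cond F.p A True) (hgC F c w H 2 (n 2))
      (fun ω => (pcC F c D w H 2 0 nτ ω, C ω)) ≤
      CH (Pool.Agent.H49.Ent.cond F.p A True) (hgC F c w H 2 (n 2))
        (fun ω => ((cR F A τ ω, F.W ω), x0 F A c D w n nτ H ω)) :=
    CH_mono_cond h0 fun ω ω' _ _ e => by
      obtain ⟨e1, e2⟩ := Prod.ext_iff.1 e
      obtain ⟨b1, b2, b3, b4⟩ := e0 ω ω' e2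
      have b5 : cR F A w ω = cR F A w ω' := rec_mono hwτ hτ1 b3
      have b6 : F.Z ω = F.Z ω' := (Prod.ext_iff.1 b4).2
      have e1' : pcC F c D w H 2 0 nτ ω = pcC F c D w H 2 0 nτ ω' := e1
      refine Prod.ext (Prod.ext b3 b4) ?_
      unfold x0
      unfold vpC at b2
      unfold f1C at b1
      show (((cR F A w ω, F.Z ω), ((fun l : Fin 2 => pcC F c D w H l 0 (n l) ω),
        (pcC F c D w H 2 1 (n 2) ω, pcC F c D w H 2 0 nτ ω))) : _) = _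
      rw [b5, b6, b1, e1']
      refine Prod.ext rfl (Prod.ext ?_ rfl)
      exact b2
  have s3 := CH_le_add h0 (pcC F c D w H 2 0 nτ) (hgC F c w H 2 nτ) C
  have s4 : CH (Pool.Agent.H49.Ent.cond F.p A True) (pcC F c D w H 2 0 nτ)
      (fun ω => (hgC F c w H 2 nτ ω, C ω)) ≤ (∑ j ∈ range (D + 2), cJ D j) + cD D := by
    refine na_pu hw0 hw1 hdeg hA hn _ fun ω ω' _ _ e => ?_
    obtain ⟨e1, e2⟩ := Prod.ext_iff.1 e
    obtain ⟨b1, b2, b3, b4⟩ := e0 ω ω' e2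
    exact ⟨(Prod.ext_iff.1 b4).1, e1, b1⟩
  have s5 := CH_le_add h0 (hgC F c w H 2 nτ) (paC F c 2 w n H) C
  have s6 : CH (Pool.Agent.H49.Ent.cond F.p A True) (paC F c 2 w n H) C ≤ g :=
    (CH_mono_cond h0 fun ω ω' _ _ e => by
      obtain ⟨b1, b2, b3, b4⟩ := e0 ω ω' e
      exact Prod.ext b2 b4).trans hpv
  have s7 : CH (Pool.Agent.H49.Ent.cond F.p A True) (hgC F c w H 2 nτ)
      (fun ω => (paC F c 2 w n H ω, C ω)) ≤ g := (CH_mono_cond h0 fun ω ω' _ _ e => by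
      obtain ⟨e1, e2⟩ := Prod.ext_iff.1 e
      obtain ⟨b1, b2, b3, b4⟩ := e0 ω ω' e2
      exact Prod.ext e1 (Prod.ext b3 b4)).trans hc
  linarith

/-- **The first order is free of the height**, orders `≥ 2` given. -/
theorem f1_E (hq : IsLaw q) {τ nτ l : ℝ} (hwτ : w ≤ τ) (hτ1 : τ ≤ 1) (hn : nτ ≤ n 2)
    (h : FwF F c D w n H K oB q (cR F A w) (cR F A τ) g)
    (hc : CH q (hgC F c w H 2 nτ) (fun ω => (paC F c 2 w n H ω, (cR F A τ ω, F.W ω))) ≤ g)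
    (hl : l ≤ CH q (hgC F c w H 2 (n 2))
      (fun ω => (f1C F c D w n H ω, (vpC F c D w n H ω, (cR F A τ ω, F.W ω))))) :
    CH q (f1C F c D w n H) (X0 F A c D w τ n H) ≤
      CH q (f1C F c D w n H)
        (fun ω => ((hgC F c w H 2 nτ ω, hgC F c w H 2 (n 2) ω), X0 F A c D w τ n H ω)) +
      ((n 2 - nτ) * J * Real.log 2 + 2 * Real.log 9 + 2 * g - l) := by
  have h0 := hq.nonneg
  have h1 := h.fr hq hc hn hn hl (Y := X0 F A c D w τ n H) (E := f1C F c D w n H) (g' := 0)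
    (fun ω ω' _ _ e => by
      unfold X0 at e
      simp only [Prod.mk.injEq] at e ⊢
      exact ⟨e.2.1, e.2.2.2, e.1.2⟩)
    (fun ω ω' _ _ e => by
      simp only [Prod.mk.injEq] at e
      obtain ⟨b1, b2, b3, b4⟩ := e
      unfold X0
      simp only [Prod.mk.injEq]
      exact ⟨⟨rec_mono hwτ hτ1 b3, b4⟩, b2, det_f2 F c D w n H ω ω' b1, b3⟩)
    (le_of_eq (CH_eq_zero h0 fun ω ω' _ _ e => (Prod.ext_iff.1 e).1))
  linarith

/-! ### The first order behind its natural digits -/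

theorem f2_up (hq : IsLaw q) (hqA : ∀ ω, 0 < q ω → A ω) (hw0 : 0 ≤ w) (hw1 : w ≤ 1)
    (hdeg : ∀ x, (H x 2).totalDegree ≤ D) {τ nτ y : ℝ} (hn : nτ - (τ - w) ≤ n 2)
    (hTm : ((J - ⌊w * J⌋₊ : ℕ) : ℝ) * Real.log 2 - y ≤ CH q F.T (slam F ⌊w * J⌋₊))
    (h : FwF F c D w n H K oB q (cR F A w) (cR F A w) g) {k : ℕ} (hk : k + 1 = K)
    {a1 b1 a2 b2 a3 b3 : ℝ} (L1 : LiE F c w n H oB q (cR F A w) 1 K (uN (n 2) w) a1 b1)
    (L2 : LiE F c w n H oB q (cR F A w) 2 k (uN (n 2) w) a2 b2)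
    (L3 : LiE F c w n H oB q (cR F A w) 1 K (mN (nτ - (τ - w)) (n 2) w) a3 b3) :
    CH q (f1C F c D w n H) (fun ω => ((cR F A w ω, F.Z ω), (vpC F c D w n H ω,
      (f2C F c D w n H ω, fbC F c w H τ nτ ω)))) ≤
      (b1 - a2) - (a3 - b2) + 4 * g + y + (cJ D 1 + ((∑ j ∈ range (D + 2), cJ D j) + cD D) +
        Real.log 9) := by
  have h0 := hq.nonneg
  obtain ⟨Y, hY⟩ : ∃ Y, Y = fun ω => ((cR F A w ω, F.Z ω), (vpC F c D w n H ω,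
      (f2C F c D w n H ω, fbC F c w H τ nτ ω))) := ⟨_, rfl⟩
  rw [← hY]
  have e0 : ∀ ω ω', Y ω = Y ω' → (cR F A w ω = cR F A w ω' ∧ F.Z ω = F.Z ω') ∧
      vpC F c D w n H ω = vpC F c D w n H ω' ∧ f2C F c D w n H ω = f2C F c D w n H ω' ∧
      fbC F c w H τ nτ ω = fbC F c w H τ nτ ω' := fun ω ω' e => by
    rw [hY] at e
    simp only [Prod.mk.injEq] at e
    exact e
  have s1 := Pool.D2N.CH_tm hq (e := f1C F c D w n H) (z := Y) hTm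
    (fun ω ω' _ _ e => T1_cR (e0 ω ω' e).1.1) (fun ω ω' a1 a2 e => by
      rw [hY]
      simp only [Prod.mk.injEq]
      refine ⟨pc_slam e, ⟨cR_slam (hqA ω a1) (hqA ω' a2) e, ?_⟩, vp_slam e, pc_slam e, fb_slam e⟩
      exact congrArg (fun s => s.2.1) e)
  obtain ⟨f, hf⟩ : ∃ f, f = jtC F c w H 2 1 (n 2) := ⟨_, rfl⟩
  obtain ⟨fb, hfb⟩ : ∃ fb, fb = jtC F c w H 2 1 (nτ - (τ - w)) := ⟨_, rfl⟩
  obtain ⟨C, hC⟩ : ∃ C, C = fun ω => (f2C F c D w n H ω, (vpC F c D w n H ω,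
    (cR F A w ω, F.W ω))) := ⟨_, rfl⟩
  have s2 := CH_le_add h0 (f1C F c D w n H) f (fun ω => (F.T ω, Y ω))
  have s3 : CH q (f1C F c D w n H) (fun ω => (f ω, (F.T ω, Y ω))) ≤
      (∑ j ∈ range (D + 2), cJ D j) + cD D := by
    refine pc_of_jt hw0 hw1 hdeg hq _ (fun ω ω' _ _ e => ?_) (g := fun j => cJ D j)
      (fun j h1 h2 => ?_) fun j => cJ_nonneg D j
    · simp only [Prod.mk.injEq] at e
      exact e.2.1
    · rcases Nat.lt_or_ge j 2 with h3 | h3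
      · obtain rfl : j = 1 := by omega
        rw [← hf]
        have t1 : CH q f (fun ω => (f ω, (F.T ω, Y ω))) = 0 :=
          CH_eq_zero h0 fun ω ω' _ _ e => (Prod.ext_iff.1 e).1
        rw [t1]
        exact cJ_nonneg D 1
      · refine jt_of_pc (F := F) (c := c) (D := D) (H := H) (l := 2) (j₀ := 2) (j := j)
          (s := n 2) (N := n 2) hw0 hw1 (le_refl _) hdeg h3 hq _ fun ω ω' _ _ e => ?_
        obtain ⟨e1, e2⟩ := Prod.ext_iff.1 e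
        obtain ⟨e3, e4⟩ := Prod.ext_iff.1 e2
        exact ⟨e3, (e0 ω ω' e4).2.2.1⟩
  have s4 := CH_le_add h0 f fb (fun ω => (F.T ω, Y ω))
  have s5 : CH q fb (fun ω => (F.T ω, Y ω)) ≤ cJ D 1 := by
    rw [hfb]
    refine fb_few (n := n) hw0 hw1 hdeg hq hn fun ω ω' _ _ e => ?_
    obtain ⟨e3, e4⟩ := Prod.ext_iff.1 e
    exact ⟨e3, (e0 ω ω' e4).2.2.1, (e0 ω ω' e4).2.2.2⟩
  have s6 : CH q f (fun ω => (fb ω, (F.T ω, Y ω))) ≤ CH q f (fun ω => (fb ω, C ω)) :=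
    CH_mono_cond h0 fun ω ω' _ _ e => by
      obtain ⟨e1, e2⟩ := Prod.ext_iff.1 e
      obtain ⟨e3, e4⟩ := Prod.ext_iff.1 e2
      obtain ⟨⟨b1, b2⟩, b3, b4, b5⟩ := e0 ω ω' e4
      rw [hC]
      simp only [Prod.mk.injEq]
      exact ⟨e1, b4, b3, b1, Prod.ext e3 b2⟩
  have u1 : CH q f C ≤ b1 - a2 + 2 * g := by
    rw [hf, hC]
    exact h.up1 h0 hk (by rw [mN_self]; exact L1) L2
  have u2 : a3 - b2 - 2 * g ≤ CH q fb C := by
    rw [hfb, hC]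
    exact h.lo1 h0 hk L3 L2
  have u3 : CH q fb f ≤ Real.log 9 := by
    have t1 := Pool.TWO28.ch_dig hq (fun ω => ojet F (c 2) 1 (H (slam F ⌊w * J⌋₊ ω) 2) ω) (J := J)
      (n := nτ - (τ - w) - ((1 : ℕ) : ℝ) * w) (n' := n 2 - ((1 : ℕ) : ℝ) * w) (γ := 0)
      (by linarith) le_rfl
    rw [zero_mul, zero_mul, zero_add] at t1
    rw [hfb, hf]
    exact t1
  have s7 := cut_up h0 f fb C C (fun _ _ _ _ e => e) u1 u2 u3
  linarith

/-- **The first order behind its natural digits is free of the record of a pair.** -/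
theorem f2_E (hq : IsLaw q) (hqA : ∀ ω, 0 < q ω → A ω) (hw0 : 0 ≤ w) (hw1 : w ≤ 1)
    (hdeg : ∀ x, (H x 2).totalDegree ≤ D) {t τ nt nτ y l : ℝ} (hwτ : w ≤ τ) (htτ : t ≤ τ)
    (hτ1 : τ ≤ 1) (hn : nτ ≤ n 2) (hnt : nt ≤ n 2)
    (hTm : ((J - ⌊w * J⌋₊ : ℕ) : ℝ) * Real.log 2 - y ≤ CH q F.T (slam F ⌊w * J⌋₊))
    (h : FwF F c D w n H K oB q (cR F A w) (cR F A w) g)
    (h' : FwF F c D w n H K oB q (cR F A w) (cR F A τ) g)
    (hc : CH q (hgC F c w H 2 nτ) (fun ω => (paC F c 2 w n H ω, (cR F A τ ω, F.W ω))) ≤ g)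
    (hl : l ≤ CH q (hgC F c w H 2 (n 2))
      (fun ω => (f1C F c D w n H ω, (vpC F c D w n H ω, (cR F A τ ω, F.W ω))))) {k : ℕ}
    (hk : k + 1 = K)
    {a1 b1 a2 b2 a3 b3 a4 b4 a5 b5 : ℝ}
    (L1 : LiE F c w n H oB q (cR F A w) 1 K (uN (n 2) w) a1 b1)
    (L2 : LiE F c w n H oB q (cR F A w) 2 k (uN (n 2) w) a2 b2)
    (L3 : LiE F c w n H oB q (cR F A w) 1 K (mN (nτ - (τ - w)) (n 2) w) a3 b3)
    (L4 : LiE F c w n H oB q (cR F A τ) 1 K (uN (n 2) w) a4 b4)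
    (L5 : LiE F c w n H oB q (cR F A τ) 2 k (uN (n 2) w) a5 b5) :
    CH q (f1C F c D w n H) (fun ω => ((cR F A w ω, F.Z ω), (vpC F c D w n H ω,
      (f2C F c D w n H ω, fbC F c w H τ nτ ω)))) ≤
      CH q (f1C F c D w n H) (rX F A c D w t τ n nt H) +
        ((b1 - a2) - (a3 - b2) - (a4 - b5) + ((n 2 - nτ) * J * Real.log 2 - l) + 8 * g + y +
          (2 * cJ D 1 + ((∑ j ∈ range (D + 2), cJ D j) + cD D) + 3 * Real.log 9)) := by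
  have h0 := hq.nonneg
  have s1 := f2_up (τ := τ) (nτ := nτ) hq hqA hw0 hw1 hdeg (by linarith) hTm h hk L1 L2 L3
  obtain ⟨Y, hY⟩ : ∃ Y, Y = fun ω => (X0 F A c D w t n H ω, cR F A τ ω) := ⟨_, rfl⟩
  have e1 : ∀ ω ω', Y ω = Y ω' → ((cR F A w ω = cR F A w ω' ∧ F.W ω = F.W ω') ∧
      vpC F c D w n H ω = vpC F c D w n H ω' ∧ f2C F c D w n H ω = f2C F c D w n H ω' ∧
      cR F A t ω = cR F A t ω') ∧ cR F A τ ω = cR F A τ ω' := fun ω ω' e => by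
    rw [hY] at e
    unfold X0 at e
    simp only [Prod.mk.injEq] at e
    exact e
  have s2 := h'.fr hq hc hnt hn hl (Y := Y) (E := f1C F c D w n H) (g' := 0)
    (fun ω ω' _ _ e => by
      obtain ⟨⟨⟨b1, b2⟩, b3, b4, b5⟩, b6⟩ := e1 ω ω' e
      simp only [Prod.mk.injEq]
      exact ⟨b3, b6, b2⟩)
    (fun ω ω' _ _ e => by
      simp only [Prod.mk.injEq] at e
      obtain ⟨b1, b2, b3, b4⟩ := e
      rw [hY]
      unfold X0
      simp only [Prod.mk.injEq]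
      exact ⟨⟨⟨rec_mono hwτ hτ1 b3, b4⟩, b2, det_f2 F c D w n H ω ω' b1, rec_mono htτ hτ1 b3⟩, b3⟩)
    (le_of_eq (CH_eq_zero h0 fun ω ω' _ _ e => (Prod.ext_iff.1 e).1))
  have s3 : CH q (f1C F c D w n H) (fun ω => ((hgC F c w H 2 nt ω, hgC F c w H 2 (n 2) ω), Y ω)) ≤
      CH q (f1C F c D w n H) (rX F A c D w t τ n nt H) := CH_mono_cond h0 fun ω ω' _ _ e => by
    obtain ⟨e2, e3⟩ := Prod.ext_iff.1 e
    have e4 : X0 F A c D w t n H ω = X0 F A c D w t n H ω' ∧ cR F A τ ω = cR F A τ ω' := by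
      rw [hY] at e3
      exact Prod.ext_iff.1 e3
    unfold rX
    exact Prod.ext e4.1 (Prod.ext e2 e4.2)
  obtain ⟨C, hC⟩ : ∃ C, C = fun ω => (f2C F c D w n H ω, (vpC F c D w n H ω,
    (cR F A τ ω, F.W ω))) := ⟨_, rfl⟩
  have s4 : CH q (f1C F c D w n H) C ≤ CH q (f1C F c D w n H) Y :=
    CH_mono_cond h0 fun ω ω' _ _ e => by
      rw [hC] at e
      simp only [Prod.mk.injEq] at e
      obtain ⟨b1, b2, b3, b4⟩ := e
      rw [hY]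
      unfold X0
      simp only [Prod.mk.injEq]
      exact ⟨⟨⟨rec_mono hwτ hτ1 b3, b4⟩, b2, b1, rec_mono htτ hτ1 b3⟩, b3⟩
  have s5 := CH_le_add h0 (jtC F c w H 2 1 (n 2)) (f1C F c D w n H) C
  have s6 : CH q (jtC F c w H 2 1 (n 2)) (fun ω => (f1C F c D w n H ω, C ω)) ≤ cJ D 1 := by
    refine jt_of_pc (j₀ := 1) hw0 hw1 le_rfl hdeg le_rfl hq _ fun ω ω' _ _ e => ?_
    obtain ⟨e2, e3⟩ := Prod.ext_iff.1 e
    rw [hC] at e3
    simp only [Prod.mk.injEq] at e3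
    exact ⟨(Prod.ext_iff.1 e3.2.2.2).1, e2⟩
  have s7 : a4 - b5 - 2 * g ≤ CH q (jtC F c w H 2 1 (n 2)) C := by
    rw [hC]
    exact h'.lo1 h0 hk (by rw [mN_self]; exact L4) L5
  linarith

/-! ### All orders behind their natural digits -/

theorem j2_up (hq : IsLaw q) (hqA : ∀ ω, 0 < q ω → A ω) (hw0 : 0 ≤ w) (hw1 : w ≤ 1)
    (hdeg : ∀ x, (H x 2).totalDegree ≤ D) {τ nτ y s₀ : ℝ} (hwτ : w ≤ τ) (hn : nτ ≤ n 2)
    (hs : τ - w ≤ s₀) (hs1 : s₀ + w ≤ 1)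
    (hTm : ((J - ⌊w * J⌋₊ : ℕ) : ℝ) * Real.log 2 - y ≤ CH q F.T (slam F ⌊w * J⌋₊))
    (h : FwF F c D w n H K oB q (cR F A w) (cR F A w) g)
    {a1 b1 a2 b2 : ℝ} (L1 : LiE F c w n H oB q (cR F A w) 1 K (uN (n 2) w) a1 b1)
    (L2 : LiE F c w n H oB q (cR F A w) 1 K
      (fun i => uN (nτ - (i : ℝ) * (τ - w)) w i) a2 b2) :
    CH q (f1C F c D w n H) (fun ω => ((cR F A w ω, F.Z ω), (vpC F c D w n H ω,
      (tcd F w s₀ ω, jbC F c D w H (tct F w s₀) τ nτ ω)))) ≤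
      (b1 - a2) + CH q (qC F c 2 w H oB (fun i => uN (n 2) w (oB i)))
        (fun ω => (paC F c 2 w n H ω, (cR F A w ω, F.W ω))) + 4 * g + y +
        (2 * Real.log 5 + cL D 1 K + K * Real.log 9) := by
  have h0 := hq.nonneg
  have hJ0 : (0 : ℝ) ≤ J := Nat.cast_nonneg J
  have hs0 : 0 ≤ s₀ := by linarith
  have hwJ := floor_le hw1 J
  obtain ⟨Y, hY⟩ : ∃ Y, Y = fun ω => ((cR F A w ω, F.Z ω), (vpC F c D w n H ω,
      (tcd F w s₀ ω, jbC F c D w H (tct F w s₀) τ nτ ω))) := ⟨_, rfl⟩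
  rw [← hY]
  have e0 : ∀ ω ω', Y ω = Y ω' → (cR F A w ω = cR F A w ω' ∧ F.Z ω = F.Z ω') ∧
      vpC F c D w n H ω = vpC F c D w n H ω' ∧ tcd F w s₀ ω = tcd F w s₀ ω' ∧
      jbC F c D w H (tct F w s₀) τ nτ ω = jbC F c D w H (tct F w s₀) τ nτ ω' := fun ω ω' e => by
    rw [hY] at e
    simp only [Prod.mk.injEq] at e
    exact e
  have hxJ : s₀ * J ≤ ((J - ⌊w * J⌋₊ : ℕ) : ℝ) := by
    rw [Nat.cast_sub hwJ]
    have h1 := Nat.floor_le (mul_nonneg hw0 hJ0)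
    nlinarith
  have s1 := tm_drop hq (a := ⌊w * J⌋₊) (x := s₀ * J) (mul_nonneg hs0 hJ0) hxJ
    (e := f1C F c D w n H) (z := Y) hTm
    (fun ω ω' _ _ e => ⟨T1_cR (e0 ω ω' e).1.1, (e0 ω ω' e).2.2.1⟩) (fun ω ω' a1 a2 e => by
      obtain ⟨e1, e2⟩ := Prod.ext_iff.1 e
      have e1' : slam F ⌊w * J⌋₊ ω = slam F ⌊w * J⌋₊ ω' := e1
      rw [hY]
      simp only [Prod.mk.injEq]
      exact ⟨pc_slam e1', ⟨cR_slam (hqA ω a1) (hqA ω' a2) e1', congrArg (fun s => s.2.1) e1'⟩,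
        vp_slam e1', e2, jb_slam e1' e2⟩)
  have hD : Det q (fun ω => (F.T ω, Y ω)) (fun ω => (vpC F c D w n H ω, (cR F A w ω, F.W ω))) :=
    fun ω ω' _ _ e => by
      obtain ⟨e3, e4⟩ := Prod.ext_iff.1 e
      obtain ⟨⟨b1, b2⟩, b3, b4, b5⟩ := e0 ω ω' e4
      simp only [Prod.mk.injEq]
      exact ⟨b3, b1, Prod.ext e3 b2⟩
  have s2 := h.up_f1 h0 hD
  have hp : CH q (paC F c 2 w n H) (fun ω => (F.T ω, Y ω)) ≤ g := (CH_mono_cond h0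
    fun ω ω' a1 a2 e => by
      have e1 := hD ω ω' a1 a2 e
      simp only [Prod.mk.injEq] at e1 ⊢
      exact ⟨e1.1, e1.2.2⟩).trans h.pv
  have hL : CH q (ndC F c 2 w H 1 K (fun i => uN (nτ - (i : ℝ) * (τ - w)) w i))
      (fun ω => (F.T ω, Y ω)) ≤ cL D 1 K := by
    refine (Pool.KS3.CH_pi_le h0 (fun ω (i : Fin K) =>
      ndC F c 2 w H 1 K (fun i => uN (nτ - (i : ℝ) * (τ - w)) w i) ω i) _).trans ?_
    unfold cL
    rw [← Fin.sum_univ_eq_sum_range (fun i => cJ D (1 + i)) K]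
    refine Finset.sum_le_sum fun i _ => ?_
    exact jb_few (j := odv 1 i) hw0 hw1 hdeg hq hs (fun ω ω' _ _ e => by
      obtain ⟨e3, e4⟩ := Prod.ext_iff.1 e
      obtain ⟨-, -, b4, b5⟩ := e0 ω ω' e4
      exact ⟨e3, b4, b5⟩) (by unfold odv; omega)
  have s3 := cut_li hq (j := 1) (k := K) (N := uN (n 2) w)
    (N' := fun i => uN (nτ - (i : ℝ) * (τ - w)) w i) (fun i _ _ => by
      show uN (nτ - (i : ℝ) * (τ - w)) w i ≤ uN (n 2) w i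
      unfold uN
      have h1 : 0 ≤ (i : ℝ) * (τ - w) := mul_nonneg (Nat.cast_nonneg i) (by linarith)
      linarith) L1 L2 hp hL fun ω ω' a1 a2 e => by
        have e1 := hD ω ω' a1 a2 e
        simp only [Prod.mk.injEq] at e1 ⊢
        exact e1.2
  linarith

/-- **All orders behind their natural digits are free of the record of a general pair.** -/
theorem j2_E (hq : IsLaw q) (hqA : ∀ ω, 0 < q ω → A ω) (hw0 : 0 ≤ w) (hw1 : w ≤ 1)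
    (hdeg : ∀ x, (H x 2).totalDegree ≤ D) {t τ nt nτ y l s₀ : ℝ} (hwτ : w ≤ τ) (htτ : t ≤ τ)
    (hτ1 : τ ≤ 1) (hn : nτ ≤ n 2) (hnt : nt ≤ n 2) (hs : τ - w ≤ s₀) (hs1 : s₀ + w ≤ 1)
    (hTm : ((J - ⌊w * J⌋₊ : ℕ) : ℝ) * Real.log 2 - y ≤ CH q F.T (slam F ⌊w * J⌋₊))
    (h : FwF F c D w n H K oB q (cR F A w) (cR F A w) g)
    (h' : FwF F c D w n H K oB q (cR F A w) (cR F A τ) g)
    (hc : CH q (hgC F c w H 2 nτ) (fun ω => (paC F c 2 w n H ω, (cR F A τ ω, F.W ω))) ≤ g)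
    (hl : l ≤ CH q (hgC F c w H 2 (n 2))
      (fun ω => (f1C F c D w n H ω, (vpC F c D w n H ω, (cR F A τ ω, F.W ω)))))
    (hsk : CH q (qC F c 2 w H oB (fun i => uN (n 2) w (oB i)))
        (fun ω => (paC F c 2 w n H ω, (cR F A w ω, F.W ω))) ≤
      CH q (qC F c 2 w H oB (fun i => uN (n 2) w (oB i)))
        (fun ω => (paC F c 2 w n H ω, ((cR F A w ω, cR F A τ ω), F.W ω))) + g)
    {a1 b1 a2 b2 a3 b3 : ℝ}
    (L1 : LiE F c w n H oB q (cR F A w) 1 K (uN (n 2) w) a1 b1)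
    (L2 : LiE F c w n H oB q (cR F A w) 1 K (fun i => uN (nτ - (i : ℝ) * (τ - w)) w i) a2 b2)
    (L3 : LiE F c w n H oB q (cR F A τ) 1 K (uN (n 2) w) a3 b3) :
    CH q (f1C F c D w n H) (fun ω => ((cR F A w ω, F.Z ω), (vpC F c D w n H ω,
      (tcd F w s₀ ω, jbC F c D w H (tct F w s₀) τ nτ ω)))) ≤
      CH q (f1C F c D w n H) (rG F A c D w t τ n nt H) +
        ((b1 - a2) - a3 + ((n 2 - nτ) * J * Real.log 2 - l) + 10 * g + y +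
          (2 * Real.log 5 + cL D 1 K + (K + 2) * Real.log 9)) := by
  have h0 := hq.nonneg
  have s1 := j2_up (τ := τ) (nτ := nτ) hq hqA hw0 hw1 hdeg hwτ hn hs hs1 hTm h L1 L2
  obtain ⟨Y, hY⟩ : ∃ Y, Y = fun ω => (((cR F A w ω, F.W ω), (vpC F c D w n H ω, cR F A t ω)),
    cR F A τ ω) := ⟨_, rfl⟩
  have e1 : ∀ ω ω', Y ω = Y ω' → ((cR F A w ω = cR F A w ω' ∧ F.W ω = F.W ω') ∧
      vpC F c D w n H ω = vpC F c D w n H ω' ∧ cR F A t ω = cR F A t ω') ∧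
      cR F A τ ω = cR F A τ ω' := fun ω ω' e => by
    rw [hY] at e
    simp only [Prod.mk.injEq] at e
    exact e
  have s2 := h'.fr hq hc hnt hn hl (Y := Y) (E := f1C F c D w n H) (g' := 0)
    (fun ω ω' _ _ e => by
      obtain ⟨⟨⟨b1, b2⟩, b3, b5⟩, b6⟩ := e1 ω ω' e
      simp only [Prod.mk.injEq]
      exact ⟨b3, b6, b2⟩)
    (fun ω ω' _ _ e => by
      simp only [Prod.mk.injEq] at e
      obtain ⟨b1, b2, b3, b4⟩ := e
      rw [hY]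
      simp only [Prod.mk.injEq]
      exact ⟨⟨⟨rec_mono hwτ hτ1 b3, b4⟩, b2, rec_mono htτ hτ1 b3⟩, b3⟩)
    (le_of_eq (CH_eq_zero h0 fun ω ω' _ _ e => (Prod.ext_iff.1 e).1))
  have s3 : CH q (f1C F c D w n H) (fun ω => ((hgC F c w H 2 nt ω, hgC F c w H 2 (n 2) ω), Y ω)) ≤
      CH q (f1C F c D w n H) (rG F A c D w t τ n nt H) := CH_mono_cond h0 fun ω ω' _ _ e => by
    obtain ⟨e2, e3⟩ := Prod.ext_iff.1 e
    obtain ⟨⟨⟨b1, b2⟩, b3, b5⟩, b6⟩ := e1 ω ω' e3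
    unfold rG
    simp only [Prod.mk.injEq] at e2 ⊢
    exact ⟨⟨⟨b1, b2⟩, b3, b5⟩, e2, b6⟩
  have s4 : CH q (f1C F c D w n H) (fun ω => (vpC F c D w n H ω, (cR F A τ ω, F.W ω))) ≤
      CH q (f1C F c D w n H) Y := CH_mono_cond h0 fun ω ω' _ _ e => by
    simp only [Prod.mk.injEq] at e
    obtain ⟨b2, b3, b4⟩ := e
    rw [hY]
    simp only [Prod.mk.injEq]
    exact ⟨⟨⟨rec_mono hwτ hτ1 b3, b4⟩, b2, rec_mono htτ hτ1 b3⟩, b3⟩
  have s5 := h'.lo_f1 h0 L3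
  have s6 : CH q (qC F c 2 w H oB (fun i => uN (n 2) w (oB i)))
      (fun ω => (paC F c 2 w n H ω, ((cR F A w ω, cR F A τ ω), F.W ω))) ≤
      CH q (qC F c 2 w H oB (fun i => uN (n 2) w (oB i)))
        (fun ω => (paC F c 2 w n H ω, (cR F A τ ω, F.W ω))) := CH_mono_cond h0 fun ω ω' _ _ e => by
    simp only [Prod.mk.injEq] at e ⊢
    exact ⟨e.1, e.2.1.2, e.2.2⟩
  linarith

/-! ### The first order is alive -/

/-- **The first order behind its natural digits is alive** given the record of a pair. -/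
theorem al_E (hq : IsLaw q) (hw0 : 0 ≤ w) (hw1 : w ≤ 1)
    (hdeg : ∀ x, (H x 2).totalDegree ≤ D) {t τ nt nτ l β : ℝ} (hwτ : w ≤ τ) (htτ : t ≤ τ)
    (hτ1 : τ ≤ 1) (hn : nτ ≤ n 2) (hnt : nt ≤ n 2) (hβ : nτ - (τ - w) + β ≤ n 2)
    (h' : FwF F c D w n H K oB q (cR F A w) (cR F A τ) g)
    (hc : CH q (hgC F c w H 2 nτ) (fun ω => (paC F c 2 w n H ω, (cR F A τ ω, F.W ω))) ≤ g)
    (hl : l ≤ CH q (hgC F c w H 2 (n 2))
      (fun ω => (f1C F c D w n H ω, (vpC F c D w n H ω, (cR F A τ ω, F.W ω))))) {k : ℕ}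
    (hk : k + 1 = K)
    {a4 b4 a5 b5 : ℝ}
    (L4 : LiE F c w n H oB q (cR F A τ) 1 K (mN (nτ - (τ - w) + β) (n 2) w) a4 b4)
    (L5 : LiE F c w n H oB q (cR F A τ) 2 k (uN (n 2) w) a5 b5) :
    (a4 - b5) - ((n 2 - nτ) * J * Real.log 2 - l) - 4 * g - (cJ D 1 + 2 * Real.log 9) ≤
      CH q (fun ω => ⌊ojet F (c 2) 1 (H (slam F ⌊w * J⌋₊ ω) 2) ω / 2 ^ (-((nτ - τ + β) * J))⌋)
        (rX F A c D w t τ n nt H) := by
  have h0 := hq.nonneg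
  have hE : (fun ω => ⌊ojet F (c 2) 1 (H (slam F ⌊w * J⌋₊ ω) 2) ω / 2 ^ (-((nτ - τ + β) * J))⌋) =
      jtC F c w H 2 1 (nτ - (τ - w) + β) := by
    funext ω
    unfold jtC
    rw [Real.rpow_neg (by norm_num), div_inv_eq_mul, mul_comm]
    congr 3
    push_cast
    ring
  rw [hE]
  obtain ⟨Y, hY⟩ : ∃ Y, Y = fun ω => (X0 F A c D w t n H ω, cR F A τ ω) := ⟨_, rfl⟩
  have e1 : ∀ ω ω', Y ω = Y ω' → ((cR F A w ω = cR F A w ω' ∧ F.W ω = F.W ω') ∧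
      vpC F c D w n H ω = vpC F c D w n H ω' ∧ f2C F c D w n H ω = f2C F c D w n H ω' ∧
      cR F A t ω = cR F A t ω') ∧ cR F A τ ω = cR F A τ ω' := fun ω ω' e => by
    rw [hY] at e
    unfold X0 at e
    simp only [Prod.mk.injEq] at e
    exact e
  have s2 := h'.fr hq hc hnt hn hl (Y := Y) (E := jtC F c w H 2 1 (nτ - (τ - w) + β))
    (g' := cJ D 1)
    (fun ω ω' _ _ e => by
      obtain ⟨⟨⟨b1, b2⟩, b3, b4, b5⟩, b6⟩ := e1 ω ω' e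
      simp only [Prod.mk.injEq]
      exact ⟨b3, b6, b2⟩)
    (fun ω ω' _ _ e => by
      simp only [Prod.mk.injEq] at e
      obtain ⟨b1, b2, b3, b4⟩ := e
      rw [hY]
      unfold X0
      simp only [Prod.mk.injEq]
      exact ⟨⟨⟨rec_mono hwτ hτ1 b3, b4⟩, b2, det_f2 F c D w n H ω ω' b1, rec_mono htτ hτ1 b3⟩, b3⟩)
    (jt_of_pc (j₀ := 1) (s := n 2) hw0 hw1 hβ hdeg le_rfl hq _ fun ω ω' _ _ e => by
      obtain ⟨e2, e3⟩ := Prod.ext_iff.1 e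
      obtain ⟨⟨⟨b1, b2⟩, b3, b4, b5⟩, b6⟩ := e1 ω ω' e3
      exact ⟨(Prod.ext_iff.1 b2).1, e2⟩)
  have s3 : CH q (jtC F c w H 2 1 (nτ - (τ - w) + β))
      (fun ω => ((hgC F c w H 2 nt ω, hgC F c w H 2 (n 2) ω), Y ω)) ≤
      CH q (jtC F c w H 2 1 (nτ - (τ - w) + β)) (rX F A c D w t τ n nt H) :=
    CH_mono_cond h0 fun ω ω' _ _ e => by
    obtain ⟨e2, e3⟩ := Prod.ext_iff.1 e
    have e4 : X0 F A c D w t n H ω = X0 F A c D w t n H ω' ∧ cR F A τ ω = cR F A τ ω' := by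
      rw [hY] at e3
      exact Prod.ext_iff.1 e3
    unfold rX
    exact Prod.ext e4.1 (Prod.ext e2 e4.2)
  obtain ⟨C, hC⟩ : ∃ C, C = fun ω => (f2C F c D w n H ω, (vpC F c D w n H ω,
    (cR F A τ ω, F.W ω))) := ⟨_, rfl⟩
  have s4 : CH q (jtC F c w H 2 1 (nτ - (τ - w) + β)) C ≤
      CH q (jtC F c w H 2 1 (nτ - (τ - w) + β)) Y :=
    CH_mono_cond h0 fun ω ω' _ _ e => by
      rw [hC] at e
      simp only [Prod.mk.injEq] at e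
      obtain ⟨b1, b2, b3, b4⟩ := e
      rw [hY]
      unfold X0
      simp only [Prod.mk.injEq]
      exact ⟨⟨⟨rec_mono hwτ hτ1 b3, b4⟩, b2, b1, rec_mono htτ hτ1 b3⟩, b3⟩
  have s7 : a4 - b5 - 2 * g ≤ CH q (jtC F c w H 2 1 (nτ - (τ - w) + β)) C := by
    rw [hC]
    exact h'.lo1 h0 hk L4 L5
  linarith

end

end Pool.NA24
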