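import Pool.Agent.H24.NA3.Prc
import Pool.Agent.H24.NA3.Fie
import Pool.Agent.H42.NDC.Asm
import Pool.Agent.H42.NDC.Gle

/-!
# The numbers of the lists for all labels of a class

`NIn`: the window, the digits and the precisions of the labels. `NNum`: the numbers of the jets of
`c 2` over the labels of `w` (28's `RtJ`) between the windows of an interval. `li_cls`: the numbers
`LiE` for all labels, all lists of orders up to `K` with digits which are natural at increasing windows.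
`vp_cls`, `hd_cls`, `sk_cls`: the near path of all orders, the dead jets, the unseen jets.
-/

set_option autoImplicit false

namespace Pool.NA24

open Finset Real MvPolynomial
open Pool.Agent.H49.Ent Pool.Agent.H32.Dense Pool.STK Pool.KA Pool.KSAT Pool.K2S Pool.PB Pool.S6C
  Pool.GEN Pool.RCD Pool.LA91 Pool.LP30 Pool.LPJ30 Pool.RJ28 Pool.AVG96
open Pool.V0F
open Pool.NDC42 (hgC pcC jtC LbV BLb cJ cJ_nonneg cD cD_nonneg jt_of_pc pc_of_jt jtC_zero uw_P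
  uv_few lbv_P)
open Pool.NA36 (vpC f1C f2C)
open Pool.RK28 (SkD)

variable {m : ℕ}

/-- **The window, the digits and the precisions** of the labels. -/
structure NIn (S : PCl m) (c : ℕ → Fin m) (sn : ℕ → ℝ → ℝ) (G : Set ℝ) (b o φ w : ℝ)
    (n p : ℕ → ℝ) : Prop where
  L : Lad S c 2 sn G b o φ
  wG : w ∈ G
  bw : b ≤ w
  wo : w ≤ o
  nst : Nst 2 sn w φ n
  nat : ∀ i < 2, n i - sn i w + 3 * φ ≤ w - b
  pr : ∀ i ≤ 2, sn i w - φ ≤ p i
  at2 : ∃ rk, 0 ≤ rk ∧ Att S ((range 2).image c) (c 2) w (sn 2 w) rk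
  n2 : n 2 + 2 * φ ≤ sn 2 w + (1 - w)
  n2' : ∀ l < 2, n 2 - sn 2 w + 3 * φ ≤ n l - sn l w

/-- **The numbers of the jets** of `c 2` over the labels of `w`: the orders `j, …, K` have the rate
`ψ j`, errors `κ`, windows up to `Ω`; the natural digits of the orders up to `K` increase up to `δ`. -/
structure NNum (S : PCl m) (c : ℕ → Fin m) (sn : ℕ → ℝ → ℝ) (w Ω κ δ : ℝ) (n : ℕ → ℝ) (K : ℕ)
    {n' : ℕ} (oB : Fin n' → ℕ) (ψ : ℕ → ℝ) : Prop where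
  Ω1 : Ω ≤ 1
  δ0 : 0 ≤ δ
  ψ0 : ∀ j, K < j → ψ j = 0
  num : ∀ k j : ℕ, j + k = K + 1 → ∀ x o : ℝ, w ≤ x → x ≤ o → o ≤ Ω →
    RtJ S (fun _ F => F.W) c 2 (fun _ : Fin k => c 2) (fun i => odv j i) (fun _ => c 2) oB sn
      (fun _ w => sn 2 w) (fun _ w => sn 2 w) n (fun l => n l - w) (fun i => uN (n 2) w (oB i)) w x o
      (ψ j * (o - x)) κ
  mon : ∀ i ≤ K, ∀ u v : ℝ, w ≤ u → u ≤ v → v ≤ Ω →
    sn 2 u - (i : ℝ) * u ≤ sn 2 v - (i : ℝ) * v + δ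

section

variable {S : PCl m} {c : ℕ → Fin m} {sn : ℕ → ℝ → ℝ} {G : Set ℝ} {b o φ w Ω κ δ : ℝ}
  {n p : ℕ → ℝ} {K n' : ℕ} {oB : Fin n' → ℕ} {ψ : ℕ → ℝ}

theorem NIn.w0 (h : NIn S c sn G b o φ w n p) : 0 ≤ w := h.L.b0.trans h.bw

theorem NIn.w1 (h : NIn S c sn G b o φ w n p) : w ≤ 1 := h.wo.trans h.L.o1.le

/-- The exact near path exists. -/
theorem NIn.xP (h : NIn S c sn G b o φ w n p) :
    Exs S (paQ m c 2 w (fun l => sn l w) n (fun l => n l - w)) := by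
  obtain ⟨u₁, rd, hrd, hch⟩ := h.L.ch.ch w h.wG
  exact exs_qjets fun l l0 l1 j' _ => exs_jet (hrd l l1) (hch.att l l0 l1)

theorem NIn.xQ (h : NIn S c sn G b o φ w n p) (j k : ℕ) (N : ℕ → ℝ) :
    Exs S (ndR m c 2 (c 2) (sn 2) w j k N) := by
  obtain ⟨rk, h1, h2⟩ := h.at2
  exact exs_pi fun i => exs_jet h1 h2

theorem NIn.xB (h : NIn S c sn G b o φ w n p) (oB : Fin n' → ℕ) (nB : Fin n' → ℝ) :
    Exs S (jtR m c 2 (fun _ : Fin n' => c 2) oB (fun _ w => sn 2 w) w nB) := by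
  obtain ⟨rk, h1, h2⟩ := h.at2
  exact exs_pi fun i => exs_jet h1 h2

/-- Labels over a smaller accuracy. -/
theorem lbv_e {J : ℕ} {F : Fam m J} {A : F.Ω → Prop} {r D : ℕ} {e e' : ℝ}
    {H : LnT F → ℕ → MvPolynomial (Option (Fin m)) ℝ} (h : LbV F A c r D w e p H) (he : e ≤ e') :
    LbV F A c r D w e' p H := h.mono le_rfl le_rfl he

/-- **From numbers to labels**, from above. -/
theorem up_lv (h : NIn S c sn G b o φ w n p) (D : ℕ) {x ρ : ℝ} {j k : ℕ} {Nn : ℕ → ℝ}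
    (hu : UpG S (fun _ F => F.W) (paQ m c 2 w p n (fun l => n l - w)) x
      (ndR m c 2 (c 2) (fun _ => p 2) w j k Nn) ρ) :
    BLb S c 2 D w p (fun J F A H => CH (Pool.Agent.H49.Ent.cond F.p A True) (ndC F c 2 w H j k Nn)
      (fun ω => (paC F c 2 w n H ω, (cR F A x ω, F.W ω))) ≤ ρ * J) := by
  obtain ⟨k1, hk1, e1, he1, H1⟩ := hu
  obtain ⟨M₁, J₁, P1⟩ := paC_P (m := m) c 2 D h.w0 h.w1 n (sn := fun l _ => p l)
    (nH := n) (nV := fun l => n l - w) (fun _ _ => rfl) (fun _ _ => rfl)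
  obtain ⟨M₂, J₂, P2⟩ := ndC_P (m := m) c 2 D h.w0 h.w1 j k Nn (T := fun _ => p 2)
  refine ⟨e1, he1, Bas.mono (J₁ + J₂) ((H1 (M₁ + M₂)).and (pos_bas h.L.pos)) ?_⟩
  rintro J hJ F A ⟨H1, hA⟩ H hH
  exact H1 _ (cR F A x) (mx_cR hA x hk1.le) _ _
    (P2 (M₁ + M₂) (by omega) J (by omega) F A 2 e1 p H le_rfl rfl hH)
    (P1 (M₁ + M₂) (by omega) J (by omega) F A 2 e1 p H le_rfl (fun _ _ => rfl) hH)

/-- **From numbers to labels**, from below. -/
theorem lo_lv (h : NIn S c sn G b o φ w n p) (D : ℕ) {x ρ : ℝ} {j k : ℕ} {Nn : ℕ → ℝ}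
    (hu : LoG S (fun _ F => F.W) (paQ m c 2 w p n (fun l => n l - w))
      (jtR m c 2 (fun _ : Fin n' => c 2) oB (fun _ _ => p 2) w (fun i => uN (n 2) w (oB i))) x
      (ndR m c 2 (c 2) (fun _ => p 2) w j k Nn) ρ) :
    BLb S c 2 D w p (fun J F A H => ρ * J ≤ CH (Pool.Agent.H49.Ent.cond F.p A True)
      (ndC F c 2 w H j k Nn) (fun ω => ((paC F c 2 w n H ω,
        qC F c 2 w H oB (fun i => uN (n 2) w (oB i)) ω), (cR F A x ω, F.W ω)))) := by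
  obtain ⟨k1, hk1, e1, he1, H1⟩ := hu
  obtain ⟨M₁, J₁, P1⟩ := paC_P (m := m) c 2 D h.w0 h.w1 n (sn := fun l _ => p l)
    (nH := n) (nV := fun l => n l - w) (fun _ _ => rfl) (fun _ _ => rfl)
  obtain ⟨M₂, J₂, P2⟩ := ndC_P (m := m) c 2 D h.w0 h.w1 j k Nn (T := fun _ => p 2)
  obtain ⟨M₃, J₃, P3⟩ := qC_P (m := m) c 2 D h.w0 h.w1 oB (fun i => uN (n 2) w (oB i))
    (T := fun _ => p 2)
  refine ⟨e1, he1, Bas.mono (J₁ + J₂ + J₃) ((H1 (M₁ + M₂ + M₃)).and (pos_bas h.L.pos)) ?_⟩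
  rintro J hJ F A ⟨H1, hA⟩ H hH
  exact H1 _ (cR F A x) (mx_cR hA x hk1.le) _ _ _
    (P2 (M₁ + M₂ + M₃) (by omega) J (by omega) F A 2 e1 p H le_rfl rfl hH)
    (P3 (M₁ + M₂ + M₃) (by omega) J (by omega) F A 2 e1 p H le_rfl rfl hH)
    (P1 (M₁ + M₂ + M₃) (by omega) J (by omega) F A 2 e1 p H le_rfl (fun _ _ => rfl) hH)

/-- The near path over the exact labels and over those of precision `p`. -/
theorem NIn.fP (h : NIn S c sn G b o φ w n p) :
    Few S (fun J F => ptr F J) (vg w) (fun _ F => F.W)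
      (paQ m c 2 w (fun l => sn l w) n (fun l => n l - w)) (paQ m c 2 w p n (fun l => n l - w)) ∧
    Few S (fun J F => ptr F J) (vg w) (fun _ F => F.W)
      (paQ m c 2 w p n (fun l => n l - w))
      (paQ m c 2 w (fun l => sn l w) n (fun l => n l - w)) := by
  have hφ := h.L.φ0
  exact ⟨pa_pa h.L kn_W h.wG h.nst (fun i _ => by linarith) (fun i hi => h.pr i hi.le),
    pa_pa h.L kn_W h.wG h.nst (fun i hi => h.pr i hi.le) (fun i _ => by linarith)⟩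

/-- A list over the exact labels and over those of precision `p`. -/
theorem NIn.fL (h : NIn S c sn G b o φ w n p) {k' : ℕ} {od : Fin k' → ℕ} {N : Fin k' → ℝ}
    (hN : ∀ i, N i + (od i : ℝ) * w ≤ n 2) :
    Few S (fun J F => ptr F J) (vg w) (fun _ F => F.W)
      ((paQ m c 2 w (fun l => sn l w) n (fun l => n l - w)).prod
        (jtR m c 2 (fun _ => c 2) od (fun _ _ => sn 2 w) w N))
      (jtR m c 2 (fun _ => c 2) od (fun _ _ => p 2) w N) ∧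
    Few S (fun J F => ptr F J) (vg w) (fun _ F => F.W)
      ((paQ m c 2 w p n (fun l => n l - w)).prod
        (jtR m c 2 (fun _ => c 2) od (fun _ _ => p 2) w N))
      (jtR m c 2 (fun _ => c 2) od (fun _ _ => sn 2 w) w N) := by
  have hφ := h.L.φ0
  have h1 := h.pr 2 le_rfl
  have h2 := h.n2
  have h4 : sn 2 w - φ ≤ min (sn 2 w) (p 2) := le_min (by linarith) h1
  have h4' : sn 2 w - φ ≤ min (p 2) (sn 2 w) := le_min h1 (by linarith)
  constructor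
  · refine ls_ls h.L kn_W h.wG h.bw h.wo h.nst h.nat (fun i _ => by linarith) (fun i => ?_)
      fun i l hl => ?_
    · linarith [hN i]
    · linarith [hN i, h.n2' l hl]
  · refine ls_ls h.L kn_W h.wG h.bw h.wo h.nst h.nat (fun i hi => h.pr i hi.le) (fun i => ?_)
      fun i l hl => ?_
    · linarith [hN i]
    · linarith [hN i, h.n2' l hl]

/-- **The numbers of a list for all labels.** -/
theorem li_cls (h : NIn S c sn G b o φ w n p) (hN : NNum S c sn w Ω κ δ n K oB ψ) (D : ℕ) {x : ℝ}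
    (hwx : w ≤ x) (hx1 : x ≤ 1) {j k : ℕ} (hjk : j + k = K + 1) {ov : ℕ → ℝ}
    (hmon : ∀ i i', j ≤ i → i ≤ i' → i' < K + 1 → ov i ≤ ov i')
    (hΩ : ∀ i, j ≤ i → i < K + 1 → ov i ≤ Ω) (hxo : ∀ i, j ≤ i → i < K + 1 → x ≤ ov i)
    {Nn : ℕ → ℝ} {δ' ε : ℝ} (hδ' : 0 ≤ δ')
    (hd : ∀ i, j ≤ i → i < j + k → |sn 2 (ov i) - (i : ℝ) * ov i - Nn i| ≤ δ')
    (hNn : ∀ i, j ≤ i → i < j + k → Nn i + (i : ℝ) * w ≤ n 2) (hε : 0 < ε) :
    BLb S c 2 D w p (fun J F A H => LiE F c w n H oB (Pool.Agent.H49.Ent.cond F.p A True)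
      (cR F A x) j k Nn
      ((∑ i ∈ Finset.Ico j (K + 1), (ψ i - ψ (i + 1)) * (ov i - x) -
        (k * (2 * κ + k * δ) + k * δ' + ε)) * J)
      ((∑ i ∈ Finset.Ico j (K + 1), (ψ i - ψ (i + 1)) * (ov i - x) +
        (k * (2 * κ + k * δ) + k * δ' + ε)) * J)) := by
  obtain ⟨C₀, htm⟩ := h.L.tm
  have hε3 : 0 < ε / 3 := by positivity
  have hpos := h.L.pos
  obtain ⟨u1, l1⟩ := mx_num (y₀ := fun (_ : ℕ) (F : Fam m _) => F.W) (c := c) (d := 2) (sn := sn)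
    (k := c 2) (T := sn 2) (kB := fun _ => c 2) (oB := oB) (TB := fun _ w => sn 2 w) (nH := n)
    (nV := fun l => n l - w) (nB := fun i => uN (n 2) w (oB i)) (b := w) htm (h.xB oB _)
    (jt := K + 1) (j₀ := j) (φ := ψ) (κ := κ) (δ := δ) (Ω := Ω) hN.δ0 hN.Ω1
    (hN.ψ0 _ (by omega)) (fun k j h1 _ => hN.num k j h1)
    (fun i _ h2 => hN.mon i (by omega)) k j hjk le_rfl ov hmon hΩ x hwx hxo (ε / 3) hε3
  have u2 := UpQ.dig htm hδ' hε3 (N := fun i => sn 2 (ov i) - (i : ℝ) * ov i) (N' := Nn) u1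
    fun i h1 h2 => by have := abs_le.1 (hd i h1 h2); linarith [this.1]
  have l2 := LoQ.dig htm hδ' hε3 (N := fun i => sn 2 (ov i) - (i : ℝ) * ov i) (N' := Nn) l1
    fun i h1 h2 => by have := abs_le.1 (hd i h1 h2); linarith [this.2]
  have hNL : ∀ i : Fin k, Nn (odv j i) + ((odv j i : ℕ) : ℝ) * w ≤ n 2 := fun i =>
    hNn _ (by unfold odv; omega) (by unfold odv; have := i.2; omega)
  have hNB : ∀ i : Fin n', uN (n 2) w (oB i) + (oB i : ℝ) * w ≤ n 2 := fun i => by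
    unfold uN
    linarith
  have u3 := UpG.tr hpos hwx hx1 h.xP (h.xQ j k Nn) h.fP.2 (h.fL hNL).1 hε3 u2
  have l3 := LoG.tr hpos hwx hx1 h.xP (h.xQ j k Nn) (h.xB oB _) h.fP.1 (h.fL hNB).1 (h.fL hNL).2
    hε3 l2
  obtain ⟨e1, he1, H1⟩ := (up_lv h D u3).and (lo_lv h D l3)
  refine ⟨e1, he1, Bas.mono 0 H1 ?_⟩
  rintro J - F A H1 H hH
  obtain ⟨b1, b2⟩ := H1 H hH
  refine ⟨le_trans (le_of_eq ?_) b2, b1.trans (le_of_eq ?_)⟩
  · ring
  · ring

end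

end Pool.NA24
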