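import Pool.Agent.H24.NA3.Cls

/-!
# The few-bits relations for all labels of a class

`vp_cls`: the near path of all orders. `HdH`, `hd_cls`: the dead jets. `sk_cls`: the unseen jets.
`fw_cls`: the relations `FwF`.
-/

set_option autoImplicit false

namespace Pool.NA24

open Finset Real MvPolynomial
open Pool.Agent.H49.Ent Pool.Agent.H32.Dense Pool.STK Pool.KA Pool.KSAT Pool.K2S Pool.PB Pool.S6C
  Pool.GEN Pool.RCD Pool.LA91 Pool.LP30 Pool.LPJ30 Pool.RJ28 Pool.AVG96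
open Pool.V0F
open Pool.NDC42 (hgC pcC jtC LbV BLb cJ cJ_nonneg cD cD_nonneg jt_of_pc pc_of_jt jtC_zero uw_P
  uv_few lbv_P rec_mono)
open Pool.NA36 (vpC f1C f2C)
open Pool.RK28 (SkD)

variable {m : ℕ}

section

variable {S : PCl m} {c : ℕ → Fin m} {sn : ℕ → ℝ → ℝ} {G : Set ℝ} {b o φ w : ℝ}
  {n p : ℕ → ℝ} {K n' : ℕ} {oB : Fin n' → ℕ}

/-- Finitely many properties. -/
theorem blb_all {r D : ℕ} {Φ : ℕ → ∀ (J : ℕ) (F : Fam m J), (F.Ω → Prop) →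
    (LnT F → ℕ → MvPolynomial (Option (Fin m)) ℝ) → Prop} {C₀ : ℝ} (htm : TmC S C₀) (N : ℕ)
    (h : ∀ j < N, BLb S c r D w p (Φ j)) :
    BLb S c r D w p (fun J F A H => ∀ j < N, Φ j J F A H) := by
  induction N with
  | zero =>
    exact ⟨1, one_pos, Bas.mono 0 (Pool.GRW.tmc_bas htm one_pos)
      fun J _ F A _ H _ j hj => absurd hj (Nat.not_lt_zero j)⟩
  | succ N ih =>
    obtain ⟨e1, he1, H1⟩ := (ih fun j hj => h j (by omega)).and (h N (Nat.lt_succ_self N))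
    refine ⟨e1, he1, Bas.mono 0 H1 ?_⟩
    rintro J - F A H1 H hH j hj
    obtain ⟨b1, b2⟩ := H1 H hH
    rcases Nat.lt_or_ge j N with h1 | h1
    · exact b1 j h1
    · obtain rfl : j = N := by omega
      exact b2

/-- A property for large `J`. -/
theorem blb_J {r D : ℕ} {Φ Ψ : ∀ (J : ℕ) (F : Fam m J), (F.Ω → Prop) →
    (LnT F → ℕ → MvPolynomial (Option (Fin m)) ℝ) → Prop} (J₁ : ℕ) (h : BLb S c r D w p Φ)
    (hΨ : ∀ (J : ℕ), J₁ ≤ J → ∀ (F : Fam m J) (A : F.Ω → Prop)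
      (H : LnT F → ℕ → MvPolynomial (Option (Fin m)) ℝ) (e : ℝ), LbV F A c r D w e p H →
      Φ J F A H → Ψ J F A H) : BLb S c r D w p Ψ := by
  obtain ⟨e1, he1, H1⟩ := h
  exact ⟨e1, he1, Bas.mono J₁ H1 fun J hJ F A H1 H hH => hΨ J hJ F A H e1 hH (H1 H hH)⟩

/-- The events have positive probability. -/
theorem blb_pos {r D : ℕ} (hpos : ∀ (τ : ℝ) (J : ℕ) (F : Fam m J) (A : F.Ω → Prop), S.St τ J F A →
    0 < Pe F.p A) : BLb S c r D w p (fun _ F A _ => 0 < Pe F.p A) :=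
  BLb.of (pos_bas hpos)

/-- **The near path of all orders** from its orders at most one. -/
theorem vp_cls (h : NIn S c sn G b o φ w n p) (D : ℕ) {ε : ℝ} (hε : 0 < ε) :
    BLb S c 2 D w p (fun J F A H => CH (Pool.Agent.H49.Ent.cond F.p A True) (vpC F c D w n H)
      (fun ω => (paC F c 2 w n H ω, (cR F A w ω, F.W ω))) ≤ ε * J) := by
  have hf : ∀ (J : ℕ) (F : Fam m J), ∃ χ : PtT F → PtT F, ∀ ω, ptr F J ω = χ (ptr F J ω) :=
    fun J F => ⟨fun x => x, fun _ => rfl⟩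
  have h1 := Pool.NA28.jts_pa (f := fun J F => ptr F J) (y := fun _ F => F.W) h.L hf kn_W h.wG h.bw
    h.wo h.nst h.nat (fun i hi => h.pr i hi.le) (p' := p) (fun i hi => h.pr i hi.le) (D + 1)
  obtain ⟨k1, hk1, e1, he1, H1⟩ := few_mx h.L.pos le_rfl h.w1 h1 (half_pos hε)
  obtain ⟨M₁, J₁, P1⟩ := paC_P (m := m) c 2 D h.w0 h.w1 n (sn := fun l _ => p l)
    (nH := n) (nV := fun l => n l - w) (fun _ _ => rfl) (fun _ _ => rfl)
  obtain ⟨M₂, J₂, P2⟩ := uw_P c 2 D (D + 1) h.w0 h.w1 n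
  obtain ⟨J₃, hJ₃⟩ := exists_nat_ge (2 * cD D / (ε / 2))
  refine ⟨e1, he1, Bas.mono (J₁ + J₂ + J₃) ((H1 (M₁ + M₂)).and (pos_bas h.L.pos)) ?_⟩
  rintro J hJ F A ⟨H1, hA⟩ H hH
  have hcl := isLaw_cond F.isLaw hA
  have h0 := hcl.nonneg
  have hJr : (J₃ : ℝ) ≤ J := by exact_mod_cast (by omega : J₃ ≤ J)
  have hL : 2 * cD D ≤ ε / 2 * J := by
    have := hJ₃.trans hJr
    rw [div_le_iff₀ (half_pos hε)] at this
    linarith
  obtain ⟨u, hu⟩ : ∃ u : F.Ω → ℕ → ℕ → ℤ, u = fun ω (i j : ℕ) => if i < 2 ∧ j ≤ D + 1 then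
    jtC F c w H i j (n i) ω else 0 := ⟨_, rfl⟩
  have g1 := H1 _ (cR F A w) (mx_cR hA w hk1.le) _ u
    (P1 (M₁ + M₂) (by omega) J (by omega) F A 2 e1 p H le_rfl (fun _ _ => rfl) hH)
    (by
      rw [hu]
      exact P2 (M₁ + M₂) (by omega) J (by omega) F A 2 e1 p H (by norm_num) hH)
  obtain ⟨Y, hY⟩ : ∃ Y, Y = fun ω => (paC F c 2 w n H ω, (cR F A w ω, F.W ω)) := ⟨_, rfl⟩
  rw [← hY] at g1 ⊢
  have g2 := CH_le_add h0 (vpC F c D w n H) u Y
  have g3 : CH (Pool.Agent.H49.Ent.cond F.p A True) (vpC F c D w n H) (fun ω => (u ω, Y ω)) ≤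
      2 * cD D := by
    refine (Pool.OWN68.CH_pis h0 (fun ω (l : Fin 2) => pcC F c D w H l 0 (n l) ω) _).trans ?_
    have k1 : ∀ l : Fin 2, CH (Pool.Agent.H49.Ent.cond F.p A True)
        (fun ω => pcC F c D w H l 0 (n l) ω) (fun ω => (u ω, Y ω)) ≤ cD D := fun l => by
      have k2 := pc_of_jt (F := F) (c := c) (D := D) (w := w) (s := n l) (H := H) (l := (l : ℕ))
        (j₀ := 0) h.w0 h.w1 (fun x => hH.deg (by omega) x) hcl (fun ω => (u ω, Y ω))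
        (fun ω ω' _ _ e => by
          have e1 := (Prod.ext_iff.1 e).2
          rw [hY] at e1
          simp only [Prod.mk.injEq] at e1
          exact (Prod.ext_iff.1 e1.2.2).1) (g := fun _ => 0) (fun j h1 h2 => by
          refine le_of_eq (CH_eq_zero h0 fun ω ω' _ _ e => ?_)
          have e1 := congrFun (congrFun (Prod.ext_iff.1 e).1 (l : ℕ)) j
          rw [hu] at e1
          simp only [if_pos (⟨l.2, h2⟩ : (l : ℕ) < 2 ∧ j ≤ D + 1)] at e1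
          exact e1) (fun _ => le_rfl)
      rw [Finset.sum_const_zero, zero_add] at k2
      exact k2
    refine (Finset.sum_le_sum fun l _ => k1 l).trans (le_of_eq ?_)
    rw [Finset.sum_const, Finset.card_univ, Fintype.card_fin, nsmul_eq_mul]
    norm_num
  linarith

/-- **The dead orders**: a window `v ≤ w` at which `n 2 - j w` digits are natural; or the order is of
the second kind. -/
def HdH (S : PCl m) (c : ℕ → Fin m) (sn : ℕ → ℝ → ℝ) (φ w : ℝ) (n p : ℕ → ℝ) {n' : ℕ}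
    (oB : Fin n' → ℕ) (j : ℕ) : Prop :=
  (∃ i, oB i = j) ∨ ∃ v : ℝ, 0 ≤ v ∧ v ≤ w ∧
    (∃ rk, 0 ≤ rk ∧ Att S ((range 2).image c) (c 2) v (sn 2 v) rk) ∧
    n 2 - (j : ℝ) * w ≤ sn 2 v - (j : ℝ) * v ∧ n 2 + φ ≤ min (sn 2 v) (p 2) + (1 - w) ∧
    ∀ l < 2, n 2 + 2 * φ ≤ min (sn 2 v) (p 2) + (n l - sn l w)

/-- **The dead jets** are few bits. -/
theorem hd_cls (h : NIn S c sn G b o φ w n p) (D : ℕ)
    (hd : ∀ j, K < j → j ≤ D + 1 → HdH S c sn φ w n p oB j) {ε : ℝ} (hε : 0 < ε) :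
    BLb S c 2 D w p (fun J F A H => ∀ j < D + 2, K < j → (∃ i, oB i = j) ∨
      CH (Pool.Agent.H49.Ent.cond F.p A True) (jtC F c w H 2 j (n 2))
        (fun ω => (paC F c 2 w n H ω, (cR F A w ω, F.W ω))) ≤ ε * J) := by
  obtain ⟨C₀, htm⟩ := h.L.tm
  refine blb_all htm (D + 2) fun j hj => ?_
  rcases Nat.lt_or_ge K j with hKj | hKj
  · rcases hd j hKj (by omega) with h1 | ⟨v, v0, vw, hat, a1, a2, a3⟩
    · exact ⟨1, one_pos, Bas.mono 0 (pos_bas h.L.pos) fun J _ F A _ H _ _ => Or.inl h1⟩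
    · have hf : ∀ (J : ℕ) (F : Fam m J), ∃ χ : PtT F → PtT F, ∀ ω, ptr F J ω = χ (ptr F J ω) :=
        fun J F => ⟨fun x => x, fun _ => rfl⟩
      have eN : n 2 - (j : ℝ) * w + (j : ℝ) * w = n 2 := by ring
      have h1 := Pool.NA28.dead_hi (f := fun J F => ptr F J) (y := fun _ F => F.W) h.L hf kn_W
        (v := v) (w := w) (N := n 2 - (j : ℝ) * w) (pw := p 2) (n := n) (p := p) (k := c 2)
        (T := sn 2) (j := j) h.wG h.bw h.wo h.nst h.nat (fun i hi => h.pr i hi.le) v0 vw hat a1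
        (by rw [eN]; exact a2) (by rw [eN]; exact a3)
      obtain ⟨k1, hk1, e1, he1, H1⟩ := few_mx h.L.pos le_rfl h.w1 h1 hε
      obtain ⟨M₁, J₁, P1⟩ := paC_P (m := m) c 2 D h.w0 h.w1 n (sn := fun l _ => p l)
        (nH := n) (nV := fun l => n l - w) (fun _ _ => rfl) (fun _ _ => rfl)
      obtain ⟨M₂, J₂, P2⟩ := lbv_P m D j (N := n 2 - (j : ℝ) * w) h.w0 h.w1
      refine ⟨e1, he1, Bas.mono (J₁ + J₂) ((H1 (M₁ + M₂)).and (pos_bas h.L.pos)) ?_⟩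
      rintro J hJ F A ⟨H1, hA⟩ H hH _
      right
      exact H1 _ (cR F A w) (mx_cR hA w hk1.le) _ _
        (P1 (M₁ + M₂) (by omega) J (by omega) F A 2 e1 p H le_rfl (fun _ _ => rfl) hH)
        (P2 (M₁ + M₂) (by omega) J (by omega) F A c 2 e1 p H hH 2 le_rfl)
  · exact ⟨1, one_pos, Bas.mono 0 (pos_bas h.L.pos) fun J _ F A _ H _ h1 => absurd h1 (by omega)⟩

/-- **The unseen jets** for all labels. -/
theorem sk_cls (h : NIn S c sn G b o φ w n p) (D : ℕ) {τ κ ε : ℝ} (hwτ : w ≤ τ) (hτ1 : τ ≤ 1)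
    (hsk : SkD S (fun _ F => F.W) c 2 (fun _ => c 2) oB sn (fun _ w => sn 2 w) n
      (fun l => n l - w) (fun i => uN (n 2) w (oB i)) w w τ κ) (hε : 0 < ε) :
    BLb S c 2 D w p (fun J F A H => CH (Pool.Agent.H49.Ent.cond F.p A True)
      (qC F c 2 w H oB (fun i => uN (n 2) w (oB i)))
        (fun ω => (paC F c 2 w n H ω, (cR F A w ω, F.W ω))) ≤
      CH (Pool.Agent.H49.Ent.cond F.p A True) (qC F c 2 w H oB (fun i => uN (n 2) w (oB i)))
        (fun ω => (paC F c 2 w n H ω, ((cR F A w ω, cR F A τ ω), F.W ω))) + (κ + ε) * J) := by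
  have hNB : ∀ i : Fin n', uN (n 2) w (oB i) + (oB i : ℝ) * w ≤ n 2 := fun i => by
    unfold uN
    linarith
  have h1 : SkQ S (fun _ F => F.W) (paQ m c 2 w (fun l => sn l w) n (fun l => n l - w))
      (jtR m c 2 (fun _ : Fin n' => c 2) oB (fun _ w => sn 2 w) w (fun i => uN (n 2) w (oB i)))
      w τ κ := hsk
  have h2 := SkQ.tr h.L.pos le_rfl hwτ hτ1 h.xP (h.xB oB _) h.fP.1 h.fP.2 (h.fL hNB).1 (h.fL hNB).2
    hε h1
  obtain ⟨k1, hk1, e1, he1, H1⟩ := h2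
  obtain ⟨M₁, J₁, P1⟩ := paC_P (m := m) c 2 D h.w0 h.w1 n (sn := fun l _ => p l)
    (nH := n) (nV := fun l => n l - w) (fun _ _ => rfl) (fun _ _ => rfl)
  obtain ⟨M₃, J₃, P3⟩ := qC_P (m := m) c 2 D h.w0 h.w1 oB (fun i => uN (n 2) w (oB i))
    (T := fun _ => p 2)
  refine ⟨e1, he1, Bas.mono (J₁ + J₃) ((H1 (M₁ + M₃)).and (pos_bas h.L.pos)) ?_⟩
  rintro J hJ F A ⟨H1, hA⟩ H hH
  exact H1 _ (cR F A w) _ (cR F A τ) (mx_cR hA w hk1.le) (mx_cR hA τ hk1.le) _ _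
    (P3 (M₁ + M₃) (by omega) J (by omega) F A 2 e1 p H le_rfl rfl hH)
    (P1 (M₁ + M₃) (by omega) J (by omega) F A 2 e1 p H le_rfl (fun _ _ => rfl) hH)

/-- **The few-bits relations** for all labels. -/
theorem fw_cls (h : NIn S c sn G b o φ w n p) (D : ℕ) (hK : 1 ≤ K) (hoB : ∀ i, 2 ≤ oB i)
    (hd : ∀ j, K < j → j ≤ D + 1 → HdH S c sn φ w n p oB j) {τ ε : ℝ} (hwτ : w ≤ τ) (hτ1 : τ ≤ 1)
    (hε : 0 < ε) : BLb S c 2 D w p (fun J F A H => 0 < Pe F.p A ∧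
      FwF F c D w n H K oB (Pool.Agent.H49.Ent.cond F.p A True) (cR F A w) (cR F A τ) (ε * J)) := by
  have hD : (0 : ℝ) < D + 2 := by positivity
  obtain ⟨Cu, hCu, hu⟩ := uv_few D 2
  obtain ⟨J₁, hJ₁⟩ := exists_nat_ge ((Cu + (cD D + (cL D 1 K + ∑ i, cJ D (oB i)))) / (ε / 2))
  obtain ⟨J₂, hJ₂⟩ := exists_nat_ge (cL D 2 (K - 1) / (ε / 4))
  obtain ⟨J₃, hJ₃⟩ := exists_nat_ge ((∑ i, cJ D (oB i)) / (ε / 4))
  refine blb_J (J₁ + J₂ + J₃) (((vp_cls h D hε).and (hd_cls h D hd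
    (show 0 < ε / 2 / (D + 2) by positivity))).and (blb_pos h.L.pos)) ?_
  rintro J hJ F A H e hH ⟨⟨h1, h2⟩, hA⟩
  have hcl := isLaw_cond F.isLaw hA
  have h0 := hcl.nonneg
  have hJ0 : (0 : ℝ) ≤ J := Nat.cast_nonneg J
  have hs : 0 ≤ ∑ i, cJ D (oB i) := Finset.sum_nonneg fun i _ => cJ_nonneg D _
  have b1 : Cu + (cD D + (cL D 1 K + ∑ i, cJ D (oB i))) ≤ ε / 2 * J := by
    have h4 : (J₁ : ℝ) ≤ J := by exact_mod_cast (by omega : J₁ ≤ J)
    have := hJ₁.trans h4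
    rw [div_le_iff₀ (half_pos hε)] at this
    linarith
  have b2 : cL D 2 (K - 1) ≤ ε / 4 * J := by
    have h4 : (J₂ : ℝ) ≤ J := by exact_mod_cast (by omega : J₂ ≤ J)
    have := hJ₂.trans h4
    rw [div_le_iff₀ (by positivity)] at this
    linarith
  have b3 : ∑ i, cJ D (oB i) ≤ ε / 4 * J := by
    have h4 : (J₃ : ℝ) ≤ J := by exact_mod_cast (by omega : J₃ ≤ J)
    have := hJ₃.trans h4
    rw [div_le_iff₀ (by positivity)] at this
    linarith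
  have c1 := cD_nonneg D
  have c2 := cL_nonneg D 1 K
  have heJ : 0 ≤ ε * J := by positivity
  have hdeg : ∀ x, (H x 2).totalDegree ≤ D := fun x => hH.deg le_rfl x
  have hcd : ∀ {j₀ k : ℕ}, j₀ + k = K + 1 → CH (Pool.Agent.H49.Ent.cond F.p A True)
      (pcC F c D w H 2 j₀ (n 2)) (fun ω => (ndC F c 2 w H j₀ k (uN (n 2) w) ω,
      ((paC F c 2 w n H ω, qC F c 2 w H oB (fun i => uN (n 2) w (oB i)) ω),
        (cR F A w ω, F.W ω)))) ≤ ε * J := by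
    intro j₀ k hjk
    have hg : 0 ≤ ε / 2 / (D + 2) * J := by positivity
    have k1 := pc_of_nd (F := F) (c := c) (r := 2) (w := w) (H := H)
      (Y := fun ω => (ndC F c 2 w H j₀ k (uN (n 2) w) ω,
      ((paC F c 2 w n H ω, qC F c 2 w H oB (fun i => uN (n 2) w (oB i)) ω),
        (cR F A w ω, F.W ω)))) h.w0 h.w1 hdeg hcl (K := K) (j₀ := j₀) (n := k) (s := n 2) hjk
      (oB := oB) hg (fun ω ω' _ _ e => by
        simp only [Prod.mk.injEq] at e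
        exact (Prod.ext_iff.1 e.2.2.2).1) (fun ω ω' _ _ e => (Prod.ext_iff.1 e).1)
      (fun ω ω' _ _ e => by
        simp only [Prod.mk.injEq] at e
        exact e.2.1.2) (fun j hKj hj => by
        rcases h2 j (by omega) hKj with h3 | h3
        · exact Or.inl h3
        · right
          refine (CH_mono_cond h0 fun ω ω' _ _ e => ?_).trans h3
          simp only [Prod.mk.injEq] at e ⊢
          exact ⟨e.2.1.1, e.2.2⟩)
    refine k1.trans ?_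
    have e3 : ((D : ℝ) + 2) * (ε / 2 / (D + 2) * J) = ε / 2 * J := by
      field_simp
    rw [e3]
    linarith
  refine ⟨hA, ⟨fun ω ω' _ _ e => rec_mono hwτ hτ1 e, h1, ?_, hcd (by omega),
    fun k hk => hcd (by omega), ?_, ?_⟩⟩
  · refine (hu h.w0 h.w1 (n := n) (nf := n) (fun _ _ => le_rfl) (fun l hl x => hH.deg (by omega) x)
      hcl _ fun ω ω' _ _ e => ?_).trans (by linarith)
    obtain ⟨e1, e2⟩ := Prod.ext_iff.1 e
    refine ⟨(Prod.ext_iff.1 e2).1, fun l hl => ?_⟩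
    exact congrFun e1 ⟨l, hl⟩
  · have k1 := CH_subadd h0 (ndC F c 2 w H 1 K (uN (n 2) w))
      (qC F c 2 w H oB (fun i => uN (n 2) w (oB i))) (fun ω => (f1C F c D w n H ω, F.T ω))
    have k2 := nd_of_pc (F := F) (c := c) (r := 2) (w := w) (H := H) (j₀ := 1) (j := 1) (n := K)
      (s := n 2) (Y := fun ω => (f1C F c D w n H ω, F.T ω)) h.w0 h.w1 hdeg hcl le_rfl
      fun ω ω' _ _ e => ⟨(Prod.ext_iff.1 e).2, (Prod.ext_iff.1 e).1⟩
    have k3 := q_of_pc (F := F) (c := c) (r := 2) (w := w) (H := H) (j₀ := 1) (oB := oB)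
      (s := n 2) (Y := fun ω => (f1C F c D w n H ω, F.T ω)) h.w0 h.w1 hdeg hcl
      (fun i => le_trans (by norm_num) (hoB i))
      fun ω ω' _ _ e => ⟨(Prod.ext_iff.1 e).2, (Prod.ext_iff.1 e).1⟩
    linarith
  · intro k hk
    obtain rfl : k = K - 1 := by omega
    have k1 := CH_subadd h0 (ndC F c 2 w H 2 (K - 1) (uN (n 2) w))
      (qC F c 2 w H oB (fun i => uN (n 2) w (oB i))) (fun ω => (f2C F c D w n H ω, F.T ω))
    have k2 := nd_of_pc (F := F) (c := c) (r := 2) (w := w) (H := H) (j₀ := 2) (j := 2) (n := K - 1)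
      (s := n 2) (Y := fun ω => (f2C F c D w n H ω, F.T ω)) h.w0 h.w1 hdeg hcl le_rfl
      fun ω ω' _ _ e => ⟨(Prod.ext_iff.1 e).2, (Prod.ext_iff.1 e).1⟩
    have k3 := q_of_pc (F := F) (c := c) (r := 2) (w := w) (H := H) (j₀ := 2) (oB := oB)
      (s := n 2) (Y := fun ω => (f2C F c D w n H ω, F.T ω)) h.w0 h.w1 hdeg hcl hoB
      fun ω ω' _ _ e => ⟨(Prod.ext_iff.1 e).2, (Prod.ext_iff.1 e).1⟩
    linarith

end

end Pool.NA24
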