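import Pool.Agent.H24.NA3.Cls2
import Pool.Agent.H45.RPL.Hyp
import Pool.Agent.H45.EXA.ExvB

/-!
# The fields `fu`, `f1`, `f2`, `j2`, `al` for all labels of a class

`NWin`: the windows and the digits. `na3_cls`: the fields, for all labels of small accuracy.
-/

set_option autoImplicit false

namespace Pool.NA24

open Finset Real MvPolynomial
open Pool.Agent.H49.Ent Pool.Agent.H32.Dense Pool.STK Pool.KA Pool.KSAT Pool.K2S Pool.PB Pool.S6C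
  Pool.GEN Pool.RCD Pool.LA91 Pool.LP30 Pool.LPJ30 Pool.RJ28 Pool.AVG96
open Pool.V0F
open Pool.NDC42 (hgC pcC x0 jtC LbV BLb cJ cJ_nonneg cD cD_nonneg jt_of_pc pc_of_jt jtC_zero rec_det
  rec_mono)
open Pool.NA36 (vpC f1C f2C fbC jbC tcd tct X0 rX rG na_tm)
open Pool.RK28 (SkD)
open Pool.BFL (Pb)

variable {m : ℕ}

/-- **The windows and the digits**: `ov i` the window at which the digits of the order `i` are natural,
`τb` the window of the alive digits. -/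
structure NWin (sn : ℕ → ℝ → ℝ) (w Ω δ : ℝ) (n : ℕ → ℝ) (K : ℕ) (ψ : ℕ → ℝ)
    (t τ nt nτ s₀ β e0 : ℝ) (ov : ℕ → ℝ) (τb : ℝ) : Prop where
  wτ : w ≤ τ
  tτ : t ≤ τ
  τΩ : τ ≤ Ω
  ov0 : τ ≤ ov 0
  ovm : ∀ i i', i ≤ i' → i' ≤ K → ov i ≤ ov i'
  ovΩ : ∀ i ≤ K, ov i ≤ Ω
  ovd : ∀ i ≤ K, |sn 2 (ov i) - (i : ℝ) * ov i - uN (n 2) w i| ≤ δ
  nτd : |sn 2 τ - nτ| ≤ δ
  nn : nτ ≤ n 2
  nt : nt ≤ n 2
  s0 : τ - w ≤ s₀
  s1 : s₀ + w ≤ 1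
  e00 : 0 ≤ e0
  fl : (n 2 - nτ) * Real.log 2 ≤ (ψ 0 - ψ 1) * (ov 0 - τ) + e0
  τb0 : τ ≤ τb
  τb1 : τb ≤ ov 1
  bd : |sn 2 τb - τb - (nτ - τ + β)| ≤ δ
  bn : nτ - (τ - w) + β ≤ n 2

/-- The error of the numbers. -/
noncomputable def eN (K : ℕ) (κ δ : ℝ) : ℝ := (K + 1) * (2 * κ + (K + 2) * δ)

theorem eN_le {K k : ℕ} {κ δ : ℝ} (hκ : 0 ≤ κ) (hδ : 0 ≤ δ) (hk : k ≤ K + 1) :
    (k : ℝ) * (2 * κ + k * δ) + k * δ ≤ eN K κ δ := by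
  unfold eN
  have h1 : (k : ℝ) ≤ K + 1 := by exact_mod_cast hk
  have h0 : (0 : ℝ) ≤ k := Nat.cast_nonneg k
  have e1 : (k : ℝ) * (2 * κ + k * δ) + k * δ = k * (2 * κ + (k + 1) * δ) := by ring
  rw [e1]
  refine mul_le_mul h1 ?_ (by positivity) (by positivity)
  have h2 : ((k : ℝ) + 1) * δ ≤ (K + 2) * δ := mul_le_mul_of_nonneg_right (by linarith) hδ
  linarith

theorem LiE.mono {J : ℕ} {F : Fam m J} {c : ℕ → Fin m} {w : ℝ} {n : ℕ → ℝ}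
    {H : LnT F → ℕ → MvPolynomial (Option (Fin m)) ℝ} {n' : ℕ} {oB : Fin n' → ℕ}
    {q : F.Ω → ℝ} {V : Type} {z : F.Ω → V} {j k : ℕ} {N : ℕ → ℝ} {a b a' b' : ℝ}
    (h : LiE F c w n H oB q z j k N a b) (ha : a' ≤ a) (hb : b ≤ b') :
    LiE F c w n H oB q z j k N a' b' := ⟨ha.trans h.lo, h.up.trans hb⟩

section

variable {S : PCl m} {c : ℕ → Fin m} {sn : ℕ → ℝ → ℝ} {G : Set ℝ} {b o φ w Ω κ δ : ℝ}
  {n p : ℕ → ℝ} {K n' : ℕ} {oB : Fin n' → ℕ} {ψ : ℕ → ℝ}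
  {t τ nt nτ s₀ β e0 : ℝ} {ov : ℕ → ℝ} {τb : ℝ}

/-- **The numbers of a list for all labels**, one error. -/
theorem li_one (h : NIn S c sn G b o φ w n p) (hN : NNum S c sn w Ω κ δ n K oB ψ) (hκ : 0 ≤ κ)
    (D : ℕ) {x : ℝ} (hwx : w ≤ x) (hx1 : x ≤ 1) {j k : ℕ} (hjk : j + k = K + 1) {ov : ℕ → ℝ}
    (hmon : ∀ i i', j ≤ i → i ≤ i' → i' < K + 1 → ov i ≤ ov i')
    (hΩ : ∀ i, j ≤ i → i < K + 1 → ov i ≤ Ω) (hxo : ∀ i, j ≤ i → i < K + 1 → x ≤ ov i)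
    {Nn : ℕ → ℝ} {ε Sm : ℝ} (hε : 0 < ε)
    (hd : ∀ i, j ≤ i → i < j + k → |sn 2 (ov i) - (i : ℝ) * ov i - Nn i| ≤ δ)
    (hNn : ∀ i, j ≤ i → i < j + k → Nn i + (i : ℝ) * w ≤ n 2)
    (hS : ∑ i ∈ Finset.Ico j (K + 1), (ψ i - ψ (i + 1)) * (ov i - x) = Sm) :
    BLb S c 2 D w p (fun J F A H => LiE F c w n H oB (Pool.Agent.H49.Ent.cond F.p A True)
      (cR F A x) j k Nn ((Sm - (eN K κ δ + ε)) * J) ((Sm + (eN K κ δ + ε)) * J)) := by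
  obtain ⟨e1, he1, H1⟩ := li_cls h hN D hwx hx1 hjk hmon hΩ hxo hN.δ0 hd hNn hε
  have h1 := eN_le (K := K) (k := k) hκ hN.δ0 (by omega)
  refine ⟨e1, he1, Bas.mono 0 H1 ?_⟩
  rintro J - F A H1 H hH
  have hJ0 : (0 : ℝ) ≤ J := Nat.cast_nonneg J
  rw [hS] at H1
  refine (H1 H hH).mono ?_ ?_
  · exact mul_le_mul_of_nonneg_right (by linarith) hJ0
  · exact mul_le_mul_of_nonneg_right (by linarith) hJ0

/-- **The numbers of all lists in use.** -/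
structure Lis {J : ℕ} (F : Fam m J) (A : F.Ω → Prop) (c : ℕ → Fin m) (w : ℝ) (n : ℕ → ℝ)
    (H : LnT F → ℕ → MvPolynomial (Option (Fin m)) ℝ) {n' : ℕ} (oB : Fin n' → ℕ) (K : ℕ)
    (ψ : ℕ → ℝ) (ov : ℕ → ℝ) (τ nτ β τb E : ℝ) (Sw Sv : ℝ) : Prop where
  l1 : LiE F c w n H oB (Pool.Agent.H49.Ent.cond F.p A True) (cR F A w) 1 K (uN (n 2) w)
    (((ψ 1 - ψ 2) * (ov 1 - w) + Sw - E) * J) (((ψ 1 - ψ 2) * (ov 1 - w) + Sw + E) * J)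
  l2 : LiE F c w n H oB (Pool.Agent.H49.Ent.cond F.p A True) (cR F A w) 2 (K - 1) (uN (n 2) w)
    ((Sw - E) * J) ((Sw + E) * J)
  l3 : LiE F c w n H oB (Pool.Agent.H49.Ent.cond F.p A True) (cR F A w) 1 K
    (mN (nτ - (τ - w)) (n 2) w) (((ψ 1 - ψ 2) * (τ - w) + Sw - E) * J)
    (((ψ 1 - ψ 2) * (τ - w) + Sw + E) * J)
  l4 : LiE F c w n H oB (Pool.Agent.H49.Ent.cond F.p A True) (cR F A τ) 1 K (uN (n 2) w)
    (((ψ 1 - ψ 2) * (ov 1 - τ) + Sv - E) * J) (((ψ 1 - ψ 2) * (ov 1 - τ) + Sv + E) * J)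
  l5 : LiE F c w n H oB (Pool.Agent.H49.Ent.cond F.p A True) (cR F A τ) 2 (K - 1) (uN (n 2) w)
    ((Sv - E) * J) ((Sv + E) * J)
  l6 : LiE F c w n H oB (Pool.Agent.H49.Ent.cond F.p A True) (cR F A w) 1 K
    (fun i => uN (nτ - (i : ℝ) * (τ - w)) w i) ((ψ 1 * (τ - w) - E) * J)
    ((ψ 1 * (τ - w) + E) * J)
  l7 : LiE F c w n H oB (Pool.Agent.H49.Ent.cond F.p A True) (cR F A τ) 0 (K + 1) (uN (n 2) w)
    (((ψ 0 - ψ 1) * (ov 0 - τ) + ((ψ 1 - ψ 2) * (ov 1 - τ) + Sv) - E) * J)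
    (((ψ 0 - ψ 1) * (ov 0 - τ) + ((ψ 1 - ψ 2) * (ov 1 - τ) + Sv) + E) * J)
  l8 : LiE F c w n H oB (Pool.Agent.H49.Ent.cond F.p A True) (cR F A τ) 0 (K + 1)
    (fun i => uN (nτ - (i : ℝ) * (τ - w)) w i) ((0 - E) * J) ((0 + E) * J)
  l9 : LiE F c w n H oB (Pool.Agent.H49.Ent.cond F.p A True) (cR F A τ) 1 K
    (mN (nτ - (τ - w) + β) (n 2) w) (((ψ 1 - ψ 2) * (τb - τ) + Sv - E) * J)
    (((ψ 1 - ψ 2) * (τb - τ) + Sv + E) * J)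

theorem lis_cls (h : NIn S c sn G b o φ w n p) (hN : NNum S c sn w Ω κ δ n K oB ψ) (hκ : 0 ≤ κ)
    (D : ℕ) (hK : 1 ≤ K) (hW : NWin sn w Ω δ n K ψ t τ nt nτ s₀ β e0 ov τb) {ε : ℝ} (hε : 0 < ε) :
    ∃ Sw Sv : ℝ, Sv = Sw - ψ 2 * (τ - w) ∧ BLb S c 2 D w p (fun J F A H =>
      Lis F A c w n H oB K ψ ov τ nτ β τb (eN K κ δ + ε) Sw Sv) := by
  have hψK := hN.ψ0 (K + 1) (by omega)
  have hτ1 : τ ≤ 1 := hW.τΩ.trans hN.Ω1
  have hwτ := hW.wτ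
  have hovτ : ∀ i ≤ K, τ ≤ ov i := fun i hi => hW.ov0.trans (hW.ovm 0 i (Nat.zero_le _) hi)
  have hovb : ∀ i, 1 ≤ i → i ≤ K → τb ≤ ov i := fun i h1 hi => hW.τb1.trans (hW.ovm 1 i h1 hi)
  obtain ⟨Sw, hSw⟩ : ∃ s, s = ∑ i ∈ Finset.Ico 2 (K + 1), (ψ i - ψ (i + 1)) * (ov i - w) := ⟨_, rfl⟩
  obtain ⟨Sv, hSv⟩ : ∃ s, s = ∑ i ∈ Finset.Ico 2 (K + 1), (ψ i - ψ (i + 1)) * (ov i - τ) := ⟨_, rfl⟩
  have hSS : Sv = Sw - ψ 2 * (τ - w) := by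
    rw [hSv, hSw]
    exact tel_sh (by omega) w τ hψK
  have s1 : ∀ (x y : ℝ) (ov' : ℕ → ℝ), ov' 1 = y → (∀ i, 2 ≤ i → ov' i = ov i) →
      ∑ i ∈ Finset.Ico 1 (K + 1), (ψ i - ψ (i + 1)) * (ov' i - x) = (ψ 1 - ψ 2) * (y - x) +
        ∑ i ∈ Finset.Ico 2 (K + 1), (ψ i - ψ (i + 1)) * (ov i - x) := by
    intro x y ov' h1 h2
    rw [Finset.sum_eq_sum_Ico_succ_bot (by omega : 1 < K + 1), h1]
    congr 1
    refine Finset.sum_congr rfl fun i hi => ?_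
    rw [h2 i (Finset.mem_Ico.1 hi).1]
  have s0 : ∑ i ∈ Finset.Ico 0 (K + 1), (ψ i - ψ (i + 1)) * (ov i - τ) =
      (ψ 0 - ψ 1) * (ov 0 - τ) + ((ψ 1 - ψ 2) * (ov 1 - τ) + Sv) := by
    rw [Finset.sum_eq_sum_Ico_succ_bot (by omega : 0 < K + 1), s1 τ (ov 1) ov rfl fun _ _ => rfl,
      ← hSv]
  have s6 : ∑ i ∈ Finset.Ico 1 (K + 1), (ψ i - ψ (i + 1)) * (τ - w) = ψ 1 * (τ - w) := by
    rw [← Finset.sum_mul, tel (by omega), hψK, sub_zero]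
  have s8 : ∑ i ∈ Finset.Ico 0 (K + 1), (ψ i - ψ (i + 1)) * (τ - τ) = 0 := by simp
  have hu : ∀ i : ℕ, uN (n 2) w i + (i : ℝ) * w ≤ n 2 := fun i => by
    unfold uN
    linarith
  have hna : ∀ i : ℕ, uN (nτ - (i : ℝ) * (τ - w)) w i + (i : ℝ) * w ≤ n 2 := fun i => by
    unfold uN
    have h1 : 0 ≤ (i : ℝ) * (τ - w) := mul_nonneg (Nat.cast_nonneg i) (by linarith)
    linarith [hW.nn]
  have hnd : ∀ i : ℕ, |sn 2 τ - (i : ℝ) * τ - uN (nτ - (i : ℝ) * (τ - w)) w i| ≤ δ := fun i => by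
    have e1 : sn 2 τ - (i : ℝ) * τ - uN (nτ - (i : ℝ) * (τ - w)) w i = sn 2 τ - nτ := by
      unfold uN
      ring
    rw [e1]
    exact hW.nτd
  have hmd : ∀ (s y : ℝ), |sn 2 y - y - (s - w)| ≤ δ → ∀ i, 1 ≤ i → i < 1 + K →
      |sn 2 (if i ≤ 1 then y else ov i) - (i : ℝ) * (if i ≤ 1 then y else ov i) -
        mN s (n 2) w i| ≤ δ := fun s y hy i h1 h2 => by
    unfold mN
    by_cases hi : i ≤ 1
    · obtain rfl : i = 1 := by omega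
      rw [if_pos le_rfl, if_pos le_rfl]
      unfold uN
      rw [Nat.cast_one, one_mul, one_mul]
      exact hy
    · rw [if_neg hi, if_neg hi]
      exact hW.ovd i (by omega)
  have hmN : ∀ (s : ℝ), s ≤ n 2 → ∀ i : ℕ, mN s (n 2) w i + (i : ℝ) * w ≤ n 2 := fun s hs i => by
    unfold mN uN
    by_cases hi : i ≤ 1
    · rw [if_pos hi]
      linarith
    · rw [if_neg hi]
      linarith
  have hmm : ∀ y : ℝ, (∀ i, 1 ≤ i → i ≤ K → y ≤ ov i) → ∀ i i', 1 ≤ i → i ≤ i' → i' < K + 1 →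
      (if i ≤ 1 then y else ov i) ≤ if i' ≤ 1 then y else ov i' := fun y hy i i' h1 h2 h3 => by
    by_cases hi' : i' ≤ 1
    · rw [if_pos hi', if_pos (h2.trans hi')]
    · rw [if_neg hi']
      by_cases hi : i ≤ 1
      · rw [if_pos hi]
        exact hy i' (by omega) (by omega)
      · rw [if_neg hi]
        exact hW.ovm i i' h2 (by omega)
  have hmx : ∀ (y z : ℝ), (∀ i ≤ K, z ≤ ov i) → z ≤ y → ∀ i, 1 ≤ i → i < K + 1 →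
      z ≤ if i ≤ 1 then y else ov i := fun y z h1 h2 i h3 h4 => by
    by_cases hi : i ≤ 1
    · rw [if_pos hi]
      exact h2
    · rw [if_neg hi]
      exact h1 i (by omega)
  have hmΩ : ∀ (y : ℝ), y ≤ Ω → ∀ i, 1 ≤ i → i < K + 1 → (if i ≤ 1 then y else ov i) ≤ Ω :=
    fun y h1 i h3 h4 => by
    by_cases hi : i ≤ 1
    · rw [if_pos hi]
      exact h1
    · rw [if_neg hi]
      exact hW.ovΩ i (by omega)
  have hovw : ∀ i ≤ K, w ≤ ov i := fun i hi => hwτ.trans (hovτ i hi)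
  have m1 := li_one h hN hκ D le_rfl h.w1 (j := 1) (k := K) (by omega) (ov := ov)
    (fun i i' _ h2 h3 => hW.ovm i i' h2 (by omega)) (fun i _ h2 => hW.ovΩ i (by omega))
    (fun i _ h2 => hovw i (by omega)) (Nn := uN (n 2) w) hε (fun i _ h2 => hW.ovd i (by omega))
    (fun i _ _ => hu i) (by rw [s1 w (ov 1) ov rfl fun _ _ => rfl, ← hSw])
  have m2 := li_one h hN hκ D le_rfl h.w1 (j := 2) (k := K - 1) (by omega) (ov := ov)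
    (fun i i' _ h2 h3 => hW.ovm i i' h2 (by omega)) (fun i _ h2 => hW.ovΩ i (by omega))
    (fun i _ h2 => hovw i (by omega)) (Nn := uN (n 2) w) hε (fun i _ h2 => hW.ovd i (by omega))
    (fun i _ _ => hu i) hSw.symm
  have m3 := li_one h hN hκ D le_rfl h.w1 (j := 1) (k := K) (by omega)
    (ov := fun i => if i ≤ 1 then τ else ov i) (hmm τ fun i _ hi => hovτ i hi) (hmΩ τ hW.τΩ)
    (hmx τ w hovw hwτ) (Nn := mN (nτ - (τ - w)) (n 2) w) (Sm := (ψ 1 - ψ 2) * (τ - w) + Sw) hε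
    (hmd _ τ (by
      have e1 : sn 2 τ - τ - (nτ - (τ - w) - w) = sn 2 τ - nτ := by ring
      rw [e1]
      exact hW.nτd)) (fun i _ _ => hmN _ (by linarith [hW.nn]) i)
    (by
      rw [hSw]
      exact s1 w τ (fun i => if i ≤ 1 then τ else ov i) (if_pos le_rfl)
        fun i hi => if_neg (by omega))
  have m4 := li_one h hN hκ D hwτ hτ1 (j := 1) (k := K) (by omega) (ov := ov)
    (fun i i' _ h2 h3 => hW.ovm i i' h2 (by omega)) (fun i _ h2 => hW.ovΩ i (by omega))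
    (fun i _ h2 => hovτ i (by omega)) (Nn := uN (n 2) w) hε (fun i _ h2 => hW.ovd i (by omega))
    (fun i _ _ => hu i) (by rw [s1 τ (ov 1) ov rfl fun _ _ => rfl, ← hSv])
  have m5 := li_one h hN hκ D hwτ hτ1 (j := 2) (k := K - 1) (by omega) (ov := ov)
    (fun i i' _ h2 h3 => hW.ovm i i' h2 (by omega)) (fun i _ h2 => hW.ovΩ i (by omega))
    (fun i _ h2 => hovτ i (by omega)) (Nn := uN (n 2) w) hε (fun i _ h2 => hW.ovd i (by omega))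
    (fun i _ _ => hu i) hSv.symm
  have m6 := li_one h hN hκ D le_rfl h.w1 (j := 1) (k := K) (by omega) (ov := fun _ => τ)
    (fun _ _ _ _ _ => le_rfl) (fun _ _ _ => hW.τΩ) (fun _ _ _ => hwτ)
    (Nn := fun i => uN (nτ - (i : ℝ) * (τ - w)) w i) hε (fun i _ _ => hnd i)
    (fun i _ _ => hna i) s6
  have m7 := li_one h hN hκ D hwτ hτ1 (j := 0) (k := K + 1) (by omega) (ov := ov)
    (fun i i' _ h2 h3 => hW.ovm i i' h2 (by omega)) (fun i _ h2 => hW.ovΩ i (by omega))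
    (fun i _ h2 => hovτ i (by omega)) (Nn := uN (n 2) w) hε (fun i _ h2 => hW.ovd i (by omega))
    (fun i _ _ => hu i) s0
  have m8 := li_one h hN hκ D hwτ hτ1 (j := 0) (k := K + 1) (by omega) (ov := fun _ => τ)
    (fun _ _ _ _ _ => le_rfl) (fun _ _ _ => hW.τΩ) (fun _ _ _ => le_rfl)
    (Nn := fun i => uN (nτ - (i : ℝ) * (τ - w)) w i) hε (fun i _ _ => hnd i)
    (fun i _ _ => hna i) s8
  have m9 := li_one h hN hκ D hwτ hτ1 (j := 1) (k := K) (by omega)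
    (ov := fun i => if i ≤ 1 then τb else ov i) (hmm τb hovb)
    (hmΩ τb (hW.τb1.trans (hW.ovΩ 1 hK))) (hmx τb τ hovτ hW.τb0)
    (Nn := mN (nτ - (τ - w) + β) (n 2) w) (Sm := (ψ 1 - ψ 2) * (τb - τ) + Sv) hε
    (hmd _ τb (by
      have e1 : sn 2 τb - τb - (nτ - (τ - w) + β - w) = sn 2 τb - τb - (nτ - τ + β) := by ring
      rw [e1]
      exact hW.bd)) (fun i _ _ => hmN _ hW.bn i)
    (by
      rw [hSv]
      exact s1 τ τb (fun i => if i ≤ 1 then τb else ov i) (if_pos le_rfl)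
        fun i hi => if_neg (by omega))
  obtain ⟨e1, he1, H1⟩ := (((m1.and m2).and (m3.and m4)).and ((m5.and m6).and (m7.and m8))).and m9
  refine ⟨Sw, Sv, hSS, e1, he1, Bas.mono 0 H1 ?_⟩
  rintro J - F A H1 H hH
  obtain ⟨⟨⟨⟨b1, b2⟩, b3, b4⟩, ⟨b5, b6⟩, b7, b8⟩, b9⟩ := H1 H hH
  exact ⟨b1, b2, b3, b4, b5, b6, b7, b8, b9⟩

end

end Pool.NA24
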