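import Pool.Agent.H24.NA3.Cls3

/-!
# The fields of the near-alive step for all labels of a class

`Fld`: the fields `fu`, `f1`, `f2`, `j2` of `NaT`. `fields_ev`: from the numbers, on one event.
`na3_cls`: for all labels of small accuracy, also `al` on all large parts.
-/

set_option autoImplicit false

namespace Pool.NA24

open Finset Real MvPolynomial
open Pool.Agent.H49.Ent Pool.Agent.H32.Dense Pool.STK Pool.KA Pool.KSAT Pool.K2S Pool.PB Pool.S6C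
  Pool.GEN Pool.RCD Pool.LA91 Pool.LP30 Pool.LPJ30 Pool.RJ28 Pool.AVG96
open Pool.V0F
open Pool.NDC42 (hgC pcC x0 jtC LbV BLb cJ cJ_nonneg cD cD_nonneg jt_of_pc pc_of_jt jtC_zero rec_det
  rec_mono)
open Pool.NA36 (vpC f1C f2C fbC jbC tcd tct X0 rX rG na_tm)
open Pool.RK28 (SkD)
open Pool.BFL (Pb)

variable {m : ℕ}

/-- **The fields** `fu`, `f1`, `f2`, `j2` of `NaT`. -/
structure Fld {J : ℕ} (F : Fam m J) (A : F.Ω → Prop) (c : ℕ → Fin m) (D : ℕ) (w t τ : ℝ)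
    (n : ℕ → ℝ) (nt nτ s₀ e : ℝ) (H : LnT F → ℕ → MvPolynomial (Option (Fin m)) ℝ) : Prop where
  hc : CH (Pool.Agent.H49.Ent.cond F.p A True) (hgC F c w H 2 nτ)
    (fun ω => (paC F c 2 w n H ω, (cR F A τ ω, F.W ω))) ≤ e * J
  fu : ((n 2 - nτ) * Real.log 2 - e) * J ≤ CH (Pool.Agent.H49.Ent.cond F.p A True)
    (hgC F c w H 2 (n 2)) (fun ω => ((cR F A τ ω, F.W ω), x0 F A c D w n nτ H ω))
  f1 : CH (Pool.Agent.H49.Ent.cond F.p A True) (f1C F c D w n H) (X0 F A c D w τ n H) ≤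
    CH (Pool.Agent.H49.Ent.cond F.p A True) (f1C F c D w n H)
      (fun ω => ((hgC F c w H 2 nτ ω, hgC F c w H 2 (n 2) ω), X0 F A c D w τ n H ω)) + e * J
  f2 : CH (Pool.Agent.H49.Ent.cond F.p A True) (f1C F c D w n H)
      (fun ω => ((cR F A w ω, F.Z ω), (vpC F c D w n H ω, (f2C F c D w n H ω,
        fbC F c w H τ nτ ω)))) ≤
    CH (Pool.Agent.H49.Ent.cond F.p A True) (f1C F c D w n H) (rX F A c D w t τ n nt H) + e * J
  j2 : CH (Pool.Agent.H49.Ent.cond F.p A True) (f1C F c D w n H)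
      (fun ω => ((cR F A w ω, F.Z ω), (vpC F c D w n H ω, (tcd F w s₀ ω,
        jbC F c D w H (tct F w s₀) τ nτ ω)))) ≤
    CH (Pool.Agent.H49.Ent.cond F.p A True) (f1C F c D w n H) (rG F A c D w t τ n nt H) + e * J

/-- The constants. -/
noncomputable def cC (D K : ℕ) : ℝ :=
  2 * cJ D 1 + ((∑ j ∈ range (D + 2), cJ D j) + cD D) + cL D 1 K + (K + 5) * Real.log 9 +
    2 * Real.log 5 + Real.log 2

section

variable {S : PCl m} {c : ℕ → Fin m} {sn : ℕ → ℝ → ℝ} {G : Set ℝ} {b o φ w Ω κ δ : ℝ}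
  {n p : ℕ → ℝ} {K n' : ℕ} {oB : Fin n' → ℕ} {ψ : ℕ → ℝ}
  {t τ nt nτ s₀ β e0 : ℝ} {ov : ℕ → ℝ} {τb : ℝ}

/-- **The fields on one event.** -/
theorem fields_ev {J : ℕ} {F : Fam m J} {A : F.Ω → Prop} {D : ℕ}
    {H : LnT F → ℕ → MvPolynomial (Option (Fin m)) ℝ} (hA : 0 < Pe F.p A) (hw0 : 0 ≤ w)
    (hw1 : w ≤ 1) (hdeg : ∀ l ≤ 3, ∀ x, (H x l).totalDegree ≤ D) {E Sw Sv : ℝ} (hE : 0 ≤ E)
    (hK : 1 ≤ K) (hΩ : Ω ≤ 1) (hW : NWin sn w Ω δ n K ψ t τ nt nτ s₀ β e0 ov τb)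
    (hL : Lis F A c w n H oB K ψ ov τ nτ β τb E Sw Sv) (hS : Sv = Sw - ψ 2 * (τ - w))
    (h1 : FwF F c D w n H K oB (Pool.Agent.H49.Ent.cond F.p A True) (cR F A w) (cR F A w) (E * J))
    (h2 : FwF F c D w n H K oB (Pool.Agent.H49.Ent.cond F.p A True) (cR F A w) (cR F A τ) (E * J))
    (hsk : CH (Pool.Agent.H49.Ent.cond F.p A True)
      (qC F c 2 w H oB (fun i => uN (n 2) w (oB i)))
        (fun ω => (paC F c 2 w n H ω, (cR F A w ω, F.W ω))) ≤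
      CH (Pool.Agent.H49.Ent.cond F.p A True) (qC F c 2 w H oB (fun i => uN (n 2) w (oB i)))
        (fun ω => (paC F c 2 w n H ω, ((cR F A w ω, cR F A τ ω), F.W ω))) + E * J)
    (hTm : ((1 - w) * Real.log 2 - E) * J ≤
      CH (Pool.Agent.H49.Ent.cond F.p A True) F.T (slam F ⌊w * J⌋₊))
    (hcst : cC D K ≤ E * J) :
    Fld F A c D w t τ n nt nτ s₀ (e0 + 20 * E) H ∧
      ((ψ 1 - ψ 2) * (τb - τ) - (e0 + 11 * E)) * J ≤ CH (Pool.Agent.H49.Ent.cond F.p A True)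
        (fun ω => ⌊ojet F (c 2) 1 (H (slam F ⌊w * J⌋₊ ω) 2) ω / 2 ^ (-((nτ - τ + β) * J))⌋)
          (rX F A c D w t τ n nt H) := by
  obtain ⟨q, hq⟩ : ∃ q : F.Ω → ℝ, q = Pool.Agent.H49.Ent.cond F.p A True := ⟨_, rfl⟩
  have hql : IsLaw q := by
    rw [hq]
    exact isLaw_cond F.isLaw hA
  have hqA : ∀ ω, 0 < q ω → A ω := fun ω hω => of_cond_pos (by rwa [hq] at hω)
  have h0 := hql.nonneg
  have hJ0 : (0 : ℝ) ≤ J := Nat.cast_nonneg J
  have hτ1 : τ ≤ 1 := hW.τΩ.trans hΩ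
  have hEJ : 0 ≤ E * J := mul_nonneg hE hJ0
  have hk : K - 1 + 1 = K := by omega
  obtain ⟨l1, l2, l3, l4, l5, l6, l7, l8, l9⟩ := hL
  -- the constants
  have c0 := cJ_nonneg D 1
  have c1 : 0 ≤ ∑ j ∈ range (D + 2), cJ D j := Finset.sum_nonneg fun j _ => cJ_nonneg D j
  have c2 := cD_nonneg D
  have c3 := cL_nonneg D 1 K
  have c4 : 0 < Real.log 9 := Real.log_pos (by norm_num)
  have c5 : 0 < Real.log 5 := Real.log_pos (by norm_num)
  have c6 : 0 < Real.log 2 := Real.log_pos (by norm_num)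
  have c7 : (0 : ℝ) ≤ K * Real.log 9 := by positivity
  unfold cC at hcst
  have hcst' : 2 * cJ D 1 + ((∑ j ∈ range (D + 2), cJ D j) + cD D) + cL D 1 K +
      (K * Real.log 9 + 5 * Real.log 9) + 2 * Real.log 5 + Real.log 2 ≤ E * J := by
    have e1 : ((K : ℝ) + 5) * Real.log 9 = K * Real.log 9 + 5 * Real.log 9 := by ring
    rw [e1] at hcst
    exact hcst
  -- the height
  have hc : CH q (hgC F c w H 2 nτ) (fun ω => (paC F c 2 w n H ω, (cR F A τ ω, F.W ω))) ≤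
      E * J := by
    have k1 := l8.up
    rw [← hq] at k1
    have k2 : CH q (hgC F c w H 2 nτ) (fun ω => (paC F c 2 w n H ω, (cR F A τ ω, F.W ω))) ≤
        CH q (ndC F c 2 w H 0 (K + 1) (fun i => uN (nτ - (i : ℝ) * (τ - w)) w i))
          (fun ω => (paC F c 2 w n H ω, (cR F A τ ω, F.W ω))) :=
      CH_mono_left h0 fun ω ω' _ _ e => by
        have e1 := congrFun (Prod.ext_iff.1 e).1 0
        unfold ndC at e1
        simp only [odv_z] at e1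
        unfold uN at e1
        rw [Nat.cast_zero, zero_mul, sub_zero, zero_mul, sub_zero] at e1
        exact e1
    have e1 : (0 + E) * (J : ℝ) = E * J := by ring
    rw [e1] at k1
    exact k2.trans k1
  -- the far height
  have hl := h2.fu (by rw [← hq]; exact h0) l7.lo l4.up
  rw [← hq] at hl
  obtain ⟨l, hll⟩ : ∃ l, l = ((ψ 0 - ψ 1) * (ov 0 - τ) + ((ψ 1 - ψ 2) * (ov 1 - τ) + Sv) - E) * J -
    ((ψ 1 - ψ 2) * (ov 1 - τ) + Sv + E) * J - 2 * (E * J) := ⟨_, rfl⟩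
  rw [← hll] at hl
  have hl1 : l = (ψ 0 - ψ 1) * (ov 0 - τ) * J - 4 * (E * J) := by
    rw [hll]
    ring
  have hl2 : (n 2 - nτ) * J * Real.log 2 ≤ l + e0 * J + 4 * (E * J) := by
    have k1 := mul_le_mul_of_nonneg_right hW.fl hJ0
    have e1 : (n 2 - nτ) * Real.log 2 * J = (n 2 - nτ) * J * Real.log 2 := by ring
    have e2 : ((ψ 0 - ψ 1) * (ov 0 - τ) + e0) * J = (ψ 0 - ψ 1) * (ov 0 - τ) * J + e0 * J := by
      ring
    rw [e1, e2] at k1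
    linarith
  -- the time
  have hTm' : ((J - ⌊w * J⌋₊ : ℕ) : ℝ) * Real.log 2 - (E * J + Real.log 2) ≤
      CH q F.T (slam F ⌊w * J⌋₊) := by
    rw [← hq] at hTm
    refine le_trans ?_ hTm
    have hwJ := floor_le hw1 J
    rw [Nat.cast_sub hwJ]
    have k1 := Nat.lt_floor_add_one (w * J)
    have k2 : ((J : ℝ) - ⌊w * J⌋₊) * Real.log 2 ≤ ((1 - w) * J + 1) * Real.log 2 :=
      mul_le_mul_of_nonneg_right (by linarith) c6.le
    have e1 : ((1 - w) * Real.log 2 - E) * J = ((1 - w) * J + 1) * Real.log 2 - Real.log 2 -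
        E * J := by ring
    rw [e1]
    linarith
  rw [← hq] at h1 h2 l1 l2 l3 l4 l5 l6 l7 l9 hsk
  have f1 := f1_E hql hW.wτ hτ1 hW.nn h2 hc hl
  have f2 := f2_E (nt := nt) hql hqA hw0 hw1 (hdeg 2 (by norm_num)) hW.wτ hW.tτ hτ1 hW.nn hW.nt
    hTm' h1 h2 hc hl hk l1 l2 l3 l4 l5
  have j2 := j2_E (nt := nt) hql hqA hw0 hw1 (hdeg 2 (by norm_num)) hW.wτ hW.tτ hτ1 hW.nn hW.nt
    hW.s0 hW.s1 hTm' h1 h2 hc hl hsk l1 l6 l4
  have al := al_E (nt := nt) (β := β) hql hw0 hw1 (hdeg 2 (by norm_num)) hW.wτ hW.tτ hτ1 hW.nn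
    hW.nt hW.bn h2 hc hl hk l9 l5
  have fu := fu_E (D := D) (g := E * J) (l := l) hA hw0 hw1 hdeg hW.wτ hτ1 hW.nn (by rw [← hq]; exact h2.pv)
    (by rw [← hq]; exact hc) (by rw [← hq]; exact hl)
  refine ⟨⟨?_, ?_, ?_, ?_, ?_⟩, ?_⟩
  · rw [← hq]
    refine hc.trans ?_
    have e1 : (e0 + 20 * E) * J = e0 * J + 20 * (E * J) := by ring
    have e2 : 0 ≤ e0 * J := mul_nonneg hW.e00 hJ0
    rw [e1]
    linarith
  · refine le_trans ?_ fu
    have e1 : ((n 2 - nτ) * Real.log 2 - (e0 + 20 * E)) * J = (n 2 - nτ) * J * Real.log 2 -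
        e0 * J - 20 * (E * J) := by ring
    rw [e1]
    linarith
  · rw [← hq]
    refine f1.trans ?_
    have e1 : (e0 + 20 * E) * J = e0 * J + 20 * (E * J) := by ring
    rw [e1]
    linarith
  · rw [← hq]
    refine f2.trans ?_
    have e1 : (e0 + 20 * E) * J = e0 * J + 20 * (E * J) := by ring
    rw [e1]
    have e2 : ((ψ 1 - ψ 2) * (ov 1 - w) + Sw + E) * J - (Sw - E) * J -
        (((ψ 1 - ψ 2) * (τ - w) + Sw - E) * J - (Sw + E) * J) -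
        (((ψ 1 - ψ 2) * (ov 1 - τ) + Sv - E) * J - (Sv + E) * J) = 6 * (E * J) := by ring
    linarith
  · rw [← hq]
    refine j2.trans ?_
    have e1 : (e0 + 20 * E) * J = e0 * J + 20 * (E * J) := by ring
    rw [e1]
    have e2 : ((ψ 1 - ψ 2) * (ov 1 - w) + Sw + E) * J - (ψ 1 * (τ - w) - E) * J -
        ((ψ 1 - ψ 2) * (ov 1 - τ) + Sv - E) * J = 3 * (E * J) := by
      rw [hS]
      ring
    have e3 : ((K : ℝ) + 2) * Real.log 9 = K * Real.log 9 + 2 * Real.log 9 := by ring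
    rw [e3]
    linarith
  · rw [← hq]
    refine le_trans ?_ al
    have e1 : ((ψ 1 - ψ 2) * (τb - τ) - (e0 + 11 * E)) * J = (ψ 1 - ψ 2) * (τb - τ) * J - e0 * J -
        11 * (E * J) := by ring
    have e2 : ((ψ 1 - ψ 2) * (τb - τ) + Sv - E) * J - (Sv + E) * J =
        (ψ 1 - ψ 2) * (τb - τ) * J - 2 * (E * J) := by ring
    rw [e1]
    linarith

theorem Fld.mono {J : ℕ} {F : Fam m J} {A : F.Ω → Prop} {D : ℕ} {e e' : ℝ}
    {H : LnT F → ℕ → MvPolynomial (Option (Fin m)) ℝ}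
    (h : Fld F A c D w t τ n nt nτ s₀ e H) (he : e ≤ e') :
    Fld F A c D w t τ n nt nτ s₀ e' H := by
  have hJ : e * (J : ℝ) ≤ e' * J := mul_le_mul_of_nonneg_right he (Nat.cast_nonneg J)
  refine ⟨h.hc.trans hJ, le_trans ?_ h.fu, h.f1.trans (by linarith), h.f2.trans (by linarith),
    h.j2.trans (by linarith)⟩
  exact mul_le_mul_of_nonneg_right (by linarith) (Nat.cast_nonneg J)

/-- Labels on a part. -/
theorem lbv_sub {J : ℕ} {F : Fam m J} {A B : F.Ω → Prop} {r D : ℕ} {e : ℝ}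
    {H : LnT F → ℕ → MvPolynomial (Option (Fin m)) ℝ} (h : LbV F A c r D w e p H)
    (hB : Sub B A) : LbV F B c r D w e p H := by
  intro l hl
  obtain ⟨⟨V, z, z', G, h1, h2⟩, h3⟩ := h l hl
  exact ⟨⟨V, z, z', G, h1.sub hB, h2⟩, fun ω hω a => h3 ω (hB ω hω) a⟩

/-- The record of an event on a part. -/
theorem cR_sub {J : ℕ} {F : Fam m J} {A B : F.Ω → Prop} {x : ℝ} (hA : 0 < Pe F.p A)
    (hB : Sub B A) {ω ω' : F.Ω} (e : cR F B x ω = cR F B x ω') : cR F A x ω = cR F A x ω' :=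
  rec_det ((mx_cR hA x (le_refl (0 : ℝ))).1.sub hB) e

/-- **The fields for all labels of small accuracy**, `al` on all large parts. -/
theorem na3_cls (h : NIn S c sn G b o φ w n p) (hN : NNum S c sn w Ω κ δ n K oB ψ) (hκ : 0 ≤ κ)
    (D : ℕ) (hK : 1 ≤ K) (hoB : ∀ i, 2 ≤ oB i)
    (hd : ∀ j, K < j → j ≤ D + 1 → HdH S c sn φ w n p oB j)
    (hW : NWin sn w Ω δ n K ψ t τ nt nτ s₀ β e0 ov τb)
    (hsk : SkD S (fun _ F => F.W) c 2 (fun _ => c 2) oB sn (fun _ w => sn 2 w) n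
      (fun l => n l - w) (fun i => uN (n 2) w (oB i)) w w τ κ) {δm e : ℝ} (hδm : 0 < δm)
    (he : e0 + 20 * eN K κ δ < e) (hal : e0 + 11 * eN K κ δ < (ψ 1 - ψ 2) * (τb - τ)) :
    BLb S c 3 D w p (fun J F A H => Fld F A c D w t τ n nt nτ s₀ e H ∧
      ∀ E : F.Ω → Prop, δm / 2 ≤ Pb (Pool.Agent.H49.Ent.cond F.p A True) E →
        Real.log (6 / δm) <
          CH (Pool.Agent.H49.Ent.cond (Pool.Agent.H49.Ent.cond F.p A True) E True)
            (fun ω => ⌊ojet F (c 2) 1 (H (slam F ⌊w * J⌋₊ ω) 2) ω / 2 ^ (-((nτ - τ + β) * J))⌋)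
            (rX F A c D w t τ n nt H)) := by
  obtain ⟨C₀, htm⟩ := h.L.tm
  obtain ⟨ε, hε, hε1, hε2⟩ : ∃ ε : ℝ, 0 < ε ∧ e0 + 20 * (eN K κ δ + ε) ≤ e ∧
      e0 + 11 * (eN K κ δ + ε) + ε ≤ (ψ 1 - ψ 2) * (τb - τ) := by
    refine ⟨min ((e - (e0 + 20 * eN K κ δ)) / 20)
      (((ψ 1 - ψ 2) * (τb - τ) - (e0 + 11 * eN K κ δ)) / 12), lt_min (by linarith) (by linarith),
      ?_, ?_⟩
    · have := min_le_left ((e - (e0 + 20 * eN K κ δ)) / 20)
        (((ψ 1 - ψ 2) * (τb - τ) - (e0 + 11 * eN K κ δ)) / 12)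
      linarith
    · have := min_le_right ((e - (e0 + 20 * eN K κ δ)) / 20)
        (((ψ 1 - ψ 2) * (τb - τ) - (e0 + 11 * eN K κ δ)) / 12)
      linarith
  obtain ⟨E, hE⟩ : ∃ E, E = eN K κ δ + ε := ⟨_, rfl⟩
  have hδ := hN.δ0
  have heN : κ ≤ eN K κ δ := by
    unfold eN
    have h1 : 0 ≤ (K : ℝ) := Nat.cast_nonneg K
    have h2 : 0 ≤ (K : ℝ) * (2 * κ + (K + 2) * δ) := by positivity
    have h3 : ((K : ℝ) + 1) * (2 * κ + (K + 2) * δ) = K * (2 * κ + (K + 2) * δ) + 2 * κ +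
        (K + 2) * δ := by ring
    have h4 : 0 ≤ ((K : ℝ) + 2) * δ := by positivity
    rw [h3]
    linarith
  have hE0 : 0 < E := by
    rw [hE]
    linarith
  have hτ1 : τ ≤ 1 := hW.τΩ.trans hN.Ω1
  obtain ⟨Sw, Sv, hS, m1⟩ := lis_cls h hN hκ D hK hW hε
  rw [← hE] at m1
  have m2 := fw_cls h D hK hoB hd le_rfl h.w1 hE0
  have m3 := fw_cls h D hK hoB hd hW.wτ hτ1 hE0
  have m4 := sk_cls h D hW.wτ hτ1 hsk hε
  have m5 : BLb S c 3 D w p (fun J F A _ => 0 < Pe F.p A ∧ ((1 - w) * Real.log 2 - E) * J ≤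
      CH (Pool.Agent.H49.Ent.cond F.p A True) F.T (slam F ⌊w * J⌋₊)) :=
    BLb.of (na_tm htm h.w0 h.w1 hE0)
  obtain ⟨J₁, hJ₁⟩ := exists_nat_ge (cC D K / E)
  obtain ⟨J₂, hJ₂⟩ := exists_nat_ge ((Real.log (6 / δm) + 1) / ε)
  -- on one event
  obtain ⟨e₁, he₁, H1⟩ := (((m1.and m2).and (m3.and m4)).up (r' := 3) (by norm_num)).and m5
  have key : Bas S (fun J F A => 0 < Pe F.p A ∧ ∀ H, LbV F A c 3 D w e₁ p H →
      Fld F A c D w t τ n nt nτ s₀ e H ∧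
      Real.log (6 / δm) < CH (Pool.Agent.H49.Ent.cond F.p A True)
        (fun ω => ⌊ojet F (c 2) 1 (H (slam F ⌊w * J⌋₊ ω) 2) ω / 2 ^ (-((nτ - τ + β) * J))⌋)
          (rX F A c D w t τ n nt H)) := by
    refine Bas.mono (J₁ + J₂) (H1.and (pos_bas h.L.pos)) ?_
    rintro J hJ F A ⟨H1, hA⟩
    refine ⟨hA, fun H hH => ?_⟩
    obtain ⟨⟨⟨b1, b2⟩, b3, b4⟩, b5⟩ := H1 H hH
    have hJ0 : (0 : ℝ) ≤ J := Nat.cast_nonneg J
    have hcst : cC D K ≤ E * J := by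
      have h4 : (J₁ : ℝ) ≤ J := by exact_mod_cast (by omega : J₁ ≤ J)
      have := hJ₁.trans h4
      rw [div_le_iff₀ hE0] at this
      linarith
    have hlg : Real.log (6 / δm) + 1 ≤ ε * J := by
      have h4 : (J₂ : ℝ) ≤ J := by exact_mod_cast (by omega : J₂ ≤ J)
      have := hJ₂.trans h4
      rw [div_le_iff₀ hε] at this
      linarith
    have hκE : (κ + ε) * J ≤ E * J := mul_le_mul_of_nonneg_right (by rw [hE]; linarith) hJ0
    obtain ⟨g1, g2⟩ := fields_ev (D := D) (H := H) hA h.w0 h.w1 (fun l hl x => hH.deg hl x)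
      hE0.le hK hN.Ω1 hW b1 hS b2.2 b3.2 (b4.trans (by linarith)) b5.2 hcst
    rw [← hE] at hε1 hε2
    refine ⟨g1.mono hε1, lt_of_lt_of_le ?_ g2⟩
    have h5 := mul_le_mul_of_nonneg_right hε2 hJ0
    have e1 : (e0 + 11 * E + ε) * J = (e0 + 11 * E) * J + ε * J := by ring
    have e2 : ((ψ 1 - ψ 2) * (τb - τ) - (e0 + 11 * E)) * J = (ψ 1 - ψ 2) * (τb - τ) * J -
        (e0 + 11 * E) * J := by ring
    rw [e1] at h5
    rw [e2]
    linarith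
  -- on parts
  have hC : (0 : ℝ) < 2 / δm := by positivity
  refine ⟨e₁, he₁, Bas.mono 0 (key.and (Pool.GRW.bas_part key hC)) ?_⟩
  rintro J - F A ⟨⟨hA, K1⟩, K2⟩ H hH
  refine ⟨(K1 H hH).1, fun Ev hEv => ?_⟩
  have hP : Pb (Pool.Agent.H49.Ent.cond F.p A True) Ev =
      Pe F.p (fun ω => A ω ∧ Ev ω) / Pe F.p A := by
    have h1 : Pb (Pool.Agent.H49.Ent.cond F.p A True) Ev =
        Pe (Pool.Agent.H49.Ent.cond F.p A True) Ev := by
      rw [Pool.K2S.Pe_eq]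
      rfl
    rw [h1, Pe_cond Ev]
  have hsub : Sub (fun ω => A ω ∧ Ev ω) A := fun ω hω => hω.1
  have hPe : Pe F.p A ≤ 2 / δm * Pe F.p (fun ω => A ω ∧ Ev ω) := by
    rw [hP, le_div_iff₀ hA] at hEv
    rw [div_mul_eq_mul_div, le_div_iff₀ hδm]
    linarith
  obtain ⟨hB, K3⟩ := K2 _ hsub hPe
  have g1 := (K3 H (lbv_sub hH hsub)).2
  rw [Pool.RPL.cond_and_ev F.p hA.ne']
  refine lt_of_lt_of_le g1 (CH_mono_cond (isLaw_cond F.isLaw hB).nonneg fun ω ω' _ _ e => ?_)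
  unfold rX X0 at e ⊢
  simp only [Prod.mk.injEq] at e ⊢
  obtain ⟨⟨⟨a1, a2⟩, a3, a4, a5⟩, a6, a7⟩ := e
  exact ⟨⟨⟨cR_sub hA hsub a1, a2⟩, a3, a4, cR_sub hA hsub a5⟩, a6, cR_sub hA hsub a7⟩

end

end Pool.NA24
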