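import Pool.Agent.H24.NA3.Few

/-!
# Jets from natural digits of the coefficients

`jt_sc`: a Taylor coefficient at a near time. `jc_near`: the jets from the Taylor coefficients at the
own time. `fb_few`: the first jet to the natural digits of a window from the digits `fbC` of the first
coefficient. `jb_few`: all jets to the natural digits from the digits `jbC` of the Taylor coefficients
at a near time.
-/

set_option autoImplicit false

namespace Pool.NA24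

open Finset Real MvPolynomial
open Pool.Agent.H49.Ent Pool.Agent.H32.Dense Pool.STK Pool.KA Pool.KSAT Pool.K2S Pool.PB Pool.S6C
  Pool.GEN Pool.RCD Pool.LA91 Pool.RJ28
open Pool.OWN68 (CH_pair floor_sub_le)
open Pool.NDC42 (hgC pcC jtC cJ cJ_nonneg)
open Pool.NA36 (f1C f2C opl tcd tct jaC fbC jbC)
open Pool.AVG5 (jt jt_le jt_sub jt_sum of_fl)
open Pool.AVG57 (tw_of_T tw_rt)
open Pool.PB.Trl (rt rt_mem t_rt)

variable {m J : ℕ}

/-- **A Taylor coefficient at a near time.** -/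
theorem jt_sc {K : ℕ} {P : Polynomial ℝ} (hP : P.natDegree ≤ K) {θ η δ : ℝ} (hθ : |θ| ≤ η)
    (hδ : 0 ≤ δ) {a : ℕ} (h : ∀ i, a ≤ i → |P.coeff i| * η ^ (i - a) ≤ δ) :
    |jt P θ a| ≤ 2 ^ (K + 1) * δ := by
  rw [jt_sum hP]
  refine (Finset.abs_sum_le_sum_abs _ _).trans ?_
  have h1 : ∀ i ∈ Icc a K, |(i.choose a : ℝ) * P.coeff i * θ ^ (i - a)| ≤
      (i.choose a : ℝ) * δ := by
    intro i hi
    rw [mem_Icc] at hi
    have e1 : (0 : ℝ) ≤ (i.choose a : ℝ) := Nat.cast_nonneg _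
    rw [abs_mul, abs_mul, abs_of_nonneg e1, abs_pow, mul_assoc]
    refine mul_le_mul_of_nonneg_left (le_trans ?_ (h i hi.1)) e1
    exact mul_le_mul_of_nonneg_left (pow_le_pow_left₀ (abs_nonneg _) hθ _) (abs_nonneg _)
  refine (Finset.sum_le_sum h1).trans ?_
  rw [← Finset.sum_mul]
  refine mul_le_mul_of_nonneg_right ?_ hδ
  have h2 : ∑ i ∈ Icc a K, i.choose a = (K + 1).choose (a + 1) := Nat.sum_Icc_choose K a
  have h3 : (K + 1).choose (a + 1) ≤ 2 ^ (K + 1) := Nat.choose_le_two_pow _ _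
  have h4 : ∑ i ∈ Icc a K, (i.choose a : ℝ) = ((∑ i ∈ Icc a K, i.choose a : ℕ) : ℝ) := by
    push_cast
    rfl
  rw [h4, h2]
  exact_mod_cast h3

theorem jt_sh (P : Polynomial ℝ) (θ θ' : ℝ) (a : ℕ) :
    jt P θ' a = jt (Polynomial.taylor θ P) (θ' - θ) a := by
  unfold jt
  rw [Polynomial.taylor_taylor, sub_add_cancel]

section

variable {F : Fam m J} {c : ℕ → Fin m} {D l : ℕ} {w : ℝ}
  {H : LnT F → ℕ → MvPolynomial (Option (Fin m)) ℝ}

theorem opl_deg (hdeg : ∀ x, (H x l).totalDegree ≤ D) (ω : F.Ω) :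
    (opl F c w H l ω).natDegree ≤ D + 1 := by
  unfold opl
  exact (natDegree_dv ⌊w * J⌋₊ (K := D) (G := fun s (_ : Fin m) => H s l)
    (fun s _ => hdeg s) _ _).trans le_rfl

/-- **The jets** from the Taylor coefficients at the own time. -/
theorem jc_near (hw0 : 0 ≤ w) (hwJ : ⌊w * J⌋₊ ≤ J) {s C : ℝ} (hC : 0 ≤ C) {j : ℕ} {ω ω' : F.Ω}
    (hT : F.T ω = F.T ω')
    (h : |jt (opl F c w H l ω) (rt F ⌊w * J⌋₊ ω) j - jt (opl F c w H l ω') (rt F ⌊w * J⌋₊ ω) j| ≤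
      C * (1 / 2 ^ (s * J))) :
    |(2 : ℝ) ^ ((s - (j : ℝ) * w) * J) * ojet F (c l) j (H (slam F ⌊w * J⌋₊ ω) l) ω -
      (2 : ℝ) ^ ((s - (j : ℝ) * w) * J) * ojet F (c l) j (H (slam F ⌊w * J⌋₊ ω') l) ω'| ≤
      C * (j.factorial : ℝ) := by
  obtain ⟨W, hW⟩ : ∃ W, W = ⌊w * J⌋₊ := ⟨_, rfl⟩
  unfold opl at h
  rw [← hW] at h hwJ ⊢
  have hrt : rt F W ω = rt F W ω' := by
    have h1 := tw_of_T F (W := W) hT
    rwa [tw_rt F hwJ, tw_rt F hwJ] at h1
  have hWw : (W : ℝ) ≤ w * J := by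
    rw [hW]
    exact Nat.floor_le (mul_nonneg hw0 (Nat.cast_nonneg J))
  have hs0 : (0 : ℝ) < 2 ^ (s * J) := Real.rpow_pos_of_pos (by norm_num) _
  have hp0 : (0 : ℝ) < 2 ^ ((s - (j : ℝ) * w) * J) := Real.rpow_pos_of_pos (by norm_num) _
  have e1 : jt (dv W (fun s (_ : Fin m) => H s l) (c l) (slam F W ω)) (rt F W ω) j =
      ojet F (c l) j (H (slam F W ω) l) ω / ((j.factorial : ℝ) * (2 ^ W) ^ j) :=
    Pool.AVG57.ojet_tay F hwJ ω (c l) (fun s (_ : Fin m) => H s l) j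
  have e2 : jt (dv W (fun s (_ : Fin m) => H s l) (c l) (slam F W ω')) (rt F W ω) j =
      ojet F (c l) j (H (slam F W ω') l) ω' / ((j.factorial : ℝ) * (2 ^ W) ^ j) := by
    rw [hrt]
    exact Pool.AVG57.ojet_tay F hwJ ω' (c l) (fun s (_ : Fin m) => H s l) j
  have hf : (0 : ℝ) < (j.factorial : ℝ) * (2 ^ W) ^ j := by positivity
  rw [e1, e2, ← sub_div, abs_div, abs_of_pos hf, div_le_iff₀ hf] at h
  rw [← mul_sub, abs_mul, abs_of_pos hp0]
  have h4 : (2 : ℝ) ^ ((s - (j : ℝ) * w) * J) * (2 ^ W) ^ j ≤ 2 ^ (s * J) := by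
    have e3 : (2 : ℝ) ^ ((s - (j : ℝ) * w) * J) * (2 ^ W) ^ j =
        2 ^ ((s - (j : ℝ) * w) * J + W * j) := by
      rw [Real.rpow_add (by norm_num), ← Nat.cast_mul, Real.rpow_natCast, pow_mul]
    rw [e3]
    refine Real.rpow_le_rpow_of_exponent_le (by norm_num) ?_
    have h5 : (W : ℝ) * j ≤ w * J * j := mul_le_mul_of_nonneg_right hWw (Nat.cast_nonneg j)
    have h7 : (s - (j : ℝ) * w) * J = s * J - w * J * j := by ring
    linarith
  calc (2 : ℝ) ^ ((s - (j : ℝ) * w) * J) *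
        |ojet F (c l) j (H (slam F W ω) l) ω - ojet F (c l) j (H (slam F W ω') l) ω'|
      ≤ 2 ^ ((s - (j : ℝ) * w) * J) * (C * (1 / 2 ^ (s * J)) *
          ((j.factorial : ℝ) * (2 ^ W) ^ j)) := mul_le_mul_of_nonneg_left h hp0.le
    _ = C * (j.factorial : ℝ) *
          ((2 ^ ((s - (j : ℝ) * w) * J) * (2 ^ W) ^ j) / 2 ^ (s * J)) := by ring
    _ ≤ C * (j.factorial : ℝ) * 1 := by
        refine mul_le_mul_of_nonneg_left ?_ (by positivity)
        rwa [div_le_one hs0]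
    _ = C * (j.factorial : ℝ) := mul_one _

end

section

variable {F : Fam m J} {c : ℕ → Fin m} {D : ℕ} {w : ℝ} {n : ℕ → ℝ}
  {H : LnT F → ℕ → MvPolynomial (Option (Fin m)) ℝ} {q : F.Ω → ℝ} {Γ : Type} {Y : F.Ω → Γ}

/-- **The first jet to the natural digits of a window** from the digits of the first coefficient and
the codes of the orders `≥ 2`. -/
theorem fb_few (hw0 : 0 ≤ w) (hw1 : w ≤ 1) (hdeg : ∀ x, (H x 2).totalDegree ≤ D) (hq : IsLaw q)
    {τ nτ : ℝ} (hn : nτ - (τ - w) ≤ n 2)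
    (hY : ∀ ω ω', 0 < q ω → 0 < q ω' → Y ω = Y ω' → F.T ω = F.T ω' ∧
      f2C F c D w n H ω = f2C F c D w n H ω' ∧ fbC F c w H τ nτ ω = fbC F c w H τ nτ ω') :
    CH q (jtC F c w H 2 1 (nτ - (τ - w))) Y ≤ cJ D 1 := by
  unfold cJ
  refine CH_pair hq _ _ fun ω ω' hω hω' e => ?_
  obtain ⟨hT, h2, h1⟩ := hY ω ω' hω hω' e
  have hwJ := floor_le hw1 J
  have hs0 : (0 : ℝ) < 2 ^ ((nτ - (τ - w)) * J) := Real.rpow_pos_of_pos (by norm_num) _
  have hθ : |rt F ⌊w * J⌋₊ ω| ≤ 1 := by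
    have h1 := rt_mem F ⌊w * J⌋₊ ω
    rw [abs_le]
    constructor <;> linarith [h1.1, h1.2]
  have hsn : (1 : ℝ) / 2 ^ (n 2 * J) ≤ 1 / 2 ^ ((nτ - (τ - w)) * J) := by
    refine one_div_le_one_div_of_le hs0 (Real.rpow_le_rpow_of_exponent_le (by norm_num) ?_)
    exact mul_le_mul_of_nonneg_right hn (Nat.cast_nonneg J)
  have hco : ∀ i, 1 ≤ i → |(opl F c w H 2 ω - opl F c w H 2 ω').coeff i| ≤
      1 / 2 ^ ((nτ - (τ - w)) * J) := by
    intro i hi
    rw [Polynomial.coeff_sub]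
    rcases Nat.lt_or_ge (D + 1) i with h3 | h3
    · rw [Polynomial.coeff_eq_zero_of_natDegree_lt ((opl_deg hdeg ω).trans_lt h3),
        Polynomial.coeff_eq_zero_of_natDegree_lt ((opl_deg hdeg ω').trans_lt h3), sub_zero, abs_zero]
      positivity
    rcases Nat.lt_or_ge i 2 with h4 | h4
    · obtain rfl : i = 1 := by omega
      exact of_fl hs0 h1
    · refine le_trans ?_ hsn
      have h5 := congrFun h2 ⟨i, by omega⟩
      unfold f2C pcC Pool.AVG71.cod at h5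
      dsimp only at h5
      rw [if_pos h4, if_pos h4] at h5
      exact of_fl (by positivity) h5
  have h3 := jt_le ((Polynomial.natDegree_sub_le _ _).trans (max_le (opl_deg hdeg ω)
    (opl_deg hdeg ω'))) hθ (by positivity : (0 : ℝ) ≤ 1 / 2 ^ ((nτ - (τ - w)) * J)) hco
  rw [jt_sub] at h3
  have h4 := jc_near (F := F) (c := c) (l := 2) (H := H) hw0 hwJ (by positivity) hT h3
  refine floor_sub_le ?_
  rw [Nat.cast_one] at h4
  push_cast
  simp only [Nat.cast_one, Nat.factorial_one, mul_one, one_mul] at h4 ⊢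
  exact h4

/-- **The jets to the natural digits of a window** from those digits of the Taylor coefficients at a
near time. -/
theorem jb_few (hw0 : 0 ≤ w) (hw1 : w ≤ 1) (hdeg : ∀ x, (H x 2).totalDegree ≤ D) (hq : IsLaw q)
    {τ nτ s₀ : ℝ} (hs : τ - w ≤ s₀)
    (hY : ∀ ω ω', 0 < q ω → 0 < q ω' → Y ω = Y ω' → F.T ω = F.T ω' ∧
      tcd F w s₀ ω = tcd F w s₀ ω' ∧
      jbC F c D w H (tct F w s₀) τ nτ ω = jbC F c D w H (tct F w s₀) τ nτ ω') {j : ℕ} (hj : 1 ≤ j) :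
    CH q (jtC F c w H 2 j (nτ - (j : ℝ) * (τ - w))) Y ≤ cJ D j := by
  unfold cJ
  refine CH_pair hq _ _ fun ω ω' hω hω' e => ?_
  obtain ⟨hT, h2, h1⟩ := hY ω ω' hω hω' e
  have hJ0 : (0 : ℝ) ≤ J := Nat.cast_nonneg J
  have hwJ := floor_le hw1 J
  have hθe : tct F w s₀ ω = tct F w s₀ ω' := by
    unfold tct
    rw [h2]
  obtain ⟨θ, hθ⟩ : ∃ θ, θ = tct F w s₀ ω := ⟨_, rfl⟩
  have hp : (0 : ℝ) < 2 ^ (s₀ * J) := by positivity
  -- the distance of the times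
  have hd : |rt F ⌊w * J⌋₊ ω - θ| ≤ 1 / 2 ^ (s₀ * J) := by
    rw [hθ]
    unfold tct tcd
    have a1 := Int.floor_le ((2 : ℝ) ^ (s₀ * J) * rt F ⌊w * J⌋₊ ω)
    have a2 := Int.lt_floor_add_one ((2 : ℝ) ^ (s₀ * J) * rt F ⌊w * J⌋₊ ω)
    have a3 : rt F ⌊w * J⌋₊ ω - (⌊(2 : ℝ) ^ (s₀ * J) * rt F ⌊w * J⌋₊ ω⌋ : ℝ) / 2 ^ (s₀ * J) =
        ((2 : ℝ) ^ (s₀ * J) * rt F ⌊w * J⌋₊ ω - (⌊(2 : ℝ) ^ (s₀ * J) * rt F ⌊w * J⌋₊ ω⌋ : ℝ)) /
          2 ^ (s₀ * J) := by
      rw [sub_div, mul_div_cancel_left₀ _ hp.ne']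
    rw [a3, abs_div, abs_of_pos hp]
    refine div_le_div_of_nonneg_right ?_ hp.le
    rw [abs_le]
    constructor <;> linarith
  obtain ⟨P, hP⟩ : ∃ P, P = opl F c w H 2 ω - opl F c w H 2 ω' := ⟨_, rfl⟩
  have hPd : P.natDegree ≤ D + 1 := by
    rw [hP]
    exact (Polynomial.natDegree_sub_le _ _).trans (max_le (opl_deg hdeg ω) (opl_deg hdeg ω'))
  have hco : ∀ i, j ≤ i → |(Polynomial.taylor θ P).coeff i| ≤
      1 / 2 ^ ((nτ - (i : ℝ) * (τ - w)) * J) := by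
    intro i hi
    rcases Nat.lt_or_ge (D + 1) i with h3 | h3
    · rw [Polynomial.coeff_eq_zero_of_natDegree_lt (by
        rw [Polynomial.natDegree_taylor]
        omega), abs_zero]
      positivity
    · have h5 := congrFun h1 ⟨i, by omega⟩
      unfold jbC at h5
      dsimp only at h5
      rw [if_pos (hj.trans hi), if_pos (hj.trans hi)] at h5
      unfold jaC at h5
      have h6 := of_fl (by positivity) h5
      have h7 : (Polynomial.taylor θ P).coeff i = jt (opl F c w H 2 ω) (tct F w s₀ ω) i -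
          jt (opl F c w H 2 ω') (tct F w s₀ ω') i := by
        rw [← hθe, ← jt_sub, ← hP, ← hθ]
        rfl
      rw [h7]
      exact h6
  have h3 : |jt P (rt F ⌊w * J⌋₊ ω) j| ≤
      2 ^ (D + 1 + 1) * (1 / 2 ^ ((nτ - (j : ℝ) * (τ - w)) * J)) := by
    rw [jt_sh P θ]
    refine jt_sc (η := 1 / 2 ^ (s₀ * J)) (by rw [Polynomial.natDegree_taylor]; exact hPd) hd
      (by positivity) fun i hi => ?_
    have h4 := hco i hi
    refine (mul_le_mul_of_nonneg_right h4 (by positivity)).trans ?_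
    rw [div_pow, one_pow, div_mul_div_comm, one_mul]
    refine one_div_le_one_div_of_le (by positivity) ?_
    rw [← Real.rpow_natCast, ← Real.rpow_mul (by norm_num), ← Real.rpow_add (by norm_num)]
    refine Real.rpow_le_rpow_of_exponent_le (by norm_num) ?_
    have e1 : ((i - j : ℕ) : ℝ) = (i : ℝ) - j := by
      rw [Nat.cast_sub hi]
    have e2 : (0 : ℝ) ≤ (i : ℝ) - j := by
      rw [← e1]
      exact Nat.cast_nonneg _
    have e3 : ((i : ℝ) - j) * ((τ - w) * J) ≤ ((i : ℝ) - j) * (s₀ * J) :=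
      mul_le_mul_of_nonneg_left (mul_le_mul_of_nonneg_right hs hJ0) e2
    rw [e1]
    have e4 : (nτ - (i : ℝ) * (τ - w)) * J + s₀ * J * ((i : ℝ) - j) =
        (nτ - (j : ℝ) * (τ - w)) * J + (((i : ℝ) - j) * (s₀ * J) - ((i : ℝ) - j) * ((τ - w) * J)) := by
      ring
    rw [e4]
    linarith
  rw [hP, jt_sub] at h3
  have h4 := jc_near (F := F) (c := c) (l := 2) (H := H) hw0 hwJ (by positivity) hT h3
  refine floor_sub_le ?_
  push_cast
  exact h4

end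

end Pool.NA24
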