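import Pool.Agent.H90.D2.Hgg
import Pool.Agent.H36.NA.Lit
import Pool.Agent.H42.NDC.Det

/-!
# The time is free of the line and of its own first digits

`tm_drop`: a function of the line and of the first digits of the relative time is the same number of
bits with and without the time in the condition, up to the error of the fullness of the time.
-/

set_option autoImplicit false

namespace Pool.NA24

open Finset Real
open Pool.Agent.H49.Ent Pool.Agent.H32.Dense Pool.STK Pool.KA Pool.KSAT Pool.OWN68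
open Pool.NA36 (tcd tct)
open Pool.PB.Trl (rt rt_mem)

variable {m J : ℕ}

/-- A number of values. -/
theorem log_ceil {x : ℝ} (hx : 0 ≤ x) :
    Real.log (2 * ((⌈(2 : ℝ) ^ x⌉₊ : ℕ) : ℝ) + 1) ≤ x * Real.log 2 + Real.log 5 := by
  have h1 : (1 : ℝ) ≤ 2 ^ x := Real.one_le_rpow (by norm_num) hx
  have h2 := Nat.ceil_lt_add_one (show (0 : ℝ) ≤ 2 ^ x by linarith)
  have h3 : 2 * ((⌈(2 : ℝ) ^ x⌉₊ : ℕ) : ℝ) + 1 ≤ 2 ^ x * 5 := by linarith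
  refine (Real.log_le_log (by positivity) h3).trans ?_
  rw [Real.log_mul (by positivity) (by norm_num), Real.log_rpow (by norm_num)]

/-- The time in units of a window. -/
theorem T_rt (F : Fam m J) (a : ℕ) (ω : F.Ω) :
    (F.T ω : ℝ) = 2 ^ (J - a) * (F.T1 a ω : ℝ) + 2 ^ (J - a) * rt F a ω := by
  unfold rt Fam.T1
  have h1 : (0 : ℝ) < ((2 ^ (J - a) : ℕ) : ℝ) := by positivity
  have h2 : (F.T ω : ℝ) = 2 ^ (J - a) * ((F.T ω / 2 ^ (J - a) : ℕ) : ℝ) +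
      ((F.T ω % 2 ^ (J - a) : ℕ) : ℝ) := by
    have := Nat.div_add_mod (F.T ω) (2 ^ (J - a))
    exact_mod_cast this.symm
  have h3 : (2 : ℝ) ^ (J - a) * (((F.T ω % 2 ^ (J - a) : ℕ) : ℝ) / ((2 ^ (J - a) : ℕ) : ℝ)) =
      ((F.T ω % 2 ^ (J - a) : ℕ) : ℝ) := by
    push_cast
    field_simp
  rw [h3]
  exact h2

/-- **The time behind its first digits.** -/
theorem CH_T_dig {F : Fam m J} {q : F.Ω → ℝ} (hq : IsLaw q) {a : ℕ} {x : ℝ} (hx : 0 ≤ x)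
    (hxJ : x ≤ ((J - a : ℕ) : ℝ)) {V : Type} {z : F.Ω → V}
    (hz : ∀ ω ω', 0 < q ω → 0 < q ω' → z ω = z ω' → F.T1 a ω = F.T1 a ω' ∧
      ⌊(2 : ℝ) ^ x * rt F a ω⌋ = ⌊(2 : ℝ) ^ x * rt F a ω'⌋) :
    CH q F.T z ≤ (((J - a : ℕ) : ℝ) - x) * Real.log 2 + Real.log 5 := by
  have h1 : CH q F.T z ≤ CH q (fun ω => (F.T ω : ℤ)) z :=
    CH_mono_left hq.nonneg fun ω ω' _ _ e => by
      have := (Prod.ext_iff.1 e).1
      simp only at this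
      exact_mod_cast this
  refine h1.trans ?_
  refine (CH_pair hq (fun ω => (F.T ω : ℤ)) z (D := ⌈(2 : ℝ) ^ (((J - a : ℕ) : ℝ) - x)⌉₊)
    fun ω ω' a1 a2 e => ?_).trans (log_ceil (by linarith))
  obtain ⟨e1, e2⟩ := hz ω ω' a1 a2 e
  have h2 : |rt F a ω - rt F a ω'| ≤ 1 / 2 ^ x := Pool.AVG5.of_fl (by positivity) e2
  have h3 := T_rt F a ω
  have h4 := T_rt F a ω'
  rw [← e1] at h4
  have h5 : (F.T ω : ℝ) - F.T ω' = 2 ^ (J - a) * (rt F a ω - rt F a ω') := by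
    rw [h3, h4]
    ring
  have h6 : |(F.T ω : ℝ) - F.T ω'| ≤ 2 ^ (((J - a : ℕ) : ℝ) - x) := by
    rw [h5, abs_mul, abs_of_pos (by positivity), Real.rpow_sub (by norm_num), Real.rpow_natCast,
      div_eq_mul_one_div]
    exact mul_le_mul_of_nonneg_left h2 (by positivity)
  have h7 : |(F.T ω : ℝ) - F.T ω'| ≤ ((⌈(2 : ℝ) ^ (((J - a : ℕ) : ℝ) - x)⌉₊ : ℕ) : ℝ) :=
    h6.trans (Nat.le_ceil _)
  have h8 : ((|(F.T ω : ℤ) - (F.T ω' : ℤ)| : ℤ) : ℝ) ≤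
      (((⌈(2 : ℝ) ^ (((J - a : ℕ) : ℝ) - x)⌉₊ : ℕ) : ℤ) : ℝ) := by
    push_cast
    exact h7
  exact_mod_cast h8

/-- The number of values of the first digits of the relative time. -/
theorem CH_dig_le {F : Fam m J} {q : F.Ω → ℝ} (hq : IsLaw q) {a : ℕ} {x : ℝ} (hx : 0 ≤ x)
    {V : Type} (z : F.Ω → V) :
    CH q (fun ω => ⌊(2 : ℝ) ^ x * rt F a ω⌋) z ≤ x * Real.log 2 + Real.log 5 := by
  refine (CH_pair hq _ z (D := ⌈(2 : ℝ) ^ x⌉₊) fun ω ω' a1 a2 e => ?_).trans (log_ceil hx)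
  have b1 := rt_mem F a ω
  have b2 := rt_mem F a ω'
  have hp : (0 : ℝ) < 2 ^ x := by positivity
  have k : ∀ r : ℝ, r ∈ Set.Icc (0 : ℝ) 1 → 0 ≤ ⌊(2 : ℝ) ^ x * r⌋ ∧
      ⌊(2 : ℝ) ^ x * r⌋ ≤ (⌈(2 : ℝ) ^ x⌉₊ : ℤ) := fun r hr => by
    refine ⟨Int.floor_nonneg.2 (mul_nonneg hp.le hr.1), ?_⟩
    have h1 : (2 : ℝ) ^ x * r ≤ ((⌈(2 : ℝ) ^ x⌉₊ : ℕ) : ℝ) := by
      refine le_trans ?_ (Nat.le_ceil _)
      have := mul_le_mul_of_nonneg_left hr.2 hp.le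
      linarith
    have h2 : ((⌊(2 : ℝ) ^ x * r⌋ : ℤ) : ℝ) ≤ (((⌈(2 : ℝ) ^ x⌉₊ : ℕ) : ℤ) : ℝ) :=
      (Int.floor_le _).trans (by exact_mod_cast h1)
    exact_mod_cast h2
  have k1 := k _ b1
  have k2 := k _ b2
  rw [abs_le]
  constructor
  · linarith [k1.1, k2.2]
  · linarith [k1.2, k2.1]

/-- **The time is free of the line and of its first digits.** -/
theorem tm_drop {F : Fam m J} {q : F.Ω → ℝ} (hq : IsLaw q) {a : ℕ} {x : ℝ} (hx : 0 ≤ x)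
    (hxJ : x ≤ ((J - a : ℕ) : ℝ)) {V E : Type} {z : F.Ω → V} {e : F.Ω → E} {y : ℝ}
    (hT : ((J - a : ℕ) : ℝ) * Real.log 2 - y ≤ CH q F.T (slam F a))
    (hz : ∀ ω ω', 0 < q ω → 0 < q ω' → z ω = z ω' → F.T1 a ω = F.T1 a ω' ∧
      ⌊(2 : ℝ) ^ x * rt F a ω⌋ = ⌊(2 : ℝ) ^ x * rt F a ω'⌋)
    (hze : Det q (fun ω => (slam F a ω, ⌊(2 : ℝ) ^ x * rt F a ω⌋)) (fun ω => (e ω, z ω))) :
    CH q e z ≤ CH q e (fun ω => (F.T ω, z ω)) + y + 2 * Real.log 5 := by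
  have h0 := hq.nonneg
  have h1 := CH_bayes h0 e F.T z
  have h3 : CH q F.T (fun ω => (slam F a ω, ⌊(2 : ℝ) ^ x * rt F a ω⌋)) ≤
      CH q F.T (fun ω => (e ω, z ω)) := CH_mono_cond h0 hze
  have h4 := CH_T_dig hq hx hxJ hz
  have h5 := CH_dig_le hq (a := a) hx (slam F a)
  have h6 := CH_le_add h0 F.T (fun ω => ⌊(2 : ℝ) ^ x * rt F a ω⌋) (slam F a)
  have h7 : CH q F.T (fun ω => (⌊(2 : ℝ) ^ x * rt F a ω⌋, slam F a ω)) ≤
      CH q F.T (fun ω => (slam F a ω, ⌊(2 : ℝ) ^ x * rt F a ω⌋)) :=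
    CH_mono_cond h0 fun ω ω' _ _ k => by
      simp only [Prod.mk.injEq] at k ⊢
      exact ⟨k.2, k.1⟩
  have h8 : (((J - a : ℕ) : ℝ) - x) * Real.log 2 = ((J - a : ℕ) : ℝ) * Real.log 2 -
      x * Real.log 2 := by ring
  rw [h8] at h4
  linarith

end Pool.NA24
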