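import Pool.Agent.H24.NA3.Fld
import Pool.Agent.H24.NA3.Tim
import Pool.Agent.H24.NA3.Tay

/-!
# The fields of the near-alive step on one event

`LiE`: the numbers of a list of jets given a record. `FwF.lo1`, `FwF.up1`: the number of the first jet
given the codes of the orders `≥ 2`. `f2_up`: the orders `≥ 1` behind the natural digits of the first
coefficient. `j2_up`, `j2_lo`: the orders `≥ 1` behind the natural digits of all coefficients.
-/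

set_option autoImplicit false

namespace Pool.NA24

open Finset Real MvPolynomial
open Pool.Agent.H49.Ent Pool.Agent.H32.Dense Pool.STK Pool.KA Pool.KSAT Pool.K2S Pool.PB Pool.S6C
  Pool.GEN Pool.RCD Pool.LA91 Pool.RJ28
open Pool.NDC42 (hgC pcC jtC LbV cJ cJ_nonneg cD cD_nonneg jt_of_pc pc_of_jt jtC_zero)
open Pool.NA36 (vpC f1C f2C opl tcd tct jaC fbC jbC X0 rX rG)
open Pool.PB.Trl (rt rt_mem t_rt)

variable {m J : ℕ}

/-- **The numbers of a list of jets** given a record: from below also given the codes of the second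
kind. -/
structure LiE (F : Fam m J) (c : ℕ → Fin m) (w : ℝ) (n : ℕ → ℝ)
    (H : LnT F → ℕ → MvPolynomial (Option (Fin m)) ℝ) {n' : ℕ} (oB : Fin n' → ℕ)
    (q : F.Ω → ℝ) {V : Type} (z : F.Ω → V) (j k : ℕ) (N : ℕ → ℝ) (a b : ℝ) : Prop where
  lo : a ≤ CH q (ndC F c 2 w H j k N) (fun ω => ((paC F c 2 w n H ω,
    qC F c 2 w H oB (fun i => uN (n 2) w (oB i)) ω), (z ω, F.W ω)))
  up : CH q (ndC F c 2 w H j k N) (fun ω => (paC F c 2 w n H ω, (z ω, F.W ω))) ≤ b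

/-- `s` digits of the first coefficient, the other ones with `s'` digits. -/
noncomputable def mN (s s' w : ℝ) (i : ℕ) : ℝ := if i ≤ 1 then uN s w i else uN s' w i

theorem mN_ge (s s' w : ℝ) {i : ℕ} (hi : 2 ≤ i) : mN s s' w i = uN s' w i := by
  unfold mN
  rw [if_neg (by omega)]

theorem mN_one (s s' w : ℝ) : mN s s' w 1 = uN s w 1 := by
  unfold mN
  rw [if_pos le_rfl]

section

variable {F : Fam m J} {c : ℕ → Fin m} {D : ℕ} {w : ℝ} {n : ℕ → ℝ}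
  {H : LnT F → ℕ → MvPolynomial (Option (Fin m)) ℝ} {K n' : ℕ} {oB : Fin n' → ℕ}
  {q : F.Ω → ℝ} {V V' : Type} {zw : F.Ω → V} {zt : F.Ω → V'} {g : ℝ}

/-- **The first jet from below**, given the codes of the orders `≥ 2`. -/
theorem FwF.lo1 (h : FwF F c D w n H K oB q zw zt g) (h0 : ∀ ω, 0 ≤ q ω) {k : ℕ}
    (hk : k + 1 = K) {s a b a2 b2 : ℝ} (h1 : LiE F c w n H oB q zt 1 K (mN s (n 2) w) a b)
    (h2 : LiE F c w n H oB q zt 2 k (uN (n 2) w) a2 b2) :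
    a - b2 - 2 * g ≤ CH q (jtC F c w H 2 1 s)
      (fun ω => (f2C F c D w n H ω, (vpC F c D w n H ω, (zt ω, F.W ω)))) := by
  subst hk
  have h3 := h.hd h0 rfl (N := mN s (n 2) w) (fun i hi => mN_ge s (n 2) w hi) h1.lo h2.up
  rw [mN_one] at h3
  exact h3

/-- **The first jet from above**, given the codes of the orders `≥ 2`. -/
theorem FwF.up1 (h : FwF F c D w n H K oB q zw zt g) (h0 : ∀ ω, 0 ≤ q ω) {k : ℕ}
    (hk : k + 1 = K) {s a b a2 b2 : ℝ} (h1 : LiE F c w n H oB q zt 1 K (mN s (n 2) w) a b)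
    (h2 : LiE F c w n H oB q zt 2 k (uN (n 2) w) a2 b2) :
    CH q (jtC F c w H 2 1 s) (fun ω => (f2C F c D w n H ω, (vpC F c D w n H ω, (zt ω, F.W ω)))) ≤
      b - a2 + 2 * g := by
  subst hk
  obtain ⟨C, hC⟩ : ∃ C, C = fun ω => (f2C F c D w n H ω, (vpC F c D w n H ω, (zt ω, F.W ω))) :=
    ⟨_, rfl⟩
  rw [← hC]
  have e0 : ∀ ω ω', C ω = C ω' → f2C F c D w n H ω = f2C F c D w n H ω' ∧
      vpC F c D w n H ω = vpC F c D w n H ω' ∧ zt ω = zt ω' ∧ F.W ω = F.W ω' := fun ω ω' e => by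
    rw [hC] at e
    simp only [Prod.mk.injEq] at e
    exact e
  have s1 := CH_le_add h0 (jtC F c w H 2 1 s)
    (fun ω => (ndC F c 2 w H 2 k (uN (n 2) w) ω, paC F c 2 w n H ω)) C
  have s2 := CH_subadd h0 (ndC F c 2 w H 2 k (uN (n 2) w)) (paC F c 2 w n H) C
  have s3 : CH q (ndC F c 2 w H 2 k (uN (n 2) w)) C ≤ g := by
    refine le_trans ?_ (h.l2 k rfl)
    refine (CH_mono_left h0 (X' := fun ω => (ndC F c 2 w H 2 k (uN (n 2) w) ω,
      qC F c 2 w H oB (fun i => uN (n 2) w (oB i)) ω)) fun ω ω' _ _ e =>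
        (Prod.ext_iff.1 (Prod.ext_iff.1 e).1).1).trans (CH_mono_cond h0 fun ω ω' _ _ e => ?_)
    obtain ⟨b1, b2, b3, b4⟩ := e0 ω ω' e
    exact Prod.ext b1 (Prod.ext_iff.1 b4).1
  have s4 : CH q (paC F c 2 w n H) C ≤ g := (CH_mono_cond h0 fun ω ω' _ _ e => by
    obtain ⟨b1, b2, b3, b4⟩ := e0 ω ω' e
    exact Prod.ext b2 b4).trans h.pv
  have s5 : CH q (jtC F c w H 2 1 s) (fun ω => ((ndC F c 2 w H 2 k (uN (n 2) w) ω,
      paC F c 2 w n H ω), C ω)) ≤ CH q (jtC F c w H 2 1 s) (fun ω =>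
      (ndC F c 2 w H 2 k (uN (n 2) w) ω, (paC F c 2 w n H ω, (zt ω, F.W ω)))) :=
    CH_mono_cond h0 fun ω ω' _ _ e => by
      obtain ⟨e1, e2⟩ := Prod.ext_iff.1 e
      obtain ⟨b1, b2, b3, b4⟩ := e0 ω ω' e2
      obtain ⟨e3, e4⟩ := Prod.ext_iff.1 e1
      simp only at e3 e4
      show (_, (_, (_, _))) = (_, (_, (_, _)))
      rw [e3, e4, b3, b4]
  have s6 := cons_pair h0 (jtC F c w H 2 1 s) (ndC F c 2 w H 2 k (uN (n 2) w))
    (ndC F c 2 w H 1 (k + 1) (mN s (n 2) w)) (fun ω => by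
      rw [ndC_cons, ndC_congr (1 + 1) k (N := mN s (n 2) w) (N' := uN (n 2) w)
        fun i h1 _ => mN_ge s (n 2) w h1, mN_one]
      rfl) (fun ω => (paC F c 2 w n H ω, (zt ω, F.W ω)))
  have s7 := CH_chain h0 (jtC F c w H 2 1 s) (ndC F c 2 w H 2 k (uN (n 2) w))
    (fun ω => (paC F c 2 w n H ω, (zt ω, F.W ω)))
  have s8 : CH q (ndC F c 2 w H 2 k (uN (n 2) w)) (fun ω => ((paC F c 2 w n H ω,
      qC F c 2 w H oB (fun i => uN (n 2) w (oB i)) ω), (zt ω, F.W ω))) ≤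
      CH q (ndC F c 2 w H 2 k (uN (n 2) w)) (fun ω => (paC F c 2 w n H ω, (zt ω, F.W ω))) :=
    CH_mono_cond h0 fun ω ω' _ _ e => by
      simp only [Prod.mk.injEq] at e ⊢
      exact ⟨e.1.1, e.2⟩
  have s9 := h1.up
  have s10 := h2.lo
  linarith

/-- **The orders `≥ 1` from above** given the near path and a record, in the letters of the lists. -/
theorem FwF.up_f1 (h : FwF F c D w n H K oB q zw zt g) (h0 : ∀ ω, 0 ≤ q ω) {Γ : Type} {Y : F.Ω → Γ}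
    (hY : Det q Y (fun ω => (vpC F c D w n H ω, (zw ω, F.W ω)))) :
    CH q (f1C F c D w n H) Y ≤ CH q (ndC F c 2 w H 1 K (uN (n 2) w)) Y +
      CH q (qC F c 2 w H oB (fun i => uN (n 2) w (oB i)))
        (fun ω => (paC F c 2 w n H ω, (zw ω, F.W ω))) + 3 * g := by
  obtain ⟨M, hM⟩ : ∃ M, M = ndC F c 2 w H 1 K (uN (n 2) w) := ⟨_, rfl⟩
  obtain ⟨Q, hQ⟩ : ∃ Q, Q = qC F c 2 w H oB (fun i => uN (n 2) w (oB i)) := ⟨_, rfl⟩
  rw [← hM, ← hQ]
  have hc1 := h.c1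
  rw [← hM, ← hQ] at hc1
  have e0 : ∀ ω ω', 0 < q ω → 0 < q ω' → Y ω = Y ω' → vpC F c D w n H ω = vpC F c D w n H ω' ∧
      zw ω = zw ω' ∧ F.W ω = F.W ω' := fun ω ω' a1 a2 e => by
    have e1 := hY ω ω' a1 a2 e
    simp only [Prod.mk.injEq] at e1
    exact e1
  have s1 := CH_le_add h0 (f1C F c D w n H) (fun ω => (M ω, Q ω)) Y
  have s2 := CH_subadd h0 M Q Y
  have s3 := CH_le_add h0 Q (paC F c 2 w n H) Y
  have s4 : CH q (paC F c 2 w n H) Y ≤ g := (CH_mono_cond h0 fun ω ω' a1 a2 e => by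
    obtain ⟨b1, b2, b3⟩ := e0 ω ω' a1 a2 e
    exact Prod.ext b1 b3).trans h.pv
  have s5 : CH q Q (fun ω => (paC F c 2 w n H ω, Y ω)) ≤
      CH q Q (fun ω => (paC F c 2 w n H ω, (zw ω, F.W ω))) := CH_mono_cond h0 fun ω ω' a1 a2 e => by
    obtain ⟨e1, e2⟩ := Prod.ext_iff.1 e
    obtain ⟨b1, b2, b3⟩ := e0 ω ω' a1 a2 e2
    simp only [Prod.mk.injEq]
    exact ⟨e1, b2, b3⟩
  have s6 := CH_le_add h0 (f1C F c D w n H) (paC F c 2 w n H) (fun ω => ((M ω, Q ω), Y ω))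
  have s7 : CH q (paC F c 2 w n H) (fun ω => ((M ω, Q ω), Y ω)) ≤ CH q (paC F c 2 w n H) Y :=
    CH_mono_cond h0 fun ω ω' _ _ e => (Prod.ext_iff.1 e).2
  have s8 : CH q (f1C F c D w n H) (fun ω => (paC F c 2 w n H ω, ((M ω, Q ω), Y ω))) ≤ g :=
    (CH_mono_cond h0 fun ω ω' a1 a2 e => by
      simp only [Prod.mk.injEq] at e
      obtain ⟨e1, ⟨e2, e3⟩, e4⟩ := e
      obtain ⟨b1, b2, b3⟩ := e0 ω ω' a1 a2 e4
      show (_, ((_, _), (_, _))) = (_, ((_, _), (_, _)))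
      rw [e1, e2, e3, b2, b3]).trans hc1
  linarith

/-- **The orders `≥ 1` from below** given the near path and a record, in the letters of the lists. -/
theorem FwF.lo_f1 (h : FwF F c D w n H K oB q zw zt g) (h0 : ∀ ω, 0 ≤ q ω) {a b : ℝ}
    (h1 : LiE F c w n H oB q zt 1 K (uN (n 2) w) a b) :
    a + CH q (qC F c 2 w H oB (fun i => uN (n 2) w (oB i)))
        (fun ω => (paC F c 2 w n H ω, (zt ω, F.W ω))) - 3 * g ≤
      CH q (f1C F c D w n H) (fun ω => (vpC F c D w n H ω, (zt ω, F.W ω))) := by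
  obtain ⟨Q, hQ⟩ : ∃ Q, Q = qC F c 2 w H oB (fun i => uN (n 2) w (oB i)) := ⟨_, rfl⟩
  obtain ⟨C, hC⟩ : ∃ C, C = fun ω => (vpC F c D w n H ω, (zt ω, F.W ω)) := ⟨_, rfl⟩
  obtain ⟨M, hM⟩ : ∃ M, M = ndC F c 2 w H 1 K (uN (n 2) w) := ⟨_, rfl⟩
  have k1 := h.l1
  have k2 := h1.lo
  rw [← hQ] at k1 k2 ⊢
  rw [← hM] at k1 k2
  rw [← hC]
  have e0 : ∀ ω ω', C ω = C ω' → vpC F c D w n H ω = vpC F c D w n H ω' ∧
      zt ω = zt ω' ∧ F.W ω = F.W ω' := fun ω ω' e => by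
    rw [hC] at e
    simp only [Prod.mk.injEq] at e
    exact e
  have s1 := CH_le_add h0 (fun ω => (M ω, Q ω)) (f1C F c D w n H) C
  have s2 : CH q (fun ω => (M ω, Q ω)) (fun ω => (f1C F c D w n H ω, C ω)) ≤ g :=
    (CH_mono_cond h0 fun ω ω' _ _ e => by
      obtain ⟨e1, e2⟩ := Prod.ext_iff.1 e
      obtain ⟨b1, b2, b3⟩ := e0 ω ω' e2
      exact Prod.ext e1 (Prod.ext_iff.1 b3).1).trans k1
  have s3 := CH_chain h0 M Q C
  have s4 : CH q Q (fun ω => (paC F c 2 w n H ω, (zt ω, F.W ω))) ≤ CH q Q C + g := by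
    have t1 := CH_le_add h0 Q (vpC F c D w n H) (fun ω => (paC F c 2 w n H ω, (zt ω, F.W ω)))
    have t2 : CH q (vpC F c D w n H) (fun ω => (paC F c 2 w n H ω, (zt ω, F.W ω))) ≤ g :=
      (CH_mono_cond h0 fun ω ω' a1 a2 e => by
        simp only [Prod.mk.injEq] at e ⊢
        exact ⟨e.1, h.dz ω ω' a1 a2 e.2.1, e.2.2⟩).trans h.vp
    have t3 : CH q Q (fun ω => (vpC F c D w n H ω, (paC F c 2 w n H ω, (zt ω, F.W ω)))) ≤
        CH q Q C := CH_mono_cond h0 fun ω ω' a1 a2 e => by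
      rw [hC]
      simp only [Prod.mk.injEq] at e ⊢
      exact ⟨e.1, e.2.2⟩
    linarith
  have s5 : a ≤ CH q M (fun ω => (Q ω, C ω)) + g := by
    have t1 := CH_le_add h0 M (vpC F c D w n H)
      (fun ω => ((paC F c 2 w n H ω, Q ω), (zt ω, F.W ω)))
    have t2 : CH q (vpC F c D w n H) (fun ω => ((paC F c 2 w n H ω, Q ω), (zt ω, F.W ω))) ≤ g :=
      (CH_mono_cond h0 fun ω ω' a1 a2 e => by
        simp only [Prod.mk.injEq] at e ⊢
        exact ⟨e.1.1, h.dz ω ω' a1 a2 e.2.1, e.2.2⟩).trans h.vp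
    have t3 : CH q M (fun ω => (vpC F c D w n H ω, ((paC F c 2 w n H ω, Q ω), (zt ω, F.W ω)))) ≤
        CH q M (fun ω => (Q ω, C ω)) := CH_mono_cond h0 fun ω ω' a1 a2 e => by
      rw [hC]
      simp only [Prod.mk.injEq] at e ⊢
      exact ⟨e.2.1.2, e.1, e.2.2⟩
    linarith
  linarith

/-- **A list behind its first digits.** -/
theorem cut_li (hq : IsLaw q) {N N' : ℕ → ℝ} {j k : ℕ} {Γ : Type} {Y : F.Ω → Γ}
    (hN : ∀ i, j ≤ i → i < j + k → N' i ≤ N i) {a b a' b' x : ℝ}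
    (h1 : LiE F c w n H oB q zw j k N a b) (h2 : LiE F c w n H oB q zw j k N' a' b')
    (hp : CH q (paC F c 2 w n H) Y ≤ g) (hL : CH q (ndC F c 2 w H j k N') Y ≤ x)
    (hY : Det q Y (fun ω => (zw ω, F.W ω))) :
    CH q (ndC F c 2 w H j k N) Y ≤ b - a' + g + x + k * Real.log 9 := by
  have h0 := hq.nonneg
  obtain ⟨M, hM⟩ : ∃ M, M = ndC F c 2 w H j k N := ⟨_, rfl⟩
  obtain ⟨L, hLL⟩ : ∃ L, L = ndC F c 2 w H j k N' := ⟨_, rfl⟩
  obtain ⟨C, hC⟩ : ∃ C, C = fun ω => (paC F c 2 w n H ω, (zw ω, F.W ω)) := ⟨_, rfl⟩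
  have k1 := h1.up
  have k2 := h2.lo
  have k3 := nd_few (F := F) (c := c) (r := 2) (w := w) (H := H) hq j k (N := N) (N' := N')
    (γ := 0) le_rfl fun i h3 h4 => by
      have := hN i h3 h4
      linarith
  rw [← hM, ← hC] at k1
  rw [← hLL] at k2 hL
  rw [← hM, ← hLL, zero_mul, zero_add] at k3
  rw [← hM]
  have s1 := CH_le_add h0 M (fun ω => (L ω, paC F c 2 w n H ω)) Y
  have s2 := CH_subadd h0 L (paC F c 2 w n H) Y
  have s3 : CH q M (fun ω => ((L ω, paC F c 2 w n H ω), Y ω)) ≤ CH q M (fun ω => (L ω, C ω)) :=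
    CH_mono_cond h0 fun ω ω' a1 a2 e => by
      obtain ⟨e1, e2⟩ := Prod.ext_iff.1 e
      have e3 := hY ω ω' a1 a2 e2
      obtain ⟨e4, e5⟩ := Prod.ext_iff.1 e1
      simp only [Prod.mk.injEq] at e3
      simp only at e4 e5
      rw [hC]
      simp only [Prod.mk.injEq]
      exact ⟨e4, e5, e3.1, e3.2⟩
  have s4 : CH q L (fun ω => ((paC F c 2 w n H ω,
      qC F c 2 w H oB (fun i => uN (n 2) w (oB i)) ω), (zw ω, F.W ω))) ≤ CH q L C :=
    CH_mono_cond h0 fun ω ω' a1 a2 e => by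
      rw [hC]
      simp only [Prod.mk.injEq] at e ⊢
      exact ⟨e.1.1, e.2⟩
  have s5 := cut_up h0 M L C C (fun _ _ _ _ e => e) k1 (k2.trans s4) k3
  linarith

end

end Pool.NA24
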