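import Pool.Agent.H32.Dense.Pair
import Pool.Agent.H46.MIC.Cpn

/-!
# Lists of codes: the head given everything else

Law level. `head_lo`: the head of a list given data which are few bits given the tail and the base.
`free_lo`: a datum given a pair which is full given it. `cut_up`: the head behind its first digits.
-/

set_option autoImplicit false

namespace Pool.NA24

open Finset Real
open Pool.Agent.H49.Ent Pool.Agent.H32.Dense Pool.STK

section

variable {Ω : Type} [Fintype Ω] {p : Ω → ℝ}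

/-- The head and the tail of a list. -/
theorem cons_pair (h0 : ∀ ω, 0 ≤ p ω) {n : ℕ} (U : Ω → ℤ) (M : Ω → Fin n → ℤ)
    (L : Ω → Fin (n + 1) → ℤ) (hL : ∀ ω, L ω = Fin.cons (U ω) (M ω)) {β : Type} (C : Ω → β) :
    CH p L C = CH p (fun ω => (U ω, M ω)) C := by
  refine CH_congr h0 ?_ ?_ (fun _ _ _ _ h => h) (fun _ _ _ _ h => h)
  · intro ω ω' _ _ hh
    have h4 := (Prod.ext_iff.1 hh).1
    simp only [hL] at h4
    have h5 := congrFun h4 0
    simp only [Fin.cons_zero] at h5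
    refine Prod.ext h5 (funext fun i => ?_)
    have h6 := congrFun h4 i.succ
    simp only [Fin.cons_succ] at h6
    exact h6
  · intro ω ω' _ _ hh
    have h4 := Prod.ext_iff.1 (Prod.ext_iff.1 hh).1
    simp only at h4
    rw [hL, hL, h4.1, h4.2]

/-- **The head of a list** given data which are few bits given the tail and the base. -/
theorem head_lo (h0 : ∀ ω, 0 ≤ p ω) {n : ℕ} (U : Ω → ℤ) (M : Ω → Fin n → ℤ)
    (L : Ω → Fin (n + 1) → ℤ) (hL : ∀ ω, L ω = Fin.cons (U ω) (M ω)) {P Q Z Y X' : Type}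
    (pa : Ω → P) (q : Ω → Q) (z : Ω → Z) (y : Ω → Y) (X : Ω → X') {a b g : ℝ}
    (h1 : a ≤ CH p L (fun ω => ((pa ω, q ω), (z ω, y ω))))
    (h2 : CH p M (fun ω => (pa ω, (z ω, y ω))) ≤ b)
    (h3 : CH p X (fun ω => (M ω, ((pa ω, q ω), (z ω, y ω)))) ≤ g) : a - b - g ≤ CH p U X := by
  rw [cons_pair h0 U M L hL] at h1
  have c1 := CH_chain h0 U M (fun ω => ((pa ω, q ω), (z ω, y ω)))
  have c2 : CH p M (fun ω => ((pa ω, q ω), (z ω, y ω))) ≤ CH p M (fun ω => (pa ω, (z ω, y ω))) :=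
    CH_mono_cond h0 fun ω ω' _ _ hh => by
      simp only [Prod.mk.injEq] at hh ⊢
      exact ⟨hh.1.1, hh.2⟩
  have c3 := CH_le_add h0 U X (fun ω => (M ω, ((pa ω, q ω), (z ω, y ω))))
  have c4 : CH p U (fun ω => (X ω, (M ω, ((pa ω, q ω), (z ω, y ω))))) ≤ CH p U X :=
    CH_mono_cond h0 fun ω ω' _ _ hh => (Prod.ext_iff.1 hh).1
  linarith

/-- **A datum given a function which is full given it.** -/
theorem free_lo (h0 : ∀ ω, 0 ≤ p ω) {S T R : Type} (E : Ω → S) (V : Ω → T) (Y : Ω → R) {l u : ℝ}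
    (h1 : l ≤ CH p V (fun ω => (E ω, Y ω))) (h2 : CH p V Y ≤ u) :
    CH p E Y - (u - l) ≤ CH p E (fun ω => (V ω, Y ω)) := by
  have := CH_bayes h0 E V Y
  linarith

/-- **The head behind its first digits** `fb`. -/
theorem cut_up (h0 : ∀ ω, 0 ≤ p ω) {S T R R' : Type} (f : Ω → S) (fb : Ω → T) (C : Ω → R)
    (C' : Ω → R') (hC : Det p C C') {a b g : ℝ} (h1 : CH p f C' ≤ a) (h2 : b ≤ CH p fb C)
    (h3 : CH p fb f ≤ g) : CH p f (fun ω => (fb ω, C ω)) ≤ a - b + g := by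
  have c1 := CH_bayes h0 f fb C
  have c2 : CH p f C ≤ CH p f C' := CH_mono_cond h0 hC
  have c3 : CH p fb (fun ω => (f ω, C ω)) ≤ CH p fb f :=
    CH_mono_cond h0 fun ω ω' _ _ hh => (Prod.ext_iff.1 hh).1
  linarith

/-- Fewer data in the condition, which are few bits given the other ones. -/
theorem few_in (h0 : ∀ ω, 0 ≤ p ω) {S T R R' : Type} (X : Ω → S) (Y : Ω → T) (Z : Ω → R)
    (Z' : Ω → R') (hZ : Det p (fun ω => (Y ω, Z ω)) Z') {g : ℝ} (h : CH p Y Z ≤ g) :
    CH p X Z ≤ CH p X Z' + g := by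
  have c1 := CH_le_add h0 X Y Z
  have c2 : CH p X (fun ω => (Y ω, Z ω)) ≤ CH p X Z' := CH_mono_cond h0 hZ
  linarith

end

end Pool.NA24
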