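import Pool.Agent.H24.NA3.Lab
import Pool.Agent.H24.NA3.Law
import Pool.Agent.H36.NA.Ded

/-!
# Codes and lists

`uN`: the digits of the codes of all orders: `s` digits at the relative time of the window. `nd_of_pc`,
`q_of_pc`: the lists from the codes and the time. `pc_of_nd`: the codes from the lists. `nd_few`: fewer
digits. `ndC_cons`: the first jet and the other ones.
-/

set_option autoImplicit false

namespace Pool.NA24

open Finset Real MvPolynomial
open Pool.Agent.H49.Ent Pool.Agent.H32.Dense Pool.STK Pool.KA Pool.KSAT Pool.K2S Pool.PB Pool.S6C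
  Pool.GEN Pool.RCD Pool.LA91 Pool.RJ28
open Pool.NDC42 (hgC pcC jtC LbV cJ cJ_nonneg cD cD_nonneg jt_of_pc pc_of_jt jtC_zero)

variable {m J : ℕ}

/-- The digits of the jets when every coefficient in the relative time of `w` has `s` digits. -/
noncomputable def uN (s w : ℝ) (j : ℕ) : ℝ := s - (j : ℝ) * w

/-- The constants of a list. -/
noncomputable def cL (D j n : ℕ) : ℝ := ∑ i ∈ range n, cJ D (j + i)

theorem cL_nonneg (D j n : ℕ) : 0 ≤ cL D j n := Finset.sum_nonneg fun _ _ => cJ_nonneg D _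

section

variable {F : Fam m J} {c : ℕ → Fin m} {D r : ℕ} {w s : ℝ}
  {H : LnT F → ℕ → MvPolynomial (Option (Fin m)) ℝ} {q : F.Ω → ℝ} {Γ : Type} {Y : F.Ω → Γ}

theorem ndC_apply (j n : ℕ) (ω : F.Ω) (i : Fin n) :
    ndC F c r w H j n (uN s w) ω i = jtC F c w H r (odv j i) s ω := rfl

theorem ndC_cons (j n : ℕ) (N : ℕ → ℝ) (ω : F.Ω) :
    ndC F c r w H j (n + 1) N ω = Fin.cons
      (⌊(2 : ℝ) ^ (N j * J) * ojet F (c r) j (H (slam F ⌊w * J⌋₊ ω) r) ω⌋)
      (ndC F c r w H (j + 1) n N ω) := by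
  funext i
  refine Fin.cases ?_ (fun i => ?_) i
  · unfold ndC
    simp only [Fin.cons_zero]
    rw [odv_z]
  · unfold ndC
    simp only [Fin.cons_succ]
    rw [odv_s]

theorem ndC_congr (j n : ℕ) {N N' : ℕ → ℝ} (h : ∀ i, j ≤ i → i < j + n → N i = N' i) :
    ndC F c r w H j n N = ndC F c r w H j n N' := by
  funext ω i
  unfold ndC
  rw [h (odv j i) (by unfold odv; omega) (by unfold odv; have := i.2; omega)]

/-- **The lists from the codes and the time.** -/
theorem nd_of_pc (hw0 : 0 ≤ w) (hw1 : w ≤ 1) (hdeg : ∀ x, (H x r).totalDegree ≤ D) (hq : IsLaw q)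
    {j₀ j n : ℕ} (hj : j₀ ≤ j) (hY : ∀ ω ω', 0 < q ω → 0 < q ω' → Y ω = Y ω' →
      F.T ω = F.T ω' ∧ pcC F c D w H r j₀ s ω = pcC F c D w H r j₀ s ω') :
    CH q (ndC F c r w H j n (uN s w)) Y ≤ cL D j n := by
  refine (Pool.KS3.CH_pi_le hq.nonneg (fun ω (i : Fin n) =>
    ndC F c r w H j n (uN s w) ω i) Y).trans ?_
  unfold cL
  rw [← Fin.sum_univ_eq_sum_range (fun i => cJ D (j + i)) n]
  refine Finset.sum_le_sum fun i _ => ?_
  exact jt_of_pc (j₀ := j₀) (j := odv j i) hw0 hw1 (le_refl s) hdeg (by unfold odv; omega) hq Y hY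

theorem q_of_pc (hw0 : 0 ≤ w) (hw1 : w ≤ 1) (hdeg : ∀ x, (H x r).totalDegree ≤ D) (hq : IsLaw q)
    {j₀ n' : ℕ} {oB : Fin n' → ℕ} (hj : ∀ i, j₀ ≤ oB i)
    (hY : ∀ ω ω', 0 < q ω → 0 < q ω' → Y ω = Y ω' →
      F.T ω = F.T ω' ∧ pcC F c D w H r j₀ s ω = pcC F c D w H r j₀ s ω') :
    CH q (qC F c r w H oB (fun i => uN s w (oB i))) Y ≤ ∑ i, cJ D (oB i) := by
  refine (Pool.KS3.CH_pi_le hq.nonneg (fun ω (i : Fin n') =>
    qC F c r w H oB (fun i => uN s w (oB i)) ω i) Y).trans ?_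
  refine Finset.sum_le_sum fun i _ => ?_
  exact jt_of_pc (j₀ := j₀) (j := oB i) hw0 hw1 (le_refl s) hdeg (hj i) hq Y hY

/-- **The codes from the lists.** -/
theorem pc_of_nd (hw0 : 0 ≤ w) (hw1 : w ≤ 1) (hdeg : ∀ x, (H x r).totalDegree ≤ D) (hq : IsLaw q)
    {K j₀ n n' : ℕ} (hn : j₀ + n = K + 1) {oB : Fin n' → ℕ} {g : ℝ} (hg : 0 ≤ g)
    (hT : ∀ ω ω', 0 < q ω → 0 < q ω' → Y ω = Y ω' → F.T ω = F.T ω')
    (hM : ∀ ω ω', 0 < q ω → 0 < q ω' → Y ω = Y ω' →
      ndC F c r w H j₀ n (uN s w) ω = ndC F c r w H j₀ n (uN s w) ω')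
    (hQ : ∀ ω ω', 0 < q ω → 0 < q ω' → Y ω = Y ω' →
      qC F c r w H oB (fun i => uN s w (oB i)) ω = qC F c r w H oB (fun i => uN s w (oB i)) ω')
    (hd : ∀ j, K < j → j ≤ D + 1 → (∃ i, oB i = j) ∨ CH q (jtC F c w H r j s) Y ≤ g) :
    CH q (pcC F c D w H r j₀ s) Y ≤ (D + 2) * g + cD D := by
  have h0 := hq.nonneg
  have h1 := pc_of_jt hw0 hw1 hdeg hq Y hT (g := fun _ => g) (j₀ := j₀) (s := s)
    (c := c) (fun j h1 h2 => ?_) fun _ => hg
  · rw [Finset.sum_const, Finset.card_range, nsmul_eq_mul] at h1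
    push_cast at h1
    exact h1
  · rcases Nat.lt_or_ge K j with h3 | h3
    · rcases hd j h3 h2 with ⟨i, hi⟩ | h4
      · rw [CH_eq_zero h0 fun ω ω' a b e => ?_]
        · exact hg
        · have h5 := congrFun (hQ ω ω' a b e) i
          unfold qC at h5
          dsimp only at h5
          rw [hi] at h5
          exact h5
      · exact h4
    · rw [CH_eq_zero h0 fun ω ω' a b e => ?_]
      · exact hg
      · have h5 := congrFun (hM ω ω' a b e) ⟨j - j₀, by omega⟩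
        rw [ndC_apply, ndC_apply] at h5
        have e1 : odv j₀ (⟨j - j₀, by omega⟩ : Fin n) = j := by
          unfold odv
          simp only
          omega
        rw [e1] at h5
        exact h5

/-- **Fewer digits** of all jets of a list. -/
theorem nd_few (hq : IsLaw q) (j n : ℕ) {N N' : ℕ → ℝ} {γ : ℝ} (hγ : 0 ≤ γ)
    (h : ∀ i, j ≤ i → i < j + n → N' i ≤ N i + γ) :
    CH q (ndC F c r w H j n N') (ndC F c r w H j n N) ≤ n * (γ * J + Real.log 9) := by
  have h0 := hq.nonneg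
  have hJ0 : (0 : ℝ) ≤ J := Nat.cast_nonneg J
  have hl2 : Real.log 2 ≤ 1 := by
    have := Real.log_two_lt_d9
    linarith
  refine (Pool.KS3.CH_pi_le h0 (fun ω (i : Fin n) => ndC F c r w H j n N' ω i)
    (ndC F c r w H j n N)).trans ?_
  refine (Finset.sum_le_sum (g := fun _ => γ * J + Real.log 9) fun i _ => ?_).trans (le_of_eq ?_)
  · have h2 := Pool.TWO28.ch_dig hq (fun ω => ojet F (c r) (odv j i)
      (H (slam F ⌊w * J⌋₊ ω) r) ω) (J := J) (n := N' (odv j i)) (n' := N (odv j i)) (γ := γ)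
      (h _ (by unfold odv; omega) (by unfold odv; have := i.2; omega)) hγ
    have h3 : CH q (fun ω => ndC F c r w H j n N' ω i) (ndC F c r w H j n N) ≤
        CH q (fun ω => ndC F c r w H j n N' ω i) (fun ω => ndC F c r w H j n N ω i) :=
      CH_mono_cond h0 fun ω ω' _ _ hh => congrFun hh i
    have h7 : γ * J * Real.log 2 ≤ γ * J * 1 :=
      mul_le_mul_of_nonneg_left hl2 (mul_nonneg hγ hJ0)
    have h8 : CH q (fun ω => ndC F c r w H j n N' ω i) (fun ω => ndC F c r w H j n N ω i) ≤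
        γ * J * Real.log 2 + Real.log 9 := h2
    linarith
  · rw [Finset.sum_const, Finset.card_univ, Fintype.card_fin, nsmul_eq_mul]

end

end Pool.NA24
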