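import Pool.Agent.H24.NA3.Few

/-!
# The letters of the near-alive step from the numbers: one event

For a law `q` and records `zw`, `zt` (of the windows `w`, `τ`) of which the second one determines the
first one. `FwF`: the few-bits relations between codes and lists. `FwF.fu`: the far height is full.
`FwF.hd`: the head of a list is full given the tail. `FwF.fr`: given the far height as well.
-/

set_option autoImplicit false

namespace Pool.NA24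

open Finset Real MvPolynomial
open Pool.Agent.H49.Ent Pool.Agent.H32.Dense Pool.STK Pool.KA Pool.KSAT Pool.K2S Pool.PB Pool.S6C
  Pool.GEN Pool.RCD Pool.LA91 Pool.RJ28
open Pool.NDC42 (hgC pcC jtC LbV cJ cJ_nonneg cD cD_nonneg jt_of_pc pc_of_jt jtC_zero)
open Pool.NA36 (vpC f1C f2C)

variable {m J : ℕ}

/-- **The few-bits relations** between codes and lists: orders up to `K`, the orders `oB` of the second
kind. -/
structure FwF (F : Fam m J) (c : ℕ → Fin m) (D : ℕ) (w : ℝ) (n : ℕ → ℝ)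
    (H : LnT F → ℕ → MvPolynomial (Option (Fin m)) ℝ) (K : ℕ) {n' : ℕ} (oB : Fin n' → ℕ)
    (q : F.Ω → ℝ) {V V' : Type} (zw : F.Ω → V) (zt : F.Ω → V') (g : ℝ) : Prop where
  dz : Det q zt zw
  vp : CH q (vpC F c D w n H) (fun ω => (paC F c 2 w n H ω, (zw ω, F.W ω))) ≤ g
  pv : CH q (paC F c 2 w n H) (fun ω => (vpC F c D w n H ω, F.W ω)) ≤ g
  c1 : CH q (f1C F c D w n H) (fun ω => (ndC F c 2 w H 1 K (uN (n 2) w) ω,
    ((paC F c 2 w n H ω, qC F c 2 w H oB (fun i => uN (n 2) w (oB i)) ω), (zw ω, F.W ω)))) ≤ g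
  c2 : ∀ k, k + 1 = K → CH q (f2C F c D w n H) (fun ω => (ndC F c 2 w H 2 k (uN (n 2) w) ω,
    ((paC F c 2 w n H ω, qC F c 2 w H oB (fun i => uN (n 2) w (oB i)) ω), (zw ω, F.W ω)))) ≤ g
  l1 : CH q (fun ω => (ndC F c 2 w H 1 K (uN (n 2) w) ω,
    qC F c 2 w H oB (fun i => uN (n 2) w (oB i)) ω)) (fun ω => (f1C F c D w n H ω, F.T ω)) ≤ g
  l2 : ∀ k, k + 1 = K → CH q (fun ω => (ndC F c 2 w H 2 k (uN (n 2) w) ω,
    qC F c 2 w H oB (fun i => uN (n 2) w (oB i)) ω)) (fun ω => (f2C F c D w n H ω, F.T ω)) ≤ g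

/-- The codes of the orders `≥ 1` determine those of the orders `≥ 2`. -/
theorem det_f2 (F : Fam m J) (c : ℕ → Fin m) (D : ℕ) (w : ℝ) (n : ℕ → ℝ)
    (H : LnT F → ℕ → MvPolynomial (Option (Fin m)) ℝ) (ω ω' : F.Ω)
    (h : f1C F c D w n H ω = f1C F c D w n H ω') : f2C F c D w n H ω = f2C F c D w n H ω' := by
  funext a
  have h1 := congrFun h a
  unfold f1C pcC Pool.AVG71.cod at h1
  unfold f2C pcC Pool.AVG71.cod
  by_cases ha : 2 ≤ (a : ℕ)
  · rw [if_pos (by omega : 1 ≤ (a : ℕ)), if_pos (by omega : 1 ≤ (a : ℕ))] at h1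
    rw [if_pos ha, if_pos ha]
    exact h1
  · rw [if_neg ha, if_neg ha]

section

variable {F : Fam m J} {c : ℕ → Fin m} {D : ℕ} {w : ℝ} {n : ℕ → ℝ}
  {H : LnT F → ℕ → MvPolynomial (Option (Fin m)) ℝ} {K n' : ℕ} {oB : Fin n' → ℕ}
  {q : F.Ω → ℝ} {V V' : Type} {zw : F.Ω → V} {zt : F.Ω → V'} {nt g : ℝ}

/-- **The far height is full** given all the other data. -/
theorem FwF.fu (h : FwF F c D w n H K oB q zw zt g) (h0 : ∀ ω, 0 ≤ q ω) {a b : ℝ}
    (h1 : a ≤ CH q (ndC F c 2 w H 0 (K + 1) (uN (n 2) w)) (fun ω => ((paC F c 2 w n H ω,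
      qC F c 2 w H oB (fun i => uN (n 2) w (oB i)) ω), (zt ω, F.W ω))))
    (h2 : CH q (ndC F c 2 w H 1 K (uN (n 2) w)) (fun ω => (paC F c 2 w n H ω, (zt ω, F.W ω))) ≤ b) :
    a - b - 2 * g ≤ CH q (hgC F c w H 2 (n 2))
      (fun ω => (f1C F c D w n H ω, (vpC F c D w n H ω, (zt ω, F.W ω)))) := by
  refine head_lo h0 (hgC F c w H 2 (n 2)) (ndC F c 2 w H 1 K (uN (n 2) w)) _ (fun ω => ?_)
    (paC F c 2 w n H) (qC F c 2 w H oB (fun i => uN (n 2) w (oB i))) zt F.W _ h1 h2 ?_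
  · rw [ndC_cons]
    congr 1
    unfold hgC uN
    rw [Nat.cast_zero, zero_mul, sub_zero]
  · obtain ⟨C, hC⟩ : ∃ C, C = fun ω => (ndC F c 2 w H 1 K (uN (n 2) w) ω, ((paC F c 2 w n H ω,
      qC F c 2 w H oB (fun i => uN (n 2) w (oB i)) ω), (zt ω, F.W ω))) := ⟨_, rfl⟩
    rw [← hC]
    have e0 : ∀ ω ω', 0 < q ω → 0 < q ω' → C ω = C ω' →
        ndC F c 2 w H 1 K (uN (n 2) w) ω = ndC F c 2 w H 1 K (uN (n 2) w) ω' ∧
        paC F c 2 w n H ω = paC F c 2 w n H ω' ∧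
        qC F c 2 w H oB (fun i => uN (n 2) w (oB i)) ω =
          qC F c 2 w H oB (fun i => uN (n 2) w (oB i)) ω' ∧ zt ω = zt ω' ∧ F.W ω = F.W ω' ∧
        zw ω = zw ω' := fun ω ω' a1 a2 e => by
      rw [hC] at e
      simp only [Prod.mk.injEq] at e
      exact ⟨e.1, e.2.1.1, e.2.1.2, e.2.2.1, e.2.2.2, h.dz ω ω' a1 a2 e.2.2.1⟩
    have s1 : CH q (f1C F c D w n H) C ≤ g := (CH_mono_cond h0 fun ω ω' a1 a2 e => by
      obtain ⟨b1, b2, b3, b4, b5, b6⟩ := e0 ω ω' a1 a2 e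
      show (_, ((_, _), (_, _))) = (_, ((_, _), (_, _)))
      rw [b1, b2, b3, b5, b6]).trans h.c1
    have s2 : CH q (vpC F c D w n H) C ≤ g := (CH_mono_cond h0 fun ω ω' a1 a2 e => by
      obtain ⟨b1, b2, b3, b4, b5, b6⟩ := e0 ω ω' a1 a2 e
      show (_, (_, _)) = (_, (_, _))
      rw [b2, b5, b6]).trans h.vp
    have s3 : CH q (fun ω => (f1C F c D w n H ω, (vpC F c D w n H ω, (zt ω, F.W ω)))) C ≤
        CH q (fun ω => (f1C F c D w n H ω, vpC F c D w n H ω)) C :=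
      CH_mono_left h0 fun ω ω' a1 a2 e => by
        obtain ⟨e1, e2⟩ := Prod.ext_iff.1 e
        obtain ⟨b1, b2, b3, b4, b5, b6⟩ := e0 ω ω' a1 a2 e2
        obtain ⟨e3, e4⟩ := Prod.ext_iff.1 e1
        simp only at e3 e4
        show (_, (_, (_, _))) = (_, (_, (_, _)))
        rw [e3, e4, b4, b5]
    have s4 := CH_subadd h0 (f1C F c D w n H) (vpC F c D w n H) C
    linarith

/-- **The head of a list is full** given the orders `≥ 2` and all the other data. -/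
theorem FwF.hd (h : FwF F c D w n H K oB q zw zt g) (h0 : ∀ ω, 0 ≤ q ω) {k : ℕ}
    (hk : k + 1 = K) {N : ℕ → ℝ} (hN : ∀ i, 2 ≤ i → N i = uN (n 2) w i) {a b : ℝ}
    (h1 : a ≤ CH q (ndC F c 2 w H 1 (k + 1) N) (fun ω => ((paC F c 2 w n H ω,
      qC F c 2 w H oB (fun i => uN (n 2) w (oB i)) ω), (zt ω, F.W ω))))
    (h2 : CH q (ndC F c 2 w H 2 k (uN (n 2) w)) (fun ω => (paC F c 2 w n H ω, (zt ω, F.W ω))) ≤ b) :
    a - b - 2 * g ≤ CH q (fun ω => ⌊(2 : ℝ) ^ (N 1 * J) *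
        ojet F (c 2) 1 (H (slam F ⌊w * J⌋₊ ω) 2) ω⌋)
      (fun ω => (f2C F c D w n H ω, (vpC F c D w n H ω, (zt ω, F.W ω)))) := by
  refine head_lo h0 _ (ndC F c 2 w H 2 k (uN (n 2) w)) _ (fun ω => ?_)
    (paC F c 2 w n H) (qC F c 2 w H oB (fun i => uN (n 2) w (oB i))) zt F.W _ h1 h2 ?_
  · rw [ndC_cons, ndC_congr (1 + 1) k (N := N) (N' := uN (n 2) w) fun i h1 _ => hN i h1]
  · obtain ⟨C, hC⟩ : ∃ C, C = fun ω => (ndC F c 2 w H 2 k (uN (n 2) w) ω, ((paC F c 2 w n H ω,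
      qC F c 2 w H oB (fun i => uN (n 2) w (oB i)) ω), (zt ω, F.W ω))) := ⟨_, rfl⟩
    rw [← hC]
    have e0 : ∀ ω ω', 0 < q ω → 0 < q ω' → C ω = C ω' →
        ndC F c 2 w H 2 k (uN (n 2) w) ω = ndC F c 2 w H 2 k (uN (n 2) w) ω' ∧
        paC F c 2 w n H ω = paC F c 2 w n H ω' ∧
        qC F c 2 w H oB (fun i => uN (n 2) w (oB i)) ω =
          qC F c 2 w H oB (fun i => uN (n 2) w (oB i)) ω' ∧ zt ω = zt ω' ∧ F.W ω = F.W ω' ∧
        zw ω = zw ω' := fun ω ω' a1 a2 e => by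
      rw [hC] at e
      simp only [Prod.mk.injEq] at e
      exact ⟨e.1, e.2.1.1, e.2.1.2, e.2.2.1, e.2.2.2, h.dz ω ω' a1 a2 e.2.2.1⟩
    have s1 : CH q (f2C F c D w n H) C ≤ g := (CH_mono_cond h0 fun ω ω' a1 a2 e => by
      obtain ⟨b1, b2, b3, b4, b5, b6⟩ := e0 ω ω' a1 a2 e
      show (_, ((_, _), (_, _))) = (_, ((_, _), (_, _)))
      rw [b1, b2, b3, b5, b6]).trans (h.c2 k hk)
    have s2 : CH q (vpC F c D w n H) C ≤ g := (CH_mono_cond h0 fun ω ω' a1 a2 e => by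
      obtain ⟨b1, b2, b3, b4, b5, b6⟩ := e0 ω ω' a1 a2 e
      show (_, (_, _)) = (_, (_, _))
      rw [b2, b5, b6]).trans h.vp
    have s3 : CH q (fun ω => (f2C F c D w n H ω, (vpC F c D w n H ω, (zt ω, F.W ω)))) C ≤
        CH q (fun ω => (f2C F c D w n H ω, vpC F c D w n H ω)) C :=
      CH_mono_left h0 fun ω ω' a1 a2 e => by
        obtain ⟨e1, e2⟩ := Prod.ext_iff.1 e
        obtain ⟨b1, b2, b3, b4, b5, b6⟩ := e0 ω ω' a1 a2 e2
        obtain ⟨e3, e4⟩ := Prod.ext_iff.1 e1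
        simp only at e3 e4
        show (_, (_, (_, _))) = (_, (_, (_, _)))
        rw [e3, e4, b4, b5]
    have s4 := CH_subadd h0 (f2C F c D w n H) (vpC F c D w n H) C
    linarith

/-- **The near heights are at most the count** given a record and the near path of the base. -/
theorem FwF.hg (h : FwF F c D w n H K oB q zw zt g) (hq : IsLaw q)
    (hc : CH q (hgC F c w H 2 nt) (fun ω => (paC F c 2 w n H ω, (zt ω, F.W ω))) ≤ g)
    {s : ℝ} (hs : s ≤ n 2) (hnt : nt ≤ n 2) {Γ : Type} {Y : F.Ω → Γ} (hY : Det q Y (fun ω => (vpC F c D w n H ω,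
      (zt ω, F.W ω)))) :
    CH q (fun ω => (hgC F c w H 2 s ω, hgC F c w H 2 (n 2) ω)) Y ≤
      (n 2 - nt) * J * Real.log 2 + 2 * Real.log 9 + 2 * g := by
  have h0 := hq.nonneg
  have a1 : CH q (hgC F c w H 2 nt) Y ≤ 2 * g := by
    have b1 := CH_le_add h0 (hgC F c w H 2 nt) (paC F c 2 w n H) Y
    have b2 : CH q (paC F c 2 w n H) Y ≤ g := (CH_mono_cond h0 fun ω ω' a1 a2 e => by
      have e1 := hY ω ω' a1 a2 e
      simp only [Prod.mk.injEq] at e1 ⊢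
      exact ⟨e1.1, e1.2.2⟩).trans h.pv
    have b3 : CH q (hgC F c w H 2 nt) (fun ω => (paC F c 2 w n H ω, Y ω)) ≤ g :=
      (CH_mono_cond h0 fun ω ω' a1 a2 e => by
        obtain ⟨e0, e2⟩ := Prod.ext_iff.1 e
        have e1 := hY ω ω' a1 a2 e2
        simp only [Prod.mk.injEq] at e0 e1 ⊢
        exact ⟨e0, e1.2⟩).trans hc
    linarith
  have a2 := CH_le_add h0 (fun ω => (hgC F c w H 2 s ω, hgC F c w H 2 (n 2) ω))
    (hgC F c w H 2 nt) Y
  have a3 := CH_chain h0 (hgC F c w H 2 s) (hgC F c w H 2 (n 2))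
    (fun ω => (hgC F c w H 2 nt ω, Y ω))
  have a4 : CH q (hgC F c w H 2 (n 2)) (fun ω => (hgC F c w H 2 nt ω, Y ω)) ≤
      (n 2 - nt) * J * Real.log 2 + Real.log 9 := by
    refine (CH_mono_cond h0 fun ω ω' _ _ e => (Prod.ext_iff.1 e).1).trans
      (Pool.TWO28.ch_dig hq (fun ω => ojet F (c 2) 0 (H (slam F ⌊w * J⌋₊ ω) 2) ω) (J := J)
        (n := n 2) (n' := nt) (γ := n 2 - nt) (by linarith) (by linarith))
  have a5 : CH q (hgC F c w H 2 s) (fun ω => (hgC F c w H 2 (n 2) ω,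
      (hgC F c w H 2 nt ω, Y ω))) ≤ 0 * J * Real.log 2 + Real.log 9 := by
    refine (CH_mono_cond h0 fun ω ω' _ _ e => (Prod.ext_iff.1 e).1).trans
      (Pool.TWO28.ch_dig hq (fun ω => ojet F (c 2) 0 (H (slam F ⌊w * J⌋₊ ω) 2) ω) (J := J)
        (n := s) (n' := n 2) (γ := 0) (by linarith) le_rfl)
  rw [zero_mul, zero_mul, zero_add] at a5
  linarith

/-- **Given the near heights**: a datum which is few bits given the orders `≥ 1`. -/
theorem FwF.fr (h : FwF F c D w n H K oB q zw zt g) (hq : IsLaw q)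
    (hc : CH q (hgC F c w H 2 nt) (fun ω => (paC F c 2 w n H ω, (zt ω, F.W ω))) ≤ g)
    {s : ℝ} (hs : s ≤ n 2) (hnt : nt ≤ n 2) {l : ℝ} (hl : l ≤ CH q (hgC F c w H 2 (n 2))
      (fun ω => (f1C F c D w n H ω, (vpC F c D w n H ω, (zt ω, F.W ω)))))
    {Γ ε : Type} {Y : F.Ω → Γ} {E : F.Ω → ε} (hY : Det q Y (fun ω => (vpC F c D w n H ω,
      (zt ω, F.W ω)))) (hY' : Det q (fun ω => (f1C F c D w n H ω, (vpC F c D w n H ω,
      (zt ω, F.W ω)))) Y) {g' : ℝ} (hE : CH q E (fun ω => (f1C F c D w n H ω, Y ω)) ≤ g') :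
    CH q E Y - ((n 2 - nt) * J * Real.log 2 + 2 * Real.log 9 + 2 * g + g' - l) ≤
      CH q E (fun ω => ((hgC F c w H 2 s ω, hgC F c w H 2 (n 2) ω), Y ω)) := by
  have h0 := hq.nonneg
  have a1 := h.hg hq hc hs hnt hY
  have a2 : l - g' ≤ CH q (fun ω => (hgC F c w H 2 s ω, hgC F c w H 2 (n 2) ω))
      (fun ω => (E ω, Y ω)) := by
    have b1 : CH q (hgC F c w H 2 (n 2)) (fun ω => (E ω, Y ω)) ≤
        CH q (fun ω => (hgC F c w H 2 s ω, hgC F c w H 2 (n 2) ω)) (fun ω => (E ω, Y ω)) :=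
      CH_mono_left h0 fun ω ω' _ _ e => (Prod.ext_iff.1 (Prod.ext_iff.1 e).1).2
    have b2 : CH q (hgC F c w H 2 (n 2)) (fun ω => (E ω, (f1C F c D w n H ω, Y ω))) ≤
        CH q (hgC F c w H 2 (n 2)) (fun ω => (E ω, Y ω)) :=
      CH_mono_cond h0 fun ω ω' _ _ e => by
        simp only [Prod.mk.injEq] at e ⊢
        exact ⟨e.1, e.2.2⟩
    have b3 := CH_le_add h0 (hgC F c w H 2 (n 2)) E (fun ω => (f1C F c D w n H ω, Y ω))
    have b4 : CH q (hgC F c w H 2 (n 2)) (fun ω => (f1C F c D w n H ω, (vpC F c D w n H ω,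
        (zt ω, F.W ω)))) ≤ CH q (hgC F c w H 2 (n 2)) (fun ω => (f1C F c D w n H ω, Y ω)) :=
      CH_mono_cond h0 fun ω ω' a1 a2 e => by
        have e1 := hY' ω ω' a1 a2 e
        have e2 := (Prod.ext_iff.1 e).1
        simp only at e2
        simp only [Prod.mk.injEq]
        exact ⟨e2, e1⟩
    linarith
  have a3 := free_lo h0 E (fun ω => (hgC F c w H 2 s ω, hgC F c w H 2 (n 2) ω)) Y a2 a1
  linarith

end

end Pool.NA24
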