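import Pool.Agent.H24.NA3.Mix
import Pool.Agent.H42.NDC.Ule
import Pool.Agent.H28.RK.Pkg
import Pool.Agent.H21.PRV.Prv

/-!
# The numbers in the letters of the labels of one window

`paC`, `ndC`: the codes of the jets over labels `H` of the window `w`. `up_lab`, `lo_lab`: the numbers
`UpQ`, `LoQ` for them, for all labels and all records. `rtJ_of`: the numbers without jets of the second
kind as numbers `RtJ`.
-/

set_option autoImplicit false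

namespace Pool.NA24

open Finset Real MvPolynomial
open Pool.Agent.H49.Ent Pool.Agent.H32.Dense Pool.STK Pool.KA Pool.KSAT Pool.K2S Pool.PB Pool.S6C
  Pool.GEN Pool.RCD Pool.LA91 Pool.LP30 Pool.LPJ30 Pool.RJ28
open Pool.OWN68 (cl2_vg)
open Pool.NDC42 (hgC pcC jtC LbV lbv_P uv_P)

variable {m : ℕ}

/-! ### Without jets of the second kind -/

/-- **The numbers without jets of the second kind.** -/
theorem rtJ_of {S : PCl m} {γ : ∀ J : ℕ, Fam m J → Type} {y₀ : ∀ (J : ℕ) (F : Fam m J), F.Ω → γ J F}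
    {c : ℕ → Fin m} {d n : ℕ} {k : Fin n → Fin m} {od : Fin n → ℕ} {kB : Fin 0 → Fin m}
    {oB : Fin 0 → ℕ} {sn : ℕ → ℝ → ℝ} {T : Fin n → ℝ → ℝ} {TB : Fin 0 → ℝ → ℝ} {nH nV : ℕ → ℝ}
    {nB : Fin 0 → ℝ} {b x o ρ κ : ℝ}
    (hpos : ∀ (τ : ℝ) (J : ℕ) (F : Fam m J) (A : F.Ω → Prop), S.St τ J F A → 0 < Pe F.p A)
    (h : RtV S y₀ c d k od sn T nH nV b x o ρ κ) :
    RtJ S y₀ c d k od kB oB sn T TB nH nV nB b x o ρ κ := by
  obtain ⟨k1, hk1, e1, he1, H⟩ := h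
  refine ⟨k1, hk1, e1, he1, fun K => Bas.mono 0 ((H K).and (pos_bas hpos)) ?_⟩
  rintro J - F A ⟨H, hA⟩ V z hz u q pa hu hq hpa
  have h0 := (isLaw_cond F.isLaw hA).nonneg
  have h1 := abs_le.1 (H V z hz u pa hu hpa)
  have h2 : CH (Pool.Agent.H49.Ent.cond F.p A True) u (fun ω => (pa ω, (z ω, y₀ J F ω))) ≤
      CH (Pool.Agent.H49.Ent.cond F.p A True) u (fun ω => ((pa ω, q ω), (z ω, y₀ J F ω))) :=
    CH_mono_cond h0 fun ω ω' _ _ hh => by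
      simp only [Prod.mk.injEq] at hh ⊢
      exact ⟨⟨hh.1, Subsingleton.elim _ _⟩, hh.2⟩
  have e1 : (ρ - κ) * J = ρ * J - κ * J := by ring
  have e2 : (ρ + κ) * J = ρ * J + κ * J := by ring
  rw [e1, e2]
  exact ⟨by linarith [h1.1], by linarith [h1.2]⟩

/-! ### The codes over labels -/

/-- The codes of the jets of order at most one of `c 0, …, c (r - 1)` over labels of the window `w`. -/
noncomputable def paC {J : ℕ} (F : Fam m J) (c : ℕ → Fin m) (r : ℕ) (w : ℝ) (n : ℕ → ℝ)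
    (H : LnT F → ℕ → MvPolynomial (Option (Fin m)) ℝ) (ω : F.Ω) (i j : ℕ) : ℤ :=
  if i < r ∧ j ≤ 1 then jtC F c w H i j (n i) ω else 0

/-- The codes of the jets of the orders `j, …, j + n - 1` of `c r` over the labels of `w`, the order
`i` to `N i` digits. -/
noncomputable def ndC {J : ℕ} (F : Fam m J) (c : ℕ → Fin m) (r : ℕ) (w : ℝ)
    (H : LnT F → ℕ → MvPolynomial (Option (Fin m)) ℝ) (j n : ℕ) (N : ℕ → ℝ) (ω : F.Ω)
    (i : Fin n) : ℤ :=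
  ⌊(2 : ℝ) ^ (N (odv j i) * J) * ojet F (c r) (odv j i) (H (slam F ⌊w * J⌋₊ ω) r) ω⌋

/-- The codes of the jets of `c r` of the orders `oB i`, to `nB i` digits. -/
noncomputable def qC {J : ℕ} (F : Fam m J) (c : ℕ → Fin m) (r : ℕ) (w : ℝ)
    (H : LnT F → ℕ → MvPolynomial (Option (Fin m)) ℝ) {n' : ℕ} (oB : Fin n' → ℕ) (nB : Fin n' → ℝ)
    (ω : F.Ω) (i : Fin n') : ℤ :=
  ⌊(2 : ℝ) ^ (nB i * J) * ojet F (c r) (oB i) (H (slam F ⌊w * J⌋₊ ω) r) ω⌋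

section

variable (c : ℕ → Fin m) (r D : ℕ) {w : ℝ}

theorem paC_P (hw0 : 0 ≤ w) (hw1 : w ≤ 1) (n : ℕ → ℝ) {sn : ℕ → ℝ → ℝ} {nH nV : ℕ → ℝ}
    (hH : ∀ l < r, nH l = n l) (hV : ∀ l < r, nV l = n l - w) : ∃ M J₁ : ℕ, ∀ K ≥ M, ∀ J ≥ J₁,
    ∀ (F : Fam m J) (A : F.Ω → Prop) (R : ℕ) (e : ℝ) (p : ℕ → ℝ)
      (H : LnT F → ℕ → MvPolynomial (Option (Fin m)) ℝ), r ≤ R → (∀ l < r, p l = sn l w) →
      LbV F A c R D w e p H →
      (paQ m c r w (fun l => sn l w) nH nV).P K e J F A (paC F c r w n H) := by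
  obtain ⟨M, J₁, hM⟩ := uv_P (m := m) c r D hw0 hw1 n
  refine ⟨M, J₁, fun K hK J hJ F A R e p H hR hp hH' => ?_⟩
  obtain ⟨h1, h2⟩ := hM K hK J hJ F A R e p H hR hH'
  refine ⟨fun i i0 hi j hj => ?_, h2⟩
  have h3 := h1 i i0 hi j hj
  dsimp only at h3
  rw [hp i hi] at h3
  have e1 : (if j = 0 then nH i else nV i) = n i - (j : ℝ) * w := by
    rcases Nat.eq_zero_or_pos j with rfl | hj0
    · rw [if_pos rfl, hH i hi, Nat.cast_zero, zero_mul, sub_zero]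
    · obtain rfl : j = 1 := by omega
      rw [if_neg one_ne_zero, hV i hi, Nat.cast_one, one_mul]
  dsimp only
  rw [e1]
  exact h3

theorem ndC_P (hw0 : 0 ≤ w) (hw1 : w ≤ 1) (j n : ℕ) (N : ℕ → ℝ) {T : ℝ → ℝ} :
    ∃ M J₁ : ℕ, ∀ K ≥ M, ∀ J ≥ J₁,
    ∀ (F : Fam m J) (A : F.Ω → Prop) (R : ℕ) (e : ℝ) (p : ℕ → ℝ)
      (H : LnT F → ℕ → MvPolynomial (Option (Fin m)) ℝ), r ≤ R → p r = T w →
      LbV F A c R D w e p H →
      (ndR m c r (c r) T w j n N).P K e J F A (ndC F c r w H j n N) := by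
  choose M J₁ hM using fun i : Fin n => lbv_P m D (odv j i) (N := N (odv j i)) hw0 hw1
  have hMi : ∀ i : Fin n, M i ≤ ∑ i, M i := fun i =>
    Finset.single_le_sum (f := M) (fun i _ => Nat.zero_le _) (Finset.mem_univ i)
  have hJi : ∀ i : Fin n, J₁ i ≤ ∑ i, J₁ i := fun i =>
    Finset.single_le_sum (f := J₁) (fun i _ => Nat.zero_le _) (Finset.mem_univ i)
  refine ⟨∑ i, M i, ∑ i, J₁ i, fun K hK J hJ F A R e p H hR hp hH i => ?_⟩
  have h1 := hM i K ((hMi i).trans hK) J ((hJi i).trans hJ) F A c R e p H hH r hR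
  rw [hp] at h1
  exact h1

theorem qC_P (hw0 : 0 ≤ w) (hw1 : w ≤ 1) {n' : ℕ} (oB : Fin n' → ℕ) (nB : Fin n' → ℝ)
    {T : ℝ → ℝ} : ∃ M J₁ : ℕ, ∀ K ≥ M, ∀ J ≥ J₁,
    ∀ (F : Fam m J) (A : F.Ω → Prop) (R : ℕ) (e : ℝ) (p : ℕ → ℝ)
      (H : LnT F → ℕ → MvPolynomial (Option (Fin m)) ℝ), r ≤ R → p r = T w →
      LbV F A c R D w e p H →
      (jtR m c r (fun _ : Fin n' => c r) oB (fun _ w => T w) w nB).P K e J F A
        (qC F c r w H oB nB) := by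
  choose M J₁ hM using fun i : Fin n' => lbv_P m D (oB i) (N := nB i) hw0 hw1
  have hMi : ∀ i : Fin n', M i ≤ ∑ i, M i := fun i =>
    Finset.single_le_sum (f := M) (fun i _ => Nat.zero_le _) (Finset.mem_univ i)
  have hJi : ∀ i : Fin n', J₁ i ≤ ∑ i, J₁ i := fun i =>
    Finset.single_le_sum (f := J₁) (fun i _ => Nat.zero_le _) (Finset.mem_univ i)
  refine ⟨∑ i, M i, ∑ i, J₁ i, fun K hK J hJ F A R e p H hR hp hH i => ?_⟩
  have h1 := hM i K ((hMi i).trans hK) J ((hJi i).trans hJ) F A c R e p H hH r hR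
  rw [hp] at h1
  exact h1

end

section

variable {S : PCl m} {c : ℕ → Fin m} {r D : ℕ} {sn : ℕ → ℝ → ℝ} {T : ℝ → ℝ} {n' : ℕ}
  {oB : Fin n' → ℕ} {nH nV : ℕ → ℝ} {nB : Fin n' → ℝ} {w : ℝ} {n : ℕ → ℝ}

/-- **The number of a list from above**, for all labels and all records. -/
theorem up_lab (hw0 : 0 ≤ w) (hw1 : w ≤ 1) (D : ℕ) (hH : ∀ l < r, nH l = n l)
    (hV : ∀ l < r, nV l = n l - w) {x ρ : ℝ} {j k : ℕ} {N : ℕ → ℝ}
    (h : UpQ S (fun _ F => F.W) c r sn nH nV w x (ndR m c r (c r) T w j k N) ρ) :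
    ∃ κ₁ : ℝ, 0 < κ₁ ∧ ∃ e₁ : ℝ, 0 < e₁ ∧ Bas S (fun J F A => ∀ (R : ℕ) (e : ℝ) (p : ℕ → ℝ)
      (H : LnT F → ℕ → MvPolynomial (Option (Fin m)) ℝ), r ≤ R → e ≤ e₁ →
      (∀ l < r, p l = sn l w) → p r = T w → LbV F A c R D w e p H → ∀ (V : Type) (z : F.Ω → V),
      Mx (fun J F => ptr F J) (vg x) κ₁ F A z →
      CH (Pool.Agent.H49.Ent.cond F.p A True) (ndC F c r w H j k N)
        (fun ω => (paC F c r w n H ω, (z ω, F.W ω))) ≤ ρ * J) := by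
  obtain ⟨k1, hk1, e1, he1, H1⟩ := h
  obtain ⟨M₁, J₁, P1⟩ := paC_P (m := m) c r D hw0 hw1 n (sn := sn) hH hV
  obtain ⟨M₂, J₂, P2⟩ := ndC_P (m := m) c r D hw0 hw1 j k N (T := T)
  refine ⟨k1, hk1, e1, he1, Bas.mono (J₁ + J₂) (H1 (M₁ + M₂)) ?_⟩
  intro J hJ F A H1 R e p H hR he hp hp' hH' V z hz
  exact H1 V z hz _ _
    ((ndR m c r (c r) T w j k N).mono le_rfl he (P2 (M₁ + M₂) (by omega) J (by omega) F A R e p H hR
      hp' hH'))
    ((paQ m c r w (fun l => sn l w) nH nV).mono le_rfl he (P1 (M₁ + M₂) (by omega) J (by omega) F A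
      R e p H hR hp hH'))

/-- **The number of a list from below**, for all labels and all records. -/
theorem lo_lab (hw0 : 0 ≤ w) (hw1 : w ≤ 1) (D : ℕ) (hH : ∀ l < r, nH l = n l)
    (hV : ∀ l < r, nV l = n l - w) {x ρ : ℝ} {j k : ℕ} {N : ℕ → ℝ}
    (h : LoQ S (fun _ F => F.W) c r (fun _ : Fin n' => c r) oB sn (fun _ w => T w) nH nV nB w x
      (ndR m c r (c r) T w j k N) ρ) :
    ∃ κ₁ : ℝ, 0 < κ₁ ∧ ∃ e₁ : ℝ, 0 < e₁ ∧ Bas S (fun J F A => ∀ (R : ℕ) (e : ℝ) (p : ℕ → ℝ)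
      (H : LnT F → ℕ → MvPolynomial (Option (Fin m)) ℝ), r ≤ R → e ≤ e₁ →
      (∀ l < r, p l = sn l w) → p r = T w → LbV F A c R D w e p H → ∀ (V : Type) (z : F.Ω → V),
      Mx (fun J F => ptr F J) (vg x) κ₁ F A z →
      ρ * J ≤ CH (Pool.Agent.H49.Ent.cond F.p A True) (ndC F c r w H j k N)
        (fun ω => ((paC F c r w n H ω, qC F c r w H oB nB ω), (z ω, F.W ω)))) := by
  obtain ⟨k1, hk1, e1, he1, H1⟩ := h
  obtain ⟨M₁, J₁, P1⟩ := paC_P (m := m) c r D hw0 hw1 n (sn := sn) hH hV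
  obtain ⟨M₂, J₂, P2⟩ := ndC_P (m := m) c r D hw0 hw1 j k N (T := T)
  obtain ⟨M₃, J₃, P3⟩ := qC_P (m := m) c r D hw0 hw1 oB nB (T := T)
  refine ⟨k1, hk1, e1, he1, Bas.mono (J₁ + J₂ + J₃) (H1 (M₁ + M₂ + M₃)) ?_⟩
  intro J hJ F A H1 R e p H hR he hp hp' hH' V z hz
  exact H1 V z hz _ _ _
    ((ndR m c r (c r) T w j k N).mono le_rfl he (P2 (M₁ + M₂ + M₃) (by omega) J (by omega) F A R e p
      H hR hp' hH'))
    ((jtR m c r (fun _ : Fin n' => c r) oB (fun _ w => T w) w nB).mono le_rfl he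
      (P3 (M₁ + M₂ + M₃) (by omega) J (by omega) F A R e p H hR hp' hH'))
    ((paQ m c r w (fun l => sn l w) nH nV).mono le_rfl he (P1 (M₁ + M₂ + M₃) (by omega) J (by omega)
      F A R e p H hR hp hH'))

end

end Pool.NA24
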