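import Pool.Agent.H28.AB.Dig
import Pool.Agent.H28.RJ.Real

/-!
# Jets with different digits for different orders

`mxR`: the jets of the orders `j, …, j + n - 1` of one place over the charts of `b`, the order `i` to
the natural digits of `o i`. `mx_num`: from the numbers `RtJ` of the lists with the natural digits of
one window, the number of `mxR` given the near path and the record at `x`: the order `i` counts
`(φ i - φ (i + 1)) (o i - x)`. `fst_num`: the number of the first jet given the other ones.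
-/

set_option autoImplicit false

namespace Pool.NA24

open Finset Real MvPolynomial
open Pool.Agent.H49.Ent Pool.Agent.H32.Dense Pool.STK Pool.KA Pool.KSAT Pool.K2S Pool.PB Pool.S6C
  Pool.GEN Pool.RCD Pool.LA91 Pool.LP30 Pool.LPJ30 Pool.RJ28
open Pool.OWN68 (cl2_vg)
open Pool.AB28 (qj_dig)

variable {m : ℕ}

/-- **The jets of the orders** `j, …, j + n - 1`, the order `i` to `N i` digits. -/
noncomputable def ndR (m : ℕ) (c : ℕ → Fin m) (d : ℕ) (k : Fin m) (T : ℝ → ℝ) (b : ℝ) (j n : ℕ)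
    (N : ℕ → ℝ) : Qt m (Fin n → ℤ) :=
  jtR m c d (fun _ : Fin n => k) (fun i => odv j i) (fun _ w => T w) b (fun i => N (odv j i))

/-- **The jets of the orders** `j, …, j + n - 1`, the order `i` to the natural digits of `o i`. -/
noncomputable def mxR (m : ℕ) (c : ℕ → Fin m) (d : ℕ) (k : Fin m) (T : ℝ → ℝ) (b : ℝ) (j n : ℕ)
    (o : ℕ → ℝ) : Qt m (Fin n → ℤ) :=
  jtR m c d (fun _ : Fin n => k) (fun i => odv j i) (fun _ w => T w) b
    (fun i => T (o (odv j i)) - ((odv j i : ℕ) : ℝ) * o (odv j i))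

section

variable {S : PCl m} {γ : ∀ J : ℕ, Fam m J → Type} {y₀ : ∀ (J : ℕ) (F : Fam m J), F.Ω → γ J F}
  {c : ℕ → Fin m} {d : ℕ} {sn : ℕ → ℝ → ℝ} {k : Fin m} {T : ℝ → ℝ} {n' : ℕ}
  {kB : Fin n' → Fin m} {oB : Fin n' → ℕ} {TB : Fin n' → ℝ → ℝ} {nH nV : ℕ → ℝ}
  {nB : Fin n' → ℝ} {b : ℝ}

/-- The number of a quantity `Q` given the near path and the record at `x`: at most `ρ`. -/
def UpQ (S : PCl m) (y₀ : ∀ (J : ℕ) (F : Fam m J), F.Ω → γ J F) (c : ℕ → Fin m) (d : ℕ)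
    (sn : ℕ → ℝ → ℝ) (nH nV : ℕ → ℝ) (b x : ℝ) {U : Type} (Q : Qt m U) (ρ : ℝ) : Prop :=
  ∃ κ₁ : ℝ, 0 < κ₁ ∧ ∃ e₀ : ℝ, 0 < e₀ ∧ ∀ K : ℕ, Bas S (fun J F A =>
    ∀ (V : Type) (z : F.Ω → V), Mx (fun J F => ptr F J) (vg x) κ₁ F A z →
    ∀ u pa, Q.P K e₀ J F A u → (paQ m c d b (fun l => sn l b) nH nV).P K e₀ J F A pa →
    CH (Pool.Agent.H49.Ent.cond F.p A True) u (fun ω => (pa ω, (z ω, y₀ J F ω))) ≤ ρ * J)

/-- The number of a quantity `Q` given the near path, the near jets of the second kind and the record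
at `x`: at least `ρ`. -/
def LoQ (S : PCl m) (y₀ : ∀ (J : ℕ) (F : Fam m J), F.Ω → γ J F) (c : ℕ → Fin m) (d : ℕ)
    {n' : ℕ} (kB : Fin n' → Fin m) (oB : Fin n' → ℕ) (sn : ℕ → ℝ → ℝ) (TB : Fin n' → ℝ → ℝ)
    (nH nV : ℕ → ℝ) (nB : Fin n' → ℝ) (b x : ℝ) {U : Type} (Q : Qt m U) (ρ : ℝ) : Prop :=
  ∃ κ₁ : ℝ, 0 < κ₁ ∧ ∃ e₀ : ℝ, 0 < e₀ ∧ ∀ K : ℕ, Bas S (fun J F A =>
    ∀ (V : Type) (z : F.Ω → V), Mx (fun J F => ptr F J) (vg x) κ₁ F A z →
    ∀ u q pa, Q.P K e₀ J F A u → (jtR m c d kB oB TB b nB).P K e₀ J F A q →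
    (paQ m c d b (fun l => sn l b) nH nV).P K e₀ J F A pa →
    ρ * J ≤ CH (Pool.Agent.H49.Ent.cond F.p A True) u
      (fun ω => ((pa ω, q ω), (z ω, y₀ J F ω))))

theorem UpQ.le {x : ℝ} {U : Type} {Q : Qt m U} {ρ ρ' : ℝ}
    (h : UpQ S y₀ c d sn nH nV b x Q ρ) (hρ : ρ ≤ ρ') : UpQ S y₀ c d sn nH nV b x Q ρ' := by
  obtain ⟨k1, hk1, e1, he1, H⟩ := h
  exact ⟨k1, hk1, e1, he1, fun K => Bas.mono 0 (H K) fun J _ F A H V z hz u pa hu hpa =>
    (H V z hz u pa hu hpa).trans (mul_le_mul_of_nonneg_right hρ (Nat.cast_nonneg J))⟩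

theorem LoQ.le {x : ℝ} {U : Type} {Q : Qt m U} {ρ ρ' : ℝ}
    (h : LoQ S y₀ c d kB oB sn TB nH nV nB b x Q ρ) (hρ : ρ' ≤ ρ) :
    LoQ S y₀ c d kB oB sn TB nH nV nB b x Q ρ' := by
  obtain ⟨k1, hk1, e1, he1, H⟩ := h
  exact ⟨k1, hk1, e1, he1, fun K => Bas.mono 0 (H K) fun J _ F A H V z hz u q pa hu hq hpa =>
    (mul_le_mul_of_nonneg_right hρ (Nat.cast_nonneg J)).trans (H V z hz u q pa hu hq hpa)⟩

theorem rtJ_up {x o ρ κ : ℝ} {n j : ℕ}
    (hq : Exs S (jtR m c d kB oB TB b nB))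
    (h : RtJ S y₀ c d (fun _ : Fin n => k) (fun i => odv j i) kB oB sn (fun _ w => T w) TB nH nV nB
      b x o ρ κ) : UpQ S y₀ c d sn nH nV b x (mxR m c d k T b j n (fun _ => o)) (ρ + κ) := by
  obtain ⟨k1, hk1, e1, he1, H⟩ := h
  obtain ⟨Kq, Mq, hq⟩ := hq e1 he1
  refine ⟨k1, hk1, e1, he1, fun K => Bas.mono 0 ((H (K + Kq)).and hq) ?_⟩
  rintro J - F A ⟨H, q, hq, -⟩ V z hz u pa hu hpa
  have hu' := (mxR m c d k T b j n (fun _ => o)).mono (K' := K + Kq) (Nat.le_add_right _ _)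
    (le_refl e1) hu
  have hq' := (jtR m c d kB oB TB b nB).mono (K' := K + Kq) (Nat.le_add_left _ _) (le_refl e1) hq
  have hpa' := (paQ m c d b (fun l => sn l b) nH nV).mono (K' := K + Kq) (Nat.le_add_right _ _)
    (le_refl e1) hpa
  exact (H V z hz u q pa hu' hq' hpa').2

theorem rtJ_lo {x o ρ κ : ℝ} {n j : ℕ}
    (h : RtJ S y₀ c d (fun _ : Fin n => k) (fun i => odv j i) kB oB sn (fun _ w => T w) TB nH nV nB
      b x o ρ κ) :
    LoQ S y₀ c d kB oB sn TB nH nV nB b x (mxR m c d k T b j n (fun _ => o)) (ρ - κ) := by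
  obtain ⟨k1, hk1, e1, he1, H⟩ := h
  exact ⟨k1, hk1, e1, he1, fun K => Bas.mono 0 (H K) fun J _ F A H V z hz u q pa hu hq hpa =>
    (H V z hz u q pa hu hq hpa).1⟩

theorem odv_z {n : ℕ} (j : ℕ) : odv j (0 : Fin (n + 1)) = j := by
  unfold odv
  simp

theorem odv_s {n : ℕ} (j : ℕ) (i : Fin n) : odv j i.succ = odv (j + 1) i := by
  unfold odv
  simp only [Fin.val_succ]
  omega

/-- The first jet and the other ones. -/
theorem mxR_cons {K : ℕ} {e : ℝ} {J : ℕ} {F : Fam m J} {A : F.Ω → Prop} {j n : ℕ} {o : ℕ → ℝ}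
    {u : F.Ω → ℤ} {v : F.Ω → Fin n → ℤ}
    (hu : (qJet m ((range d).image c) k j b (T b) (T (o j) - (j : ℝ) * o j)).P K e J F A u)
    (hv : (mxR m c d k T b (j + 1) n o).P K e J F A v) :
    (mxR m c d k T b j (n + 1) o).P K e J F A (fun ω => (Fin.cons (u ω) (v ω) : Fin (n + 1) → ℤ)) := by
  intro i
  refine Fin.cases ?_ (fun i => ?_) i
  · simp only [Fin.cons_zero]
    rw [odv_z]
    exact hu
  · simp only [Fin.cons_succ]
    rw [odv_s]
    exact hv i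

theorem mxR_head {K : ℕ} {e : ℝ} {J : ℕ} {F : Fam m J} {A : F.Ω → Prop} {j n : ℕ} {o : ℕ → ℝ}
    {u : F.Ω → Fin (n + 1) → ℤ} (hu : (mxR m c d k T b j (n + 1) o).P K e J F A u) :
    (qJet m ((range d).image c) k j b (T b) (T (o j) - (j : ℝ) * o j)).P K e J F A
      (fun ω => u ω 0) := by
  have h1 := hu 0
  dsimp only at h1
  rw [odv_z] at h1
  exact h1

theorem mxR_tail {K : ℕ} {e : ℝ} {J : ℕ} {F : Fam m J} {A : F.Ω → Prop} {j n : ℕ} {o : ℕ → ℝ}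
    {u : F.Ω → Fin (n + 1) → ℤ} (hu : (mxR m c d k T b j (n + 1) o).P K e J F A u) :
    (mxR m c d k T b (j + 1) n o).P K e J F A (fun ω i => u ω i.succ) := by
  intro i
  have h1 := hu i.succ
  dsimp only at h1
  rw [odv_s] at h1
  exact h1

/-- **Other digits** of all jets. -/
theorem ndR_dig (j n : ℕ) (N N' : ℕ → ℝ) : ∃ M : ℕ,
    ∀ (K : ℕ) (e : ℝ) (J : ℕ) (F : Fam m J) (A : F.Ω → Prop) (u : F.Ω → Fin n → ℤ), 1 ≤ J →
      (ndR m c d k T b j n N).P K e J F A u → ∃ u' : F.Ω → Fin n → ℤ,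
        (ndR m c d k T b j n N').P (K + M) e J F A u' ∧ (0 < Pe F.p A → ∀ δ : ℝ, 0 ≤ δ →
        ((∀ i, j ≤ i → i < j + n → N' i ≤ N i + δ) →
          CH (Pool.Agent.H49.Ent.cond F.p A True) u' u ≤ n * (δ * J + Real.log 9)) ∧
        ((∀ i, j ≤ i → i < j + n → N i ≤ N' i + δ) →
          CH (Pool.Agent.H49.Ent.cond F.p A True) u u' ≤ n * (δ * J + Real.log 9))) := by
  have h1 := fun i : Fin n => qj_dig m ((range d).image c) k (odv j i) b (T b) (N (odv j i))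
    (N' (odv j i))
  choose M hM using h1
  refine ⟨∑ i, M i, fun K e J F A u hJ hu => ?_⟩
  have h2 := fun i : Fin n => hM i K e J F A (fun ω => u ω i) hJ (hu i)
  choose u' hu' hc using h2
  have hMi : ∀ i : Fin n, M i ≤ ∑ i, M i := fun i =>
    Finset.single_le_sum (f := M) (fun i _ => Nat.zero_le _) (Finset.mem_univ i)
  refine ⟨fun ω i => u' i ω, fun i => (qJet m _ k _ b _ _).mono (by have := hMi i; omega) le_rfl
    (hu' i), fun hA δ hδ => ?_⟩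
  have hcl := isLaw_cond F.isLaw hA
  have hJ0 : (0 : ℝ) ≤ J := Nat.cast_nonneg J
  have hl2 : Real.log 2 ≤ 1 := by
    have := Real.log_two_lt_d9
    linarith
  have h7 : δ * J * Real.log 2 ≤ δ * J * 1 :=
    mul_le_mul_of_nonneg_left hl2 (mul_nonneg hδ hJ0)
  constructor
  · intro h3
    refine (Pool.KS3.CH_pi_le hcl.nonneg (fun ω (i : Fin n) => u' i ω) u).trans ?_
    have h4 : ∀ i ∈ (Finset.univ : Finset (Fin n)), CH (Pool.Agent.H49.Ent.cond F.p A True)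
        (fun ω => u' i ω) u ≤ δ * J + Real.log 9 := by
      intro i _
      have h5 := (hc i hA δ hδ).2 (h3 (odv j i) (by unfold odv; omega) (by unfold odv; omega))
      have h6 : CH (Pool.Agent.H49.Ent.cond F.p A True) (u' i) u ≤
          CH (Pool.Agent.H49.Ent.cond F.p A True) (u' i) (fun ω => u ω i) :=
        CH_mono_cond hcl.nonneg fun ω ω' _ _ hh => congrFun hh i
      have h8 : CH (Pool.Agent.H49.Ent.cond F.p A True) (fun ω => u' i ω) u =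
        CH (Pool.Agent.H49.Ent.cond F.p A True) (u' i) u := rfl
      rw [h8]
      linarith
    refine (Finset.sum_le_sum h4).trans (le_of_eq ?_)
    rw [Finset.sum_const, Finset.card_univ, Fintype.card_fin, nsmul_eq_mul]
  · intro h3
    refine (Pool.KS3.CH_pi_le hcl.nonneg (fun ω (i : Fin n) => u ω i)
      (fun ω (i : Fin n) => u' i ω)).trans ?_
    have h4 : ∀ i ∈ (Finset.univ : Finset (Fin n)), CH (Pool.Agent.H49.Ent.cond F.p A True)
        (fun ω => u ω i) (fun ω (i : Fin n) => u' i ω) ≤ δ * J + Real.log 9 := by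
      intro i _
      have h5 := (hc i hA δ hδ).1 (h3 (odv j i) (by unfold odv; omega) (by unfold odv; omega))
      have h6 : CH (Pool.Agent.H49.Ent.cond F.p A True) (fun ω => u ω i)
          (fun ω (i : Fin n) => u' i ω) ≤
          CH (Pool.Agent.H49.Ent.cond F.p A True) (fun ω => u ω i) (u' i) :=
        CH_mono_cond hcl.nonneg fun ω ω' _ _ hh => congrFun hh i
      linarith
    refine (Finset.sum_le_sum h4).trans (le_of_eq ?_)
    rw [Finset.sum_const, Finset.card_univ, Fintype.card_fin, nsmul_eq_mul]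

/-- **Fewer digits** of all jets: from a list with more digits. -/
theorem mxR_dig (j n : ℕ) (o o' : ℕ → ℝ) : ∃ M : ℕ,
    ∀ (K : ℕ) (e : ℝ) (J : ℕ) (F : Fam m J) (A : F.Ω → Prop) (u : F.Ω → Fin n → ℤ), 1 ≤ J →
      (mxR m c d k T b j n o).P K e J F A u → ∃ u' : F.Ω → Fin n → ℤ,
        (mxR m c d k T b j n o').P (K + M) e J F A u' ∧ (0 < Pe F.p A → ∀ δ : ℝ, 0 ≤ δ →
        (∀ i, j ≤ i → i < j + n → T (o' i) - (i : ℝ) * o' i ≤ T (o i) - (i : ℝ) * o i + δ) →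
        CH (Pool.Agent.H49.Ent.cond F.p A True) u' u ≤ n * (δ * J + Real.log 9)) := by
  obtain ⟨M, hM⟩ := ndR_dig (m := m) (c := c) (d := d) (k := k) (T := T) (b := b) j n
    (fun i => T (o i) - (i : ℝ) * o i) (fun i => T (o' i) - (i : ℝ) * o' i)
  refine ⟨M, fun K e J F A u hJ hu => ?_⟩
  obtain ⟨u', h1, h2⟩ := hM K e J F A u hJ hu
  exact ⟨u', h1, fun hA δ hδ => (h2 hA δ hδ).1⟩

theorem UpQ.dig {C₀ : ℝ} (htm : TmC S C₀) {j n : ℕ} {N N' : ℕ → ℝ} {x ρ δ ε : ℝ} (hδ : 0 ≤ δ)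
    (hε : 0 < ε) (h : UpQ S y₀ c d sn nH nV b x (ndR m c d k T b j n N) ρ)
    (hN : ∀ i, j ≤ i → i < j + n → N' i ≤ N i + δ) :
    UpQ S y₀ c d sn nH nV b x (ndR m c d k T b j n N') (ρ + n * δ + ε) := by
  obtain ⟨k1, hk1, e1, he1, H⟩ := h
  obtain ⟨M, hM⟩ := ndR_dig (m := m) (c := c) (d := d) (k := k) (T := T) (b := b) j n N' N
  obtain ⟨J₁, hJ₁⟩ := exists_nat_ge (n * Real.log 9 / ε)
  refine ⟨k1, hk1, e1, he1, fun K => Bas.mono (J₁ + 1) ((H (K + M)).and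
    (Pool.GRW.tmc_bas htm one_pos)) ?_⟩
  rintro J hJ F A ⟨H, hA, -⟩ V z hz u' pa hu' hpa
  have h0 := (isLaw_cond F.isLaw hA).nonneg
  have hJr : (J₁ : ℝ) ≤ J := by exact_mod_cast (by omega : J₁ ≤ J)
  have hL : n * Real.log 9 ≤ ε * J := by
    have := hJ₁.trans hJr
    rw [div_le_iff₀ hε] at this
    linarith
  obtain ⟨u, hu, hd⟩ := hM K e1 J F A u' (by omega) hu'
  have hd1 := (hd hA δ hδ).2 hN
  have g1 := H V z hz u pa hu ((paQ m c d b (fun l => sn l b) nH nV).mono (K' := K + M)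
    (by omega) le_rfl hpa)
  have g2 := CH_le_add h0 u' u (fun ω => (pa ω, (z ω, y₀ J F ω)))
  have g3 : CH (Pool.Agent.H49.Ent.cond F.p A True) u' (fun ω => (u ω, (pa ω, (z ω, y₀ J F ω)))) ≤
      CH (Pool.Agent.H49.Ent.cond F.p A True) u' u :=
    CH_mono_cond h0 fun ω ω' _ _ hh => (Prod.ext_iff.mp hh).1
  have e5 : (ρ + n * δ + ε) * J = ρ * J + n * (δ * J) + ε * J := by ring
  have e6 : (n : ℝ) * (δ * J + Real.log 9) = n * (δ * J) + n * Real.log 9 := by ring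
  rw [e5]
  linarith

theorem LoQ.dig {C₀ : ℝ} (htm : TmC S C₀) {j n : ℕ} {N N' : ℕ → ℝ} {x ρ δ ε : ℝ} (hδ : 0 ≤ δ)
    (hε : 0 < ε) (h : LoQ S y₀ c d kB oB sn TB nH nV nB b x (ndR m c d k T b j n N) ρ)
    (hN : ∀ i, j ≤ i → i < j + n → N i ≤ N' i + δ) :
    LoQ S y₀ c d kB oB sn TB nH nV nB b x (ndR m c d k T b j n N') (ρ - n * δ - ε) := by
  obtain ⟨k1, hk1, e1, he1, H⟩ := h
  obtain ⟨M, hM⟩ := ndR_dig (m := m) (c := c) (d := d) (k := k) (T := T) (b := b) j n N' N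
  obtain ⟨J₁, hJ₁⟩ := exists_nat_ge (n * Real.log 9 / ε)
  refine ⟨k1, hk1, e1, he1, fun K => Bas.mono (J₁ + 1) ((H (K + M)).and
    (Pool.GRW.tmc_bas htm one_pos)) ?_⟩
  rintro J hJ F A ⟨H, hA, -⟩ V z hz u' q pa hu' hq hpa
  have h0 := (isLaw_cond F.isLaw hA).nonneg
  have hJr : (J₁ : ℝ) ≤ J := by exact_mod_cast (by omega : J₁ ≤ J)
  have hL : n * Real.log 9 ≤ ε * J := by
    have := hJ₁.trans hJr
    rw [div_le_iff₀ hε] at this
    linarith
  obtain ⟨u, hu, hd⟩ := hM K e1 J F A u' (by omega) hu'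
  have hd1 := (hd hA δ hδ).1 hN
  have g1 := H V z hz u q pa hu ((jtR m c d kB oB TB b nB).mono (K' := K + M) (by omega) le_rfl hq)
    ((paQ m c d b (fun l => sn l b) nH nV).mono (K' := K + M) (by omega) le_rfl hpa)
  have g2 := CH_le_add h0 u u' (fun ω => ((pa ω, q ω), (z ω, y₀ J F ω)))
  have g3 : CH (Pool.Agent.H49.Ent.cond F.p A True) u
      (fun ω => (u' ω, ((pa ω, q ω), (z ω, y₀ J F ω)))) ≤
      CH (Pool.Agent.H49.Ent.cond F.p A True) u u' :=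
    CH_mono_cond h0 fun ω ω' _ _ hh => (Prod.ext_iff.mp hh).1
  have e5 : (ρ - n * δ - ε) * J = ρ * J - n * (δ * J) - ε * J := by ring
  have e6 : (n : ℝ) * (δ * J + Real.log 9) = n * (δ * J) + n * Real.log 9 := by ring
  rw [e5]
  linarith

/-! ### The numbers -/

theorem tel {φ : ℕ → ℝ} {j jt : ℕ} (h : j ≤ jt) :
    ∑ i ∈ Finset.Ico j jt, (φ i - φ (i + 1)) = φ j - φ jt := by
  induction jt, h using Nat.le_induction with
  | base => simp
  | succ n hn ih =>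
    rw [Finset.sum_Ico_succ_top hn, ih]
    ring

/-- The number at a later window. -/
theorem tel_sh {φ o : ℕ → ℝ} {j jt : ℕ} (h : j ≤ jt) (x y : ℝ) (h0 : φ jt = 0) :
    ∑ i ∈ Finset.Ico j jt, (φ i - φ (i + 1)) * (o i - y) =
      ∑ i ∈ Finset.Ico j jt, (φ i - φ (i + 1)) * (o i - x) - φ j * (y - x) := by
  have h1 := tel (φ := φ) h
  rw [h0, sub_zero] at h1
  rw [← h1, Finset.sum_mul, ← Finset.sum_sub_distrib]
  refine Finset.sum_congr rfl fun i _ => ?_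
  ring

section ev

variable {Ω α β β' : Type} [Fintype Ω] {p : Ω → ℝ}

/-- Fewer jets are fewer bits. -/
theorem ev_up (h0 : ∀ ω, 0 ≤ p ω) {n : ℕ} (f : Ω → ℤ) (M L2 : Ω → Fin n → ℤ) (C0 : Ω → α)
    (C : Ω → β) (hC : Det p C C0) {a b g : ℝ}
    (h1 : CH p (fun ω => (Fin.cons (f ω) (L2 ω) : Fin (n + 1) → ℤ)) C0 ≤ a)
    (h2 : b ≤ CH p L2 C) (h3 : CH p L2 M ≤ g) :
    CH p f (fun ω => (M ω, C0 ω)) ≤ a - b + g := by
  have s1 : CH p (fun ω => (f ω, L2 ω)) C0 ≤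
      CH p (fun ω => (Fin.cons (f ω) (L2 ω) : Fin (n + 1) → ℤ)) C0 :=
    CH_mono_left h0 fun ω ω' _ _ hh => by
      have h4 := (Prod.ext_iff.1 hh).1
      have h5 := congrFun h4 0
      simp only [Fin.cons_zero] at h5
      refine Prod.ext h5 (funext fun i => ?_)
      have h6 := congrFun h4 i.succ
      simp only [Fin.cons_succ] at h6
      exact h6
  have s2 := CH_chain h0 f L2 C0
  have s3 : CH p L2 C ≤ CH p L2 C0 := CH_mono_cond h0 hC
  have s4 := CH_le_add h0 f L2 (fun ω => (M ω, C0 ω))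
  have s5 : CH p f (fun ω => (L2 ω, (M ω, C0 ω))) ≤ CH p f (fun ω => (L2 ω, C0 ω)) :=
    CH_mono_cond h0 fun ω ω' _ _ hh => by
      have h4 := Prod.ext_iff.1 hh
      exact Prod.ext h4.1 (Prod.ext_iff.1 h4.2).2
  have s6 : CH p L2 (fun ω => (M ω, C0 ω)) ≤ CH p L2 M :=
    CH_mono_cond h0 fun ω ω' _ _ hh => (Prod.ext_iff.1 hh).1
  linarith

/-- The bits up to a later window and the bits behind it. -/
theorem ev_lo (h0 : ∀ ω, 0 ≤ p ω) {n : ℕ} (u : Ω → Fin (n + 1) → ℤ) (L2 : Ω → Fin n → ℤ) {P Q Z Z' Y : Type}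
    (pa : Ω → P) (q : Ω → Q) (z : Ω → Z) (z' : Ω → Z') (y : Ω → Y) {a b c g e : ℝ}
    (h1 : a ≤ CH p (fun ω => (Fin.cons (u ω 0) (L2 ω) : Fin (n + 1) → ℤ))
      (fun ω => ((pa ω, q ω), (z ω, y ω))))
    (h2 : CH p (fun ω => (Fin.cons (u ω 0) (L2 ω) : Fin (n + 1) → ℤ))
      (fun ω => (pa ω, (z' ω, y ω))) ≤ b)
    (h3 : c ≤ CH p (fun ω (i : Fin n) => u ω i.succ) (fun ω => ((pa ω, q ω), (z' ω, y ω))))
    (h4 : CH p L2 (fun ω (i : Fin n) => u ω i.succ) ≤ g) (h5 : CH p z z' ≤ e) :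
    a + c - (b + g + e) ≤ CH p u (fun ω => ((pa ω, q ω), (z ω, y ω))) := by
  obtain ⟨L, hL⟩ : ∃ L : Ω → Fin (n + 1) → ℤ, L = fun ω => Fin.cons (u ω 0) (L2 ω) := ⟨_, rfl⟩
  obtain ⟨M, hM⟩ : ∃ M : Ω → Fin n → ℤ, M = fun ω (i : Fin n) => u ω i.succ := ⟨_, rfl⟩
  obtain ⟨C, hC⟩ : ∃ C : Ω → (P × Q) × (Z × Y), C = fun ω => ((pa ω, q ω), (z ω, y ω)) := ⟨_, rfl⟩
  obtain ⟨C', hC'⟩ : ∃ C : Ω → (P × Q) × (Z' × Y), C = fun ω => ((pa ω, q ω), (z' ω, y ω)) :=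
    ⟨_, rfl⟩
  rw [← hC, ← hL] at h1
  rw [← hL] at h2
  rw [← hM, ← hC'] at h3
  rw [← hM] at h4
  rw [← hC]
  have c1 := CH_chain h0 M L C
  have c2 := CH_le_add h0 (fun ω => (M ω, L ω)) u C
  have c3 : CH p (fun ω => (M ω, L ω)) (fun ω => (u ω, C ω)) ≤ CH p L2 M := by
    have k1 : CH p (fun ω => (M ω, L ω)) (fun ω => (u ω, C ω)) ≤ CH p L2 (fun ω => (u ω, C ω)) :=
      CH_mono_left h0 fun ω ω' _ _ hh => by
        have e1 := Prod.ext_iff.1 hh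
        have e2 := (Prod.ext_iff.1 e1.2).1
        simp only at e1 e2
        rw [hM, hL]
        dsimp only
        rw [e2, e1.1]
    refine k1.trans (CH_mono_cond h0 fun ω ω' _ _ hh => ?_)
    have e2 := (Prod.ext_iff.1 hh).1
    simp only at e2
    rw [hM]
    dsimp only
    rw [e2]
  have c4 := CH_le_add h0 M (fun ω => (L ω, z ω)) C'
  have c5 := CH_subadd h0 L z C'
  have c6 : CH p L C' ≤ CH p L (fun ω => (pa ω, (z' ω, y ω))) := by
    rw [hC']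
    exact CH_mono_cond h0 fun ω ω' _ _ hh => by
      simp only [Prod.mk.injEq] at hh ⊢
      exact ⟨hh.1.1, hh.2⟩
  have c7 : CH p z C' ≤ CH p z z' := by
    rw [hC']
    exact CH_mono_cond h0 fun ω ω' _ _ hh => (Prod.ext_iff.1 (Prod.ext_iff.1 hh).2).1
  have c8 : CH p M (fun ω => ((L ω, z ω), C' ω)) ≤ CH p M (fun ω => (L ω, C ω)) := by
    rw [hC', hC]
    exact CH_mono_cond h0 fun ω ω' _ _ hh => by
      simp only [Prod.mk.injEq] at hh ⊢
      exact ⟨hh.1.1, hh.2.1, hh.1.2, hh.2.2.2⟩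
  linarith

end ev

/-- The empty list. -/
theorem mx_nil {C₀ : ℝ} (htm : TmC S C₀) (j : ℕ) (o : ℕ → ℝ) (x : ℝ) {ε : ℝ} (hε : 0 ≤ ε) :
    UpQ S y₀ c d sn nH nV b x (mxR m c d k T b j 0 o) ε ∧
    LoQ S y₀ c d kB oB sn TB nH nV nB b x (mxR m c d k T b j 0 o) (-ε) := by
  refine ⟨⟨1, one_pos, 1, one_pos, fun K => Bas.mono 0 (Pool.GRW.tmc_bas htm one_pos) ?_⟩,
    ⟨1, one_pos, 1, one_pos, fun K => Bas.mono 0 (Pool.GRW.tmc_bas htm one_pos) ?_⟩⟩
  · rintro J - F A ⟨hA, -⟩ V z hz u pa hu hpa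
    rw [CH_eq_zero (isLaw_cond F.isLaw hA).nonneg fun ω ω' _ _ _ => Subsingleton.elim _ _]
    exact mul_nonneg hε (Nat.cast_nonneg J)
  · rintro J - F A ⟨hA, -⟩ V z hz u q pa hu hq hpa
    rw [CH_eq_zero (isLaw_cond F.isLaw hA).nonneg fun ω ω' _ _ _ => Subsingleton.elim _ _]
    have := mul_nonneg hε (Nat.cast_nonneg (α := ℝ) J)
    linarith

/-- **The first jet given the other ones**, from above: from the numbers of two lists with the digits
of `of`. -/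
theorem fst_up {C₀ : ℝ} (htm : TmC S C₀)
    (hexB : Exs S (jtR m c d kB oB TB b nB)) {n j : ℕ} {N : ℕ → ℝ} {x of ρ ρ' δ ε : ℝ}
    (hδ : 0 ≤ δ) (hε : 0 < ε)
    (h1 : UpQ S y₀ c d sn nH nV b x (mxR m c d k T b j (n + 1) (fun _ => of)) ρ)
    (h2 : LoQ S y₀ c d kB oB sn TB nH nV nB b x (mxR m c d k T b (j + 1) n (fun _ => of)) ρ')
    (hT : ∀ i, j + 1 ≤ i → i < j + 1 + n → T of - (i : ℝ) * of ≤ N i + δ) :
    ∃ κ₁ : ℝ, 0 < κ₁ ∧ ∃ e₀ : ℝ, 0 < e₀ ∧ ∀ K : ℕ, Bas S (fun J F A =>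
      ∀ (V : Type) (z : F.Ω → V), Mx (fun J F => ptr F J) (vg x) κ₁ F A z →
      ∀ f M pa, (qJet m ((range d).image c) k j b (T b) (T of - (j : ℝ) * of)).P K e₀ J F A f →
      (ndR m c d k T b (j + 1) n N).P K e₀ J F A M →
      (paQ m c d b (fun l => sn l b) nH nV).P K e₀ J F A pa →
      CH (Pool.Agent.H49.Ent.cond F.p A True) f (fun ω => (M ω, (pa ω, (z ω, y₀ J F ω)))) ≤
        (ρ - ρ' + n * δ + ε) * J) := by
  obtain ⟨k1, hk1, e1, he1, H1⟩ := h1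
  obtain ⟨k2, hk2, e2, he2, H2⟩ := h2
  obtain ⟨M, hM⟩ := ndR_dig (m := m) (c := c) (d := d) (k := k) (T := T) (b := b) (j + 1) n N
    (fun i => T of - (i : ℝ) * of)
  obtain ⟨e₀, he₀, l1, l2⟩ : ∃ e₀ : ℝ, 0 < e₀ ∧ e₀ ≤ e1 ∧ e₀ ≤ e2 :=
    ⟨min e1 e2, by positivity, by simp, by simp⟩
  obtain ⟨κ₁, hκ₁, m1, m2⟩ : ∃ κ : ℝ, 0 < κ ∧ κ ≤ k1 ∧ κ ≤ k2 :=
    ⟨min k1 k2, by positivity, by simp, by simp⟩
  obtain ⟨Kq, Mq, hq⟩ := hexB e₀ he₀
  obtain ⟨J₁, hJ₁⟩ := exists_nat_ge (n * Real.log 9 / ε)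
  refine ⟨κ₁, hκ₁, e₀, he₀, fun K => Bas.mono (J₁ + 1) (((H1 (K + M + Kq)).and
    (H2 (K + M + Kq))).and (hq.and (Pool.GRW.tmc_bas htm one_pos))) ?_⟩
  rintro J hJ F A ⟨⟨H1, H2⟩, ⟨q, hq, -⟩, hA, -⟩ V z hz f Mc pa hf hMc hpa
  have hcl := isLaw_cond F.isLaw hA
  have h0 := hcl.nonneg
  have hJ0 : (0 : ℝ) ≤ J := Nat.cast_nonneg J
  have hJr : (J₁ : ℝ) ≤ J := by exact_mod_cast (by omega : J₁ ≤ J)
  have hL : n * Real.log 9 ≤ ε * J := by
    have := hJ₁.trans hJr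
    rw [div_le_iff₀ hε] at this
    linarith
  obtain ⟨L2, hL2, hd⟩ := hM K e₀ J F A Mc (by omega) hMc
  have hd1 := (hd hA δ hδ).1 hT
  have hpa' := (paQ m c d b (fun l => sn l b) nH nV).mono (K' := K + M + Kq) (by omega)
    (le_refl e₀) hpa
  have hcons := mxR_cons (c := c) (d := d) (k := k) (T := T) (b := b) (o := fun _ => of)
    ((qJet m ((range d).image c) k j b (T b) (T of - (j : ℝ) * of)).mono (K' := K + M) (by omega)
      (le_refl e₀) hf) hL2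
  have g1 := H1 V z (hz.le' m1) _ pa
    ((mxR m c d k T b j (n + 1) (fun _ => of)).mono (K' := K + M + Kq) (by omega) l1 hcons)
    ((paQ m c d b (fun l => sn l b) nH nV).mono le_rfl l1 hpa')
  have g2 := H2 V z (hz.le' m2) _ q pa
    ((mxR m c d k T b (j + 1) n (fun _ => of)).mono (K' := K + M + Kq) (by omega) l2 hL2)
    ((jtR m c d kB oB TB b nB).mono (by omega) l2 hq)
    ((paQ m c d b (fun l => sn l b) nH nV).mono le_rfl l2 hpa')
  have g3 := ev_up h0 f Mc L2 (fun ω => (pa ω, (z ω, y₀ J F ω)))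
    (fun ω => ((pa ω, q ω), (z ω, y₀ J F ω))) (fun ω ω' _ _ hh => by
      simp only [Prod.mk.injEq] at hh ⊢
      exact ⟨hh.1.1, hh.2⟩) g1 g2 hd1
  refine g3.trans ?_
  have e5 : (ρ - ρ' + n * δ + ε) * J = ρ * J - ρ' * J + n * (δ * J) + ε * J := by ring
  have e6 : (n : ℝ) * (δ * J + Real.log 9) = n * (δ * J) + n * Real.log 9 := by ring
  rw [e5, e6]
  linarith

/-- **The number of the jets with mixed digits.** -/
theorem mx_num {C₀ : ℝ} (htm : TmC S C₀)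
    (hexB : Exs S (jtR m c d kB oB TB b nB)) {jt j₀ : ℕ} {φ : ℕ → ℝ} {κ δ Ω : ℝ}
    (hδ : 0 ≤ δ) (hΩ : Ω ≤ 1) (hφ : φ jt = 0)
    (H : ∀ n j : ℕ, j + n = jt → j₀ ≤ j → ∀ x o : ℝ, b ≤ x → x ≤ o → o ≤ Ω →
      RtJ S y₀ c d (fun _ : Fin n => k) (fun i => odv j i) kB oB sn (fun _ w => T w) TB nH nV nB
        b x o (φ j * (o - x)) κ)
    (hT : ∀ i : ℕ, j₀ ≤ i → i < jt → ∀ u v : ℝ, b ≤ u → u ≤ v → v ≤ Ω →
      T u - (i : ℝ) * u ≤ T v - (i : ℝ) * v + δ)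
    (n : ℕ) : ∀ j : ℕ, j + n = jt → j₀ ≤ j → ∀ o : ℕ → ℝ,
      (∀ i i', j ≤ i → i ≤ i' → i' < jt → o i ≤ o i') → (∀ i, j ≤ i → i < jt → o i ≤ Ω) →
      ∀ x, b ≤ x → (∀ i, j ≤ i → i < jt → x ≤ o i) → ∀ ε : ℝ, 0 < ε →
      UpQ S y₀ c d sn nH nV b x (mxR m c d k T b j n o)
        (∑ i ∈ Finset.Ico j jt, (φ i - φ (i + 1)) * (o i - x) + (n * (2 * κ + n * δ) + ε)) ∧
      LoQ S y₀ c d kB oB sn TB nH nV nB b x (mxR m c d k T b j n o)
        (∑ i ∈ Finset.Ico j jt, (φ i - φ (i + 1)) * (o i - x) - (n * (2 * κ + n * δ) + ε)) := by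
  induction n with
  | zero =>
    intro j hj hj0 o ho hoΩ x hx hxo ε hε
    obtain rfl : j = jt := by omega
    have h1 := mx_nil (y₀ := y₀) (c := c) (d := d) (sn := sn) (k := k) (T := T) (kB := kB)
      (oB := oB) (TB := TB) (nH := nH) (nV := nV) (nB := nB) (b := b) htm j o x hε.le
    have e1 : ∑ i ∈ Finset.Ico j j, (φ i - φ (i + 1)) * (o i - x) = 0 := by simp
    rw [e1]
    exact ⟨h1.1.le (by simp), h1.2.le (by simp)⟩
  | succ n ih =>
    intro j hj hj0 o ho hoΩ x hx hxo ε hε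
    have hjt : j < jt := by omega
    have hxj := hxo j le_rfl hjt
    have hjΩ := hoΩ j le_rfl hjt
    have hbj : b ≤ o j := hx.trans hxj
    have hε4 : 0 < ε / 4 := by positivity
    -- the sums
    obtain ⟨Sm, hSm⟩ : ∃ s, s = ∑ i ∈ Finset.Ico (j + 1) jt, (φ i - φ (i + 1)) * (o i - x) :=
      ⟨_, rfl⟩
    have eS1 : ∑ i ∈ Finset.Ico j jt, (φ i - φ (i + 1)) * (o i - x) =
        (φ j - φ (j + 1)) * (o j - x) + Sm := by
      rw [hSm, Finset.sum_eq_sum_Ico_succ_bot hjt]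
    have eS2 : ∑ i ∈ Finset.Ico (j + 1) jt, (φ i - φ (i + 1)) * (o i - o j) =
        Sm - φ (j + 1) * (o j - x) := by
      rw [hSm]
      exact tel_sh (by omega) x (o j) hφ
    -- the numbers
    have a1 := H (n + 1) j (by omega) hj0 x (o j) hx hxj hjΩ
    have a2 := H (n + 1) j (by omega) hj0 (o j) (o j) hbj le_rfl hjΩ
    have a3 := H n (j + 1) (by omega) (by omega) x (o j) hx hxj hjΩ
    have u1 := rtJ_up hexB a1
    have u2 := rtJ_up hexB a2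
    have v1 := rtJ_lo a1
    have v3 := rtJ_lo a3
    obtain ⟨i1, -⟩ := ih (j + 1) (by omega) (by omega) o (fun i i' h1 h2 h3 => ho i i' (by omega) h2 h3)
      (fun i h1 h2 => hoΩ i (by omega) h2) x hx (fun i h1 h2 => hxo i (by omega) h2) (ε / 4) hε4
    obtain ⟨-, i2⟩ := ih (j + 1) (by omega) (by omega) o (fun i i' h1 h2 h3 => ho i i' (by omega) h2 h3)
      (fun i h1 h2 => hoΩ i (by omega) h2) (o j) hbj (fun i h1 h2 => ho j i le_rfl (by omega) h2)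
      (ε / 4) hε4
    rw [← hSm] at i1
    rw [eS2] at i2
    have hTT : ∀ i, j + 1 ≤ i → i < j + 1 + n →
        T (o j) - (i : ℝ) * o j ≤ T (o i) - (i : ℝ) * o i + δ := fun i h1 h2 =>
      hT i (by omega) (by omega) (o j) (o i) hbj (ho j i le_rfl (by omega) (by omega))
        (hoΩ i (by omega) (by omega))
    have w1 := fst_up htm hexB (N := fun i => T (o i) - (i : ℝ) * o i) hδ hε4 u1 v3 hTT
    obtain ⟨M, hM⟩ := mxR_dig (m := m) (c := c) (d := d) (k := k) (T := T) (b := b) (j + 1) n o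
      (fun _ => o j)
    rw [eS1]
    constructor
    · obtain ⟨k1, hk1, e1, he1, H1⟩ := w1
      obtain ⟨k2, hk2, e2, he2, H2⟩ := i1
      refine ⟨min k1 k2, by positivity, min e1 e2, by positivity, fun K => Bas.mono 0
        (((H1 K).and (H2 K)).and (Pool.GRW.tmc_bas htm one_pos)) ?_⟩
      rintro J - F A ⟨⟨H1, H2⟩, hA, -⟩ V z hz u pa hu hpa
      have h0 := (isLaw_cond F.isLaw hA).nonneg
      have hJ0 : (0 : ℝ) ≤ J := Nat.cast_nonneg J
      have g1 := H1 V z (hz.le' (min_le_left _ _)) _ _ pa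
        ((qJet m _ k j b _ _).mono le_rfl (min_le_left _ _) (mxR_head hu))
        ((mxR m c d k T b (j + 1) n o).mono le_rfl (min_le_left _ _) (mxR_tail hu))
        ((paQ m c d b (fun l => sn l b) nH nV).mono le_rfl (min_le_left _ _) hpa)
      have g2 := H2 V z (hz.le' (min_le_right _ _)) _ pa
        ((mxR m c d k T b (j + 1) n o).mono le_rfl (min_le_right _ _) (mxR_tail hu))
        ((paQ m c d b (fun l => sn l b) nH nV).mono le_rfl (min_le_right _ _) hpa)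
      have g3 := CH_chain h0 (fun ω => u ω 0) (fun ω (i : Fin n) => u ω i.succ)
        (fun ω => (pa ω, (z ω, y₀ J F ω)))
      have g4 : CH (Pool.Agent.H49.Ent.cond F.p A True) u (fun ω => (pa ω, (z ω, y₀ J F ω))) ≤
          CH (Pool.Agent.H49.Ent.cond F.p A True) (fun ω => (u ω 0, fun i : Fin n => u ω i.succ))
            (fun ω => (pa ω, (z ω, y₀ J F ω))) :=
        CH_mono_left h0 fun ω ω' _ _ hh => by
          have h4 := Prod.ext_iff.1 (Prod.ext_iff.1 hh).1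
          funext i
          refine Fin.cases ?_ (fun i => ?_) i
          · exact h4.1
          · exact congrFun h4.2 i
      have e7 : ((φ j - φ (j + 1)) * (o j - x) + Sm + (((n + 1 : ℕ) : ℝ) *
          (2 * κ + ((n + 1 : ℕ) : ℝ) * δ) + ε)) * J =
          (φ j * (o j - x) + κ - (φ (j + 1) * (o j - x) - κ) + n * δ + ε / 4) * J +
          (Sm + (n * (2 * κ + n * δ) + ε / 4)) * J + ((n + 1) * δ + ε / 2) * J := by
        push_cast
        ring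
      have e8 : 0 ≤ ((n + 1) * δ + ε / 2) * J := by positivity
      rw [e7]
      linarith
    · obtain ⟨k1, hk1, e1, he1, H1⟩ := v1
      obtain ⟨k2, hk2, e2, he2, H2⟩ := u2
      obtain ⟨k3, hk3, e3, he3, H3⟩ := i2
      obtain ⟨e₀, he₀, l1, l2, l3⟩ : ∃ e₀ : ℝ, 0 < e₀ ∧ e₀ ≤ e1 ∧ e₀ ≤ e2 ∧ e₀ ≤ e3 :=
        ⟨min e1 (min e2 e3), by positivity, by simp, by simp, by simp⟩
      obtain ⟨J₁, hJ₁⟩ := exists_nat_ge (n * Real.log 9 / (ε / 4))
      refine ⟨k1, hk1, e₀, he₀, fun K => Bas.mono (J₁ + 1) (((H1 (K + M)).and (H2 (K + M))).and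
        ((H3 K).and (Pool.GRW.tmc_bas htm one_pos))) ?_⟩
      rintro J hJ F A ⟨⟨H1, H2⟩, H3, hA, -⟩ V z hz u q pa hu hq hpa
      have hcl := isLaw_cond F.isLaw hA
      have h0 := hcl.nonneg
      have hJ0 : (0 : ℝ) ≤ J := Nat.cast_nonneg J
      have hJr : (J₁ : ℝ) ≤ J := by exact_mod_cast (by omega : J₁ ≤ J)
      have hL : n * Real.log 9 ≤ ε / 4 * J := by
        have := hJ₁.trans hJr
        rw [div_le_iff₀ hε4] at this
        linarith
      obtain ⟨V', z', hz'⟩ := Pool.V1E.mx_any (fun J F => ptr F J) (vg (o j)) (le_refl (0 : ℝ)) hA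
      have hzz := hz'.2 _ z (cl2_vg (f := fun J F => ptr F J) hxj (hjΩ.trans hΩ) hz.1)
      rw [zero_mul] at hzz
      have hMt := mxR_tail hu
      obtain ⟨L2, hL2, hd⟩ := hM K e₀ J F A _ (by omega) hMt
      have hd1 := hd hA δ hδ hTT
      have hcons := mxR_cons (c := c) (d := d) (k := k) (T := T) (b := b) (o := fun _ => o j)
        ((qJet m ((range d).image c) k j b (T b) (T (o j) - (j : ℝ) * o j)).mono (K' := K + M)
          (by omega) (le_refl e₀) (mxR_head hu)) hL2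
      have hpa' := (paQ m c d b (fun l => sn l b) nH nV).mono (K' := K + M) (by omega)
        (le_refl e₀) hpa
      have g1 := H1 V z hz _ q pa
        ((mxR m c d k T b j (n + 1) (fun _ => o j)).mono le_rfl l1 hcons)
        ((jtR m c d kB oB TB b nB).mono (by omega) l1 hq)
        ((paQ m c d b (fun l => sn l b) nH nV).mono le_rfl l1 hpa')
      have g2 := H2 V' z' (hz'.le' hk2.le) _ pa
        ((mxR m c d k T b j (n + 1) (fun _ => o j)).mono le_rfl l2 hcons)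
        ((paQ m c d b (fun l => sn l b) nH nV).mono le_rfl l2 hpa')
      have g3 := H3 V' z' (hz'.le' hk3.le) _ q pa
        ((mxR m c d k T b (j + 1) n o).mono le_rfl l3 hMt)
        ((jtR m c d kB oB TB b nB).mono le_rfl l3 hq)
        ((paQ m c d b (fun l => sn l b) nH nV).mono le_rfl l3 hpa)
      have g4 := ev_lo h0 u L2 pa q z z' (y₀ J F) g1 g2 g3 hd1 hzz
      refine le_trans (le_of_eq_of_le ?_ (sub_le_self _ (show
        0 ≤ ((n + 1) * δ + ε / 2) * J + (ε / 4 * J - n * Real.log 9) from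
        add_nonneg (by positivity) (by linarith)))) g4
      push_cast
      ring

end

end Pool.NA24
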