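import Pool.Agent.H24.NA3.Lab
import Pool.Agent.H28.NA.Hi

/-!
# Other precisions of the labels

`UpG`, `LoG`, `SkQ`: numbers given a quantity for the near path, any quantities. `UpG.tr`, `LoG.tr`,
`SkQ.tr`: other quantities which are few bits given the first ones and conversely. `pa_pa`, `ls_ls`:
near path and lists of jets over labels of two precisions.
-/

set_option autoImplicit false

namespace Pool.NA24

open Finset Real MvPolynomial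
open Pool.Agent.H49.Ent Pool.Agent.H32.Dense Pool.STK Pool.KA Pool.KSAT Pool.K2S Pool.PB Pool.S6C
  Pool.GEN Pool.RCD Pool.LA91 Pool.LP30 Pool.LPJ30 Pool.RJ28
open Pool.V0F
open Pool.NDC42 (mov_jets mov_tgt few_cut)
open Pool.NA28 (jts_pa paQ_jt)

variable {m : ℕ}

/-! ### Numbers of quantities -/

section

variable {γ : ∀ J : ℕ, Fam m J → Type} {S : PCl m}
  {y₀ : ∀ (J : ℕ) (F : Fam m J), F.Ω → γ J F}

/-- The number of `Q` given `P` and the record at `x`: at most `ρ`. -/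
def UpG (S : PCl m) (y₀ : ∀ (J : ℕ) (F : Fam m J), F.Ω → γ J F) {U₁ : Type} (P : Qt m U₁) (x : ℝ)
    {U : Type} (Q : Qt m U) (ρ : ℝ) : Prop :=
  ∃ κ₁ : ℝ, 0 < κ₁ ∧ ∃ e₀ : ℝ, 0 < e₀ ∧ ∀ K : ℕ, Bas S (fun J F A =>
    ∀ (V : Type) (z : F.Ω → V), Mx (fun J F => ptr F J) (vg x) κ₁ F A z →
    ∀ u pa, Q.P K e₀ J F A u → P.P K e₀ J F A pa →
    CH (Pool.Agent.H49.Ent.cond F.p A True) u (fun ω => (pa ω, (z ω, y₀ J F ω))) ≤ ρ * J)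

/-- The number of `Q` given `P`, `B` and the record at `x`: at least `ρ`. -/
def LoG (S : PCl m) (y₀ : ∀ (J : ℕ) (F : Fam m J), F.Ω → γ J F) {U₁ U₂ : Type} (P : Qt m U₁)
    (B : Qt m U₂) (x : ℝ) {U : Type} (Q : Qt m U) (ρ : ℝ) : Prop :=
  ∃ κ₁ : ℝ, 0 < κ₁ ∧ ∃ e₀ : ℝ, 0 < e₀ ∧ ∀ K : ℕ, Bas S (fun J F A =>
    ∀ (V : Type) (z : F.Ω → V), Mx (fun J F => ptr F J) (vg x) κ₁ F A z →
    ∀ u q pa, Q.P K e₀ J F A u → B.P K e₀ J F A q → P.P K e₀ J F A pa →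
    ρ * J ≤ CH (Pool.Agent.H49.Ent.cond F.p A True) u
      (fun ω => ((pa ω, q ω), (z ω, y₀ J F ω))))

/-- The record at `o` does not see `B` given `P` and the record at `x`. -/
def SkQ (S : PCl m) (y₀ : ∀ (J : ℕ) (F : Fam m J), F.Ω → γ J F) {U₁ U₂ : Type} (P : Qt m U₁)
    (B : Qt m U₂) (x o κ : ℝ) : Prop :=
  ∃ κ₁ : ℝ, 0 < κ₁ ∧ ∃ e₀ : ℝ, 0 < e₀ ∧ ∀ K : ℕ, Bas S (fun J F A =>
    ∀ (V : Type) (z : F.Ω → V) (V' : Type) (z' : F.Ω → V'),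
    Mx (fun J F => ptr F J) (vg x) κ₁ F A z → Mx (fun J F => ptr F J) (vg o) κ₁ F A z' →
    ∀ q pa, B.P K e₀ J F A q → P.P K e₀ J F A pa →
    CH (Pool.Agent.H49.Ent.cond F.p A True) q (fun ω => (pa ω, (z ω, y₀ J F ω))) ≤
      CH (Pool.Agent.H49.Ent.cond F.p A True) q (fun ω => (pa ω, ((z ω, z' ω), y₀ J F ω))) +
        κ * J)

section law

variable {Ω : Type} [Fintype Ω] {p : Ω → ℝ}

/-- Few bits one way. -/
theorem tr_up (h0 : ∀ ω, 0 ≤ p ω) {P P' U U' Z : Type} (pa : Ω → P) (pa' : Ω → P') (u : Ω → U)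
    (u' : Ω → U') (z : Ω → Z) {a e e' : ℝ} (h1 : CH p u (fun ω => (pa ω, z ω)) ≤ a)
    (h2 : CH p pa (fun ω => (pa' ω, z ω)) ≤ e)
    (h3 : CH p u' (fun ω => ((pa ω, u ω), z ω)) ≤ e') :
    CH p u' (fun ω => (pa' ω, z ω)) ≤ a + e + e' := by
  have s1 := CH_le_add h0 u' (fun ω => (pa ω, u ω)) (fun ω => (pa' ω, z ω))
  have s2 := CH_chain h0 u pa (fun ω => (pa' ω, z ω))
  have s3 : CH p (fun ω => (pa ω, u ω)) (fun ω => (pa' ω, z ω)) =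
      CH p (fun ω => (u ω, pa ω)) (fun ω => (pa' ω, z ω)) :=
    CH_congr h0 (fun ω ω' _ _ h => by
      simp only [Prod.mk.injEq] at h ⊢
      exact ⟨h.1.2, h.1.1⟩) (fun ω ω' _ _ h => by
      simp only [Prod.mk.injEq] at h ⊢
      exact ⟨h.1.2, h.1.1⟩) (fun _ _ _ _ h => h) (fun _ _ _ _ h => h)
  have s4 : CH p u (fun ω => (pa ω, (pa' ω, z ω))) ≤ CH p u (fun ω => (pa ω, z ω)) :=
    CH_mono_cond h0 fun ω ω' _ _ h => by
      simp only [Prod.mk.injEq] at h ⊢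
      exact ⟨h.1, h.2.2⟩
  have s5 : CH p u' (fun ω => ((pa ω, u ω), (pa' ω, z ω))) ≤ CH p u' (fun ω => ((pa ω, u ω), z ω)) :=
    CH_mono_cond h0 fun ω ω' _ _ h => by
      simp only [Prod.mk.injEq] at h ⊢
      exact ⟨h.1, h.2.2⟩
  linarith

/-- Few bits the other way, with data of the second kind. -/
theorem tr_lo (h0 : ∀ ω, 0 ≤ p ω) {P P' U U' B B' Z : Type} (pa : Ω → P) (pa' : Ω → P') (u : Ω → U)
    (u' : Ω → U') (q : Ω → B) (q' : Ω → B') (z : Ω → Z) {a e e' e'' : ℝ}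
    (h1 : a ≤ CH p u (fun ω => ((pa ω, q ω), z ω)))
    (h2 : CH p pa' (fun ω => (pa ω, z ω)) ≤ e)
    (h3 : CH p q' (fun ω => ((pa ω, q ω), z ω)) ≤ e')
    (h4 : CH p u (fun ω => ((pa' ω, u' ω), z ω)) ≤ e'') :
    a - e - e' - e'' ≤ CH p u' (fun ω => ((pa' ω, q' ω), z ω)) := by
  obtain ⟨C, hC⟩ : ∃ C, C = fun ω => ((pa ω, q ω), z ω) := ⟨_, rfl⟩
  rw [← hC] at h1
  have s1 := CH_le_add h0 u (fun ω => (u' ω, (pa' ω, q' ω))) C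
  have s2 := CH_chain h0 u' (fun ω => (pa' ω, q' ω)) C
  have s3 := CH_subadd h0 pa' q' C
  have s4 : CH p pa' C ≤ CH p pa' (fun ω => (pa ω, z ω)) := CH_mono_cond h0 fun ω ω' _ _ h => by
    rw [hC] at h
    simp only [Prod.mk.injEq] at h ⊢
    exact ⟨h.1.1, h.2⟩
  have s5 : CH p q' C ≤ e' := by
    rw [hC]
    exact h3
  have s6 : CH p u' (fun ω => ((pa' ω, q' ω), C ω)) ≤ CH p u' (fun ω => ((pa' ω, q' ω), z ω)) :=
    CH_mono_cond h0 fun ω ω' _ _ h => by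
      rw [hC] at h
      simp only [Prod.mk.injEq] at h ⊢
      exact ⟨h.1, h.2.2⟩
  have s7 : CH p u (fun ω => ((u' ω, (pa' ω, q' ω)), C ω)) ≤
      CH p u (fun ω => ((pa' ω, u' ω), z ω)) := CH_mono_cond h0 fun ω ω' _ _ h => by
    rw [hC] at h
    simp only [Prod.mk.injEq] at h ⊢
    exact ⟨⟨h.1.2.1, h.1.1⟩, h.2.2⟩
  linarith

end law

variable {U₁ U₁' U U' U₂ U₂' : Type} {P : Qt m U₁} {P' : Qt m U₁'} {Q : Qt m U} {Q' : Qt m U'}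
  {B : Qt m U₂} {B' : Qt m U₂'} {w x : ℝ}

/-- A relation over the record of a later window. -/
theorem few_mx (hpos : ∀ (τ : ℝ) (J : ℕ) (F : Fam m J) (A : F.Ω → Prop), S.St τ J F A → 0 < Pe F.p A)
    (hwx : w ≤ x) (hx1 : x ≤ 1) (h : Few S (fun J F => ptr F J) (vg w) y₀ P Q) {ε : ℝ}
    (hε : 0 < ε) : ∃ κ₁ : ℝ, 0 < κ₁ ∧ ∃ e₀ : ℝ, 0 < e₀ ∧ ∀ K : ℕ, Bas S (fun J F A =>
      ∀ (V : Type) (z : F.Ω → V), Mx (fun J F => ptr F J) (vg x) κ₁ F A z →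
      ∀ u₁ u, P.P K e₀ J F A u₁ → Q.P K e₀ J F A u →
      CH (Pool.Agent.H49.Ent.cond F.p A True) u (fun ω => (u₁ ω, (z ω, y₀ J F ω))) ≤ ε * J) := by
  have h1 : Few S (fun J F => ptr F J) (vg x) y₀ P Q :=
    Few.up hpos (fun J F => ⟨fun x => x, fun _ => rfl⟩) (fun J F => vg_mono hwx hx1 J F)
      (fun J F => ⟨fun x => x, fun _ => rfl⟩) h
  obtain ⟨e₀, he₀, H⟩ := h1.mx hpos ε hε
  exact ⟨ε / 2, half_pos hε, e₀, he₀, fun K => Bas.mono 0 (H K)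
    fun J _ F A H V z hz u₁ u hu₁ hu => H V z hz u₁ u hu₁ hu⟩

/-- **The number from above** for other quantities. -/
theorem UpG.tr (hpos : ∀ (τ : ℝ) (J : ℕ) (F : Fam m J) (A : F.Ω → Prop), S.St τ J F A → 0 < Pe F.p A)
    (hwx : w ≤ x) (hx1 : x ≤ 1) (hP : Exs S P) (hQ : Exs S Q)
    (h1 : Few S (fun J F => ptr F J) (vg w) y₀ P' P)
    (h2 : Few S (fun J F => ptr F J) (vg w) y₀ (P.prod Q) Q') {ρ ε : ℝ} (hε : 0 < ε)
    (h : UpG S y₀ P x Q ρ) : UpG S y₀ P' x Q' (ρ + ε) := by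
  obtain ⟨k1, hk1, e1, he1, H1⟩ := h
  obtain ⟨k2, hk2, e2, he2, H2⟩ := few_mx hpos hwx hx1 h1 (half_pos hε)
  obtain ⟨k3, hk3, e3, he3, H3⟩ := few_mx hpos hwx hx1 h2 (half_pos hε)
  obtain ⟨e₀, he₀, l1, l2, l3⟩ : ∃ e₀ : ℝ, 0 < e₀ ∧ e₀ ≤ e1 ∧ e₀ ≤ e2 ∧ e₀ ≤ e3 :=
    ⟨min e1 (min e2 e3), by positivity, by simp, by simp, by simp⟩
  obtain ⟨κ, hκ, m1, m2, m3⟩ : ∃ κ : ℝ, 0 < κ ∧ κ ≤ k1 ∧ κ ≤ k2 ∧ κ ≤ k3 :=
    ⟨min k1 (min k2 k3), by positivity, by simp, by simp, by simp⟩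
  obtain ⟨Kp, Mp, hp⟩ := hP e₀ he₀
  obtain ⟨Kq, Mq, hq⟩ := hQ e₀ he₀
  refine ⟨κ, hκ, e₀, he₀, fun K => Bas.mono 0 ((((H1 (K + Kp + Kq)).and (H2 (K + Kp + Kq))).and
    (H3 (K + Kp + Kq))).and ((hp.and hq).and (pos_bas hpos))) ?_⟩
  rintro J - F A ⟨⟨⟨H1, H2⟩, H3⟩, ⟨⟨pa, hpa, -⟩, u, hu, -⟩, hA⟩ V z hz u' pa' hu' hpa'
  have h0 := (isLaw_cond F.isLaw hA).nonneg
  have g1 := H1 V z (hz.le' m1) u pa (Q.mono (by omega) l1 hu) (P.mono (by omega) l1 hpa)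
  have g2 := H2 V z (hz.le' m2) pa' pa (P'.mono (by omega) l2 hpa') (P.mono (by omega) l2 hpa)
  have g3 := H3 V z (hz.le' m3) (fun ω => (pa ω, u ω)) u'
    ((P.prod Q).mono (K := Kp + Kq) (by omega) l3
      ⟨P.mono (by omega) le_rfl hpa, Q.mono (by omega) le_rfl hu⟩) (Q'.mono (by omega) l3 hu')
  have g4 := tr_up h0 pa pa' u u' (fun ω => (z ω, y₀ J F ω)) g1 g2 g3
  refine g4.trans (le_of_eq ?_)
  ring

/-- **The number from below** for other quantities. -/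
theorem LoG.tr (hpos : ∀ (τ : ℝ) (J : ℕ) (F : Fam m J) (A : F.Ω → Prop), S.St τ J F A → 0 < Pe F.p A)
    (hwx : w ≤ x) (hx1 : x ≤ 1) (hP : Exs S P) (hQ : Exs S Q) (hB : Exs S B)
    (h1 : Few S (fun J F => ptr F J) (vg w) y₀ P P')
    (h2 : Few S (fun J F => ptr F J) (vg w) y₀ (P.prod B) B')
    (h3 : Few S (fun J F => ptr F J) (vg w) y₀ (P'.prod Q') Q) {ρ ε : ℝ} (hε : 0 < ε)
    (h : LoG S y₀ P B x Q ρ) : LoG S y₀ P' B' x Q' (ρ - ε) := by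
  obtain ⟨k1, hk1, e1, he1, H1⟩ := h
  obtain ⟨k2, hk2, e2, he2, H2⟩ := few_mx hpos hwx hx1 h1 (show 0 < ε / 3 by positivity)
  obtain ⟨k3, hk3, e3, he3, H3⟩ := few_mx hpos hwx hx1 h2 (show 0 < ε / 3 by positivity)
  obtain ⟨k4, hk4, e4, he4, H4⟩ := few_mx hpos hwx hx1 h3 (show 0 < ε / 3 by positivity)
  obtain ⟨e₀, he₀, l1, l2, l3, l4⟩ : ∃ e₀ : ℝ, 0 < e₀ ∧ e₀ ≤ e1 ∧ e₀ ≤ e2 ∧ e₀ ≤ e3 ∧ e₀ ≤ e4 :=
    ⟨min e1 (min e2 (min e3 e4)), by positivity, by simp, by simp, by simp, by simp⟩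
  obtain ⟨κ, hκ, m1, m2, m3, m4⟩ : ∃ κ : ℝ, 0 < κ ∧ κ ≤ k1 ∧ κ ≤ k2 ∧ κ ≤ k3 ∧ κ ≤ k4 :=
    ⟨min k1 (min k2 (min k3 k4)), by positivity, by simp, by simp, by simp, by simp⟩
  obtain ⟨Kp, Mp, hp⟩ := hP e₀ he₀
  obtain ⟨Kq, Mq, hq⟩ := hQ e₀ he₀
  obtain ⟨Kb, Mb, hb⟩ := hB e₀ he₀
  obtain ⟨K₁, hK₁⟩ : ∃ K₁ : ℕ, K₁ = Kp + Kq + Kb := ⟨_, rfl⟩
  refine ⟨κ, hκ, e₀, he₀, fun K => Bas.mono 0 ((((H1 (K + K₁)).and (H2 (K + K₁))).and
    ((H3 (K + K₁)).and (H4 (K + K₁)))).and ((hp.and hq).and (hb.and (pos_bas hpos)))) ?_⟩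
  rintro J - F A ⟨⟨⟨H1, H2⟩, H3, H4⟩, ⟨⟨pa, hpa, -⟩, u, hu, -⟩, ⟨q, hqq, -⟩, hA⟩ V z hz u' q' pa'
    hu' hq' hpa'
  have h0 := (isLaw_cond F.isLaw hA).nonneg
  have g1 := H1 V z (hz.le' m1) u q pa (Q.mono (by omega) l1 hu) (B.mono (by omega) l1 hqq)
    (P.mono (by omega) l1 hpa)
  have g2 := H2 V z (hz.le' m2) pa pa' (P.mono (by omega) l2 hpa) (P'.mono (by omega) l2 hpa')
  have g3 := H3 V z (hz.le' m3) (fun ω => (pa ω, q ω)) q'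
    ((P.prod B).mono (K := K₁) (by omega) l3
      ⟨P.mono (by omega) le_rfl hpa, B.mono (by omega) le_rfl hqq⟩) (B'.mono (by omega) l3 hq')
  have g4 := H4 V z (hz.le' m4) (fun ω => (pa' ω, u' ω)) u
    ((P'.prod Q').mono (K := K) (by omega) l4 ⟨hpa', hu'⟩) (Q.mono (by omega) l4 hu)
  have g5 := tr_lo h0 pa pa' u u' q q' (fun ω => (z ω, y₀ J F ω)) g1 g2 g3 g4
  refine le_trans (le_of_eq ?_) g5
  ring

/-- **The unseen data** for other quantities. -/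
theorem SkQ.tr (hpos : ∀ (τ : ℝ) (J : ℕ) (F : Fam m J) (A : F.Ω → Prop), S.St τ J F A → 0 < Pe F.p A)
    {o : ℝ} (hwx : w ≤ x) (hxo : x ≤ o) (ho1 : o ≤ 1) (hP : Exs S P) (hB : Exs S B)
    (h1 : Few S (fun J F => ptr F J) (vg w) y₀ P P')
    (h1' : Few S (fun J F => ptr F J) (vg w) y₀ P' P)
    (h2 : Few S (fun J F => ptr F J) (vg w) y₀ (P.prod B) B')
    (h2' : Few S (fun J F => ptr F J) (vg w) y₀ (P'.prod B') B) {κ₀ ε : ℝ} (hε : 0 < ε)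
    (h : SkQ S y₀ P B x o κ₀) : SkQ S y₀ P' B' x o (κ₀ + ε) := by
  obtain ⟨k1, hk1, e1, he1, H1⟩ := h
  have hε4 : 0 < ε / 4 := by positivity
  obtain ⟨k2, hk2, e2, he2, H2⟩ := few_mx hpos hwx (hxo.trans ho1) h1 hε4
  obtain ⟨k3, hk3, e3, he3, H3⟩ := few_mx hpos hwx (hxo.trans ho1) h1' hε4
  obtain ⟨k4, hk4, e4, he4, H4⟩ := few_mx hpos hwx (hxo.trans ho1) h2 hε4
  obtain ⟨k5, hk5, e5, he5, H5⟩ := few_mx hpos hwx (hxo.trans ho1) h2' hε4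
  obtain ⟨e₀, he₀, l1, l2, l3, l4, l5⟩ : ∃ e₀ : ℝ, 0 < e₀ ∧ e₀ ≤ e1 ∧ e₀ ≤ e2 ∧ e₀ ≤ e3 ∧
      e₀ ≤ e4 ∧ e₀ ≤ e5 :=
    ⟨min e1 (min e2 (min e3 (min e4 e5))), by positivity, by simp, by simp, by simp, by simp,
      by simp⟩
  obtain ⟨κ, hκ, m1, m2, m3, m4, m5⟩ : ∃ κ : ℝ, 0 < κ ∧ κ ≤ k1 ∧ κ ≤ k2 ∧ κ ≤ k3 ∧ κ ≤ k4 ∧
      κ ≤ k5 :=
    ⟨min k1 (min k2 (min k3 (min k4 k5))), by positivity, by simp, by simp, by simp, by simp,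
      by simp⟩
  obtain ⟨Kp, Mp, hp⟩ := hP e₀ he₀
  obtain ⟨Kb, Mb, hb⟩ := hB e₀ he₀
  obtain ⟨K₁, hK₁⟩ : ∃ K₁ : ℕ, K₁ = Kp + Kb := ⟨_, rfl⟩
  refine ⟨κ, hκ, e₀, he₀, fun K => Bas.mono 0 ((((H1 (K + K₁)).and (H2 (K + K₁))).and
    ((H3 (K + K₁)).and ((H4 (K + K₁)).and (H5 (K + K₁))))).and ((hp.and hb).and
      (pos_bas hpos))) ?_⟩
  rintro J - F A ⟨⟨⟨H1, H2⟩, H3, H4, H5⟩, ⟨⟨pa, hpa, -⟩, q, hqq, -⟩, hA⟩ V z V' z' hz hz' q' pa'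
    hq' hpa'
  have h0 := (isLaw_cond F.isLaw hA).nonneg
  have g1 := H1 V z V' z' (hz.le' m1) (hz'.le' m1) q pa (B.mono (by omega) l1 hqq)
    (P.mono (by omega) l1 hpa)
  have g2 := H2 V z (hz.le' m2) pa pa' (P.mono (by omega) l2 hpa) (P'.mono (by omega) l2 hpa')
  have g3 := H3 V z (hz.le' m3) pa' pa (P'.mono (by omega) l3 hpa') (P.mono (by omega) l3 hpa)
  have g4 := H4 V z (hz.le' m4) (fun ω => (pa ω, q ω)) q'
    ((P.prod B).mono (K := K₁) (by omega) l4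
      ⟨P.mono (by omega) le_rfl hpa, B.mono (by omega) le_rfl hqq⟩) (B'.mono (by omega) l4 hq')
  have g5 := H5 V z (hz.le' m5) (fun ω => (pa' ω, q' ω)) q
    ((P'.prod B').mono (K := K) (by omega) l5 ⟨hpa', hq'⟩) (B.mono (by omega) l5 hqq)
  have s1 := tr_up h0 pa pa' q q' (fun ω => (z ω, y₀ J F ω)) le_rfl g3 g4
  have hm : ∀ {X Y : Type} (u : F.Ω → X) (v : F.Ω → Y),
      CH (Pool.Agent.H49.Ent.cond F.p A True) u (fun ω => (v ω, ((z ω, z' ω), y₀ J F ω))) ≤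
      CH (Pool.Agent.H49.Ent.cond F.p A True) u (fun ω => (v ω, (z ω, y₀ J F ω))) := by
    intro X Y u v
    exact CH_mono_cond h0 fun ω ω' _ _ h => by
      simp only [Prod.mk.injEq] at h ⊢
      exact ⟨h.1, h.2.1.1, h.2.2⟩
  have s2 := tr_up h0 pa' pa q' q (fun ω => ((z ω, z' ω), y₀ J F ω)) le_rfl
    ((hm pa' pa).trans g2) ((hm q fun ω => (pa' ω, q' ω)).trans g5)
  have e6 : (κ₀ + ε) * J = κ₀ * J + 4 * (ε / 4 * J) := by ring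
  rw [e6]
  linarith

end

/-! ### Two precisions -/

section

variable {S : PCl m} {c : ℕ → Fin m} {r : ℕ} {sn : ℕ → ℝ → ℝ} {G : Set ℝ} {b o φ : ℝ}
  {γ : ∀ J : ℕ, Fam m J → Type} {y₀ : ∀ (J : ℕ) (F : Fam m J), F.Ω → γ J F}

/-- **The near path** over labels of two precisions. -/
theorem pa_pa (L : Lad S c r sn G b o φ) (hy : Kn ((range 0).image c) 1 1 y₀) {w : ℝ}
    {n p p' : ℕ → ℝ} (hw : w ∈ G) (hn : Nst r sn w φ n) (hp : ∀ i < r, sn i w - φ ≤ p i)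
    (hp' : ∀ i < r, sn i w - φ ≤ p' i) :
    Few S (fun J F => ptr F J) (vg w) y₀ (paQ m c r w p n (fun l => n l - w))
      (paQ m c r w p' n (fun l => n l - w)) := by
  obtain ⟨C₀, htm⟩ := L.tm
  have hφ := L.φ0
  obtain ⟨u₁, rd, hrd, hch⟩ := L.ch.ch w hw
  have hf : ∀ (J : ℕ) (F : Fam m J), ∃ χ : PtT F → PtT F, ∀ ω, ptr F J ω = χ (ptr F J ω) :=
    fun J F => ⟨fun x => x, fun _ => rfl⟩
  have hsn : ∀ i < r, sn i w - φ ≤ min (p i) (p' i) := fun i hi => le_min (hp i hi) (hp' i hi)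
  have h1 := mov_jets (f := fun J F => ptr F J) (y := y₀) htm L.pos hch hf hy (v := w) (σ := φ)
    (p := p) (p' := p') (n := n) (n' := n) (Jm := 1) hφ le_rfl hp
    (fun i hi => by have := hn.lo i hi; linarith) (fun i hi => by have := hn.hi i hi; linarith)
    (fun i hi l hl => by have := hn.ne i hi l hl; linarith)
    (fun i hi => by rw [sub_self, mul_zero, add_zero])
    (fun i hi => by
      have h2 := hn.hi i hi
      have h3 := hsn i hi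
      rw [sub_self, mul_zero, add_zero]
      linarith)
    (fun i hi l hl => by
      have h2 := hn.ne i hi l hl
      have h3 := hsn i hi
      rw [sub_self, mul_zero, add_zero]
      linarith)
  intro h hh
  obtain ⟨e₀, he₀, H⟩ := h1 h hh
  refine ⟨e₀, he₀, fun K => Bas.mono 0 (H K) fun J _ F A H u u' hu hu' => ?_⟩
  exact H u u' (paQ_jt hu) (paQ_jt hu')

/-- **One jet of the target** over labels of two precisions. -/
theorem tg_tg (L : Lad S c r sn G b o φ) (hy : Kn ((range 0).image c) 1 1 y₀) {w pv pw N : ℝ}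
    {n p : ℕ → ℝ} {k : Fin m} {j : ℕ} (hw : w ∈ G) (hbw : b ≤ w) (hwo : w ≤ o)
    (hn : Nst r sn w φ n) (hnat : ∀ i < r, n i - sn i w + 3 * φ ≤ w - b)
    (hp : ∀ i < r, sn i w - φ ≤ p i) (h3 : N + (j : ℝ) * w + φ ≤ min pv pw + (1 - w))
    (h3' : ∀ l < r, N + (j : ℝ) * w + 2 * φ ≤ min pv pw + (n l - sn l w)) :
    Few S (fun J F => ptr F J) (vg w) y₀ ((paQ m c r w p n (fun l => n l - w)).prod
      (qJet m ((range r).image c) k j w pv N)) (qJet m ((range r).image c) k j w pw N) := by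
  obtain ⟨C₀, htm⟩ := L.tm
  have hφ := L.φ0
  obtain ⟨u₁, rd, hrd, hch⟩ := L.ch.ch w hw
  have hf : ∀ (J : ℕ) (F : Fam m J), ∃ χ : PtT F → PtT F, ∀ ω, ptr F J ω = χ (ptr F J ω) :=
    fun J F => ⟨fun x => x, fun _ => rfl⟩
  have hx1 : Exs S (qJets m c 0 r j (fun _ _ => w) (fun l _ => sn l w)
      (fun l j' => n l - (j' : ℝ) * w)) :=
    exs_qjets fun l l0 l1 j' _ => exs_jet (hrd l l1) (hch.att l l0 l1)
  have key := mov_tgt (f := fun J F => ptr F J) (y := y₀) htm hch hf hy (v := w) (σ := φ)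
    (pv := pv) (pw := pw) (N := N + (j : ℝ) * w) (N' := N + (j : ℝ) * w) (p := fun l => sn l w)
    (n := n) (k := k) (j := j) hφ le_rfl
    (fun i hi => by linarith) (fun i hi => by have := hn.lo i hi; linarith)
    (fun i hi => by have := hn.hi i hi; linarith)
    (fun i hi l hl => by have := hn.ne i hi l hl; linarith) (by rw [sub_self, mul_zero, add_zero])
    h3 h3'
  have e1 : N + (j : ℝ) * w - (j : ℝ) * w = N := by ring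
  rw [e1] at key
  have hj := jts_pa L hf hy hw hbw hwo hn hnat hp (fun i _ => by linarith)
    (p' := fun l => sn l w) j
  refine few_cut htm hx1 (Few.pre L.pos Prod.fst (fun K e J F A u hu => hu.1) hj) ?_
  refine Few.pre L.pos (fun u => (u.2, u.1.2)) ?_ key
  intro K e J F A u hu
  exact ⟨hu.2, hu.1.2⟩

/-- **A list of jets of the target** over labels of two precisions. -/
theorem ls_ls (L : Lad S c r sn G b o φ) (hy : Kn ((range 0).image c) 1 1 y₀) {w pv pw : ℝ}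
    {n p : ℕ → ℝ} {k : Fin m} {k' : ℕ} {od : Fin k' → ℕ} {N : Fin k' → ℝ} (hw : w ∈ G)
    (hbw : b ≤ w) (hwo : w ≤ o) (hn : Nst r sn w φ n) (hnat : ∀ i < r, n i - sn i w + 3 * φ ≤ w - b)
    (hp : ∀ i < r, sn i w - φ ≤ p i)
    (h3 : ∀ i, N i + (od i : ℝ) * w + φ ≤ min pv pw + (1 - w))
    (h3' : ∀ i, ∀ l < r, N i + (od i : ℝ) * w + 2 * φ ≤ min pv pw + (n l - sn l w)) :
    Few S (fun J F => ptr F J) (vg w) y₀ ((paQ m c r w p n (fun l => n l - w)).prod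
      (jtR m c r (fun _ => k) od (fun _ _ => pv) w N)) (jtR m c r (fun _ => k) od (fun _ _ => pw) w N) :=
  few_pi L.pos fun i => Few.pre (Q₂ := (paQ m c r w p n (fun l => n l - w)).prod
      (qJet m ((range r).image c) k (od i) w pv (N i))) L.pos (fun u => (u.1, u.2 i))
    (fun K e J F A u hu => ⟨hu.1, hu.2 i⟩)
    (tg_tg L hy (pv := pv) (pw := pw) hw hbw hwo hn hnat hp (h3 i) (h3' i))

end

end Pool.NA24
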